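import Pool.Agent.Work.MP_1bd46d_gt.CLevel

/-! A rigid family when small homeomorphisms have bounded displacement below a layer. -/

namespace Pool.Agent.Emb36

open Set Metric Topology Filter

set_option linter.unusedSectionVars false

variable {X : Type*} [MetricSpace X] [CompactSpace X] [Nonempty X] {g : X → ℝ}

structure StB (X : Type*) [MetricSpace X] where
  π : C(X, ℝ)
  lo : ℝ
  hi : ℝ
  ξ : ℝ

def InvB (g : X → ℝ) (t : ℝ) (p q : X) (n : ℕ) (s : StB X) : Prop :=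
  Ori g (1 / (n + 1)) s.π ∧ (Odd n → Ori g (1 / (3 * (n + 2))) s.π) ∧ s.lo ≤ s.hi ∧ s.hi < t ∧
    0 < s.ξ ∧ (∀ x, dist x q < s.ξ → 0 < (s.π x - s.π p) * (s.π q - s.π p)) ∧
    ∀ x, dist x p < s.ξ → 0 < (s.π x - s.π q) * (s.π p - s.π q)

def RelB (g : X → ℝ) (t : ℝ) (p q : X) (F : ℝ → ℝ) (n : ℕ) (s s' : StB X) : Prop :=
  s.hi ≤ s'.lo ∧ s'.ξ ≤ s.ξ ∧ (∀ x y, g x ≤ s'.lo → y ∈ Em g t → s'.π x ≤ s'.π y) ∧
    (Even n → Fine (1 / ((n + 1 : ℕ) + 1)) s'.π) ∧
    (Odd n → ((∀ y ∈ Tl g t s'.hi, ∀ z ∈ Tl g t s'.hi, s.π y ≤ s.π z → s'.π y ≤ s'.π z) ∨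
        (∀ y ∈ Tl g t s'.hi, ∀ z ∈ Tl g t s'.hi, s.π y ≤ s.π z → s'.π z ≤ s'.π y)) ∧
      ∃ x, F s.hi < g x ∧ F (g x) ≤ s'.lo ∧ g x ≤ s'.lo ∧
        ((dist x q < s.ξ ∧ s.π p < s.π q) ∨ (dist x p < s.ξ ∧ s.π q < s.π p)))

lemma stepB (D : Data g) {t : ℝ} {p q : X} (hp : p ∈ Em g t) (hq : q ∈ Em g t) {F : ℝ → ℝ}
    (hF : ∀ s < t, F s < t) (n : ℕ) (s : StB X) (hs : InvB g t p q n s) (γ : ℝ) (hγ : 0 < γ) :
    ∃ s', InvB g t p q (n + 1) s' ∧ RelB g t p q F n s s' ∧ Refines γ s'.π s.π := by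
  obtain ⟨i1, i2, i3, i4, i5, i6, i7⟩ := hs
  have hpq : s.π p ≠ s.π q := by
    intro h
    have := i6 q (by simpa using i5)
    rw [h, sub_self, mul_zero] at this; exact lt_irrefl _ this
  have hγ' : 0 < min γ |s.π p - s.π q| := lt_min hγ (abs_pos.2 (sub_ne_zero.2 hpq))
  have hn : (0 : ℝ) ≤ n := Nat.cast_nonneg n
  rcases Nat.even_or_odd n with he | ho
  · obtain ⟨ε, hε, hε'⟩ := unif s.π hγ'
    obtain ⟨ρ, h1, h2⟩ := D.fine_ori (ε := min ε (1 / ((n + 1 : ℕ) + 1)))
      (σ := min (t - s.hi) (1 / (3 * (((n + 1 : ℕ) : ℝ) + 2)))) (lt_min hε (by positivity))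
      (lt_min (by linarith) (by positivity))
    have hR : Refines (min γ |s.π p - s.π q|) ρ s.π := fun x y h =>
      hε' x y ((h1 x y h).trans_le (min_le_left _ _))
    obtain ⟨ξ, a1, a2, a3, a4⟩ := sign_radius ρ (hR.ne (min_le_right _ _)) i5
    have ho' : Ori g (1 / (3 * (((n + 1 : ℕ) : ℝ) + 2))) ρ := h2.ori.mono (min_le_right _ _)
    refine ⟨⟨ρ, s.hi, s.hi, ξ⟩, ⟨ho'.mono ?_, fun _ => ho', le_rfl, i4, a1, a3, a4⟩,
      ⟨le_rfl, a2, fun x y hx hy => ?_, fun _ => h1.mono (min_le_right _ _), fun h => ?_⟩,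
      hR.mono (min_le_left _ _)⟩
    · push_cast
      exact one_div_le_one_div_of_le (by positivity) (by linarith)
    · refine (h2 x y ?_).le
      have := min_le_left (t - s.hi) (1 / (3 * (((n + 1 : ℕ) : ℝ) + 2)))
      have e := hy.1
      simp only at hx; linarith
    · exact absurd he (Nat.not_even_iff_odd.2 h)
  · have hx : ∃ x, F s.hi < g x ∧ g x < t ∧
        ((dist x q < s.ξ ∧ s.π p < s.π q) ∨ (dist x p < s.ξ ∧ s.π q < s.π p)) := by
      rcases lt_or_gt_of_ne hpq with h | h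
      · obtain ⟨x, a, b, c⟩ := D.near_Em (hF _ i4) hq isOpen_ball (mem_ball_self i5)
        exact ⟨x, b, c, Or.inl ⟨a, h⟩⟩
      · obtain ⟨x, a, b, c⟩ := D.near_Em (hF _ i4) hp isOpen_ball (mem_ball_self i5)
        exact ⟨x, b, c, Or.inr ⟨a, h⟩⟩
    obtain ⟨x, x1, x2, x3⟩ := hx
    obtain ⟨ρ, lo, hi, c1, c2, c3, c4, c5, c6, c7⟩ := clevel D ⟨p, hp⟩ s.π
      (σ := 1 / (3 * (n + 2))) (by positivity) (i2 ho) (a := max s.hi (max (g x) (F (g x))))
      (max_lt i4 (max_lt x2 (hF _ x2))) hγ'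
    obtain ⟨ξ, a1, a2, a3, a4⟩ := sign_radius ρ (c4.ne (min_le_right _ _)) i5
    refine ⟨⟨ρ, lo, hi, ξ⟩, ⟨c5.mono (le_of_eq ?_), fun h => ?_, c2, c3, a1, a3, a4⟩,
      ⟨(le_max_left _ _).trans c1, a2, c6, fun h => ?_, fun _ => ⟨c7, x, x1,
        ((le_max_right _ _).trans (le_max_right _ _)).trans c1,
        ((le_max_left _ _).trans (le_max_right _ _)).trans c1, x3⟩⟩,
      c4.mono (min_le_left _ _)⟩
    · push_cast; field_simp; ring
    · exact absurd (ho.add_one) (Nat.not_even_iff_odd.2 h)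
    · exact absurd h (Nat.not_even_iff_odd.2 ho)

open Classical in
noncomputable def sgnB (p q : X) (c : ℕ → Bool) (j : ℕ) (s s' : StB X) : Bool :=
  if Even j then (if rev s.π s'.π p q = 1 then false else true) else c (j / 2)

lemma ori_eventually {P : ℕ → C(X, ℝ)} (h : ∀ n : ℕ, Ori g (1 / (n + 1)) (P n)) :
    (∀ σ > 0, ∃ n0, ∀ n ≥ n0, Ori g σ (P n)) ∧ ∀ n, Ori g 1 (P n) := by
  refine ⟨fun σ hσ => ?_, fun n => (h n).mono ?_⟩
  · obtain ⟨k, hk⟩ := exists_nat_one_div_lt hσ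
    exact ⟨k, fun n hn => (h n).mono ((Nat.one_div_le_one_div hn).trans hk.le)⟩
  · rw [div_le_one (by positivity)]; linarith [Nat.cast_nonneg (α := ℝ) n]

theorem caseB (D : Data g) {φ : C(X, ℝ)} {δ : ℝ} (hδ : 0 < δ)
    (hφ : ∀ x y, g x = 0 → g y = 1 → 12 * δ ≤ φ y - φ x) {t : ℝ} {p q : X}
    (hp : p ∈ Em g t) (hq : q ∈ Em g t) (hpq : 13 * δ ≤ φ q - φ p)
    (hrig : ∀ s < t, ∃ F < t, ∀ η : X ≃ₜ X, (∀ x, |φ (η x) - φ x| ≤ δ) →
      (∀ x y, g x < g y ↔ g (η x) < g (η y)) → ∀ x, g x ≤ s → g (η x) ≤ F) : RigidFam X := by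
  choose! F hF hF' using hrig
  obtain ⟨ξ0, hξ0, hξ0'⟩ := unif φ hδ
  obtain ⟨ξ, a1, a2, a3, a4⟩ := sign_radius φ (p := p) (q := q) (by linarith) hξ0
  have h0 : InvB g t p q 0 ⟨φ, t - 1, t - 1, ξ⟩ := by
    refine ⟨fun x y hxy => ?_, fun h => absurd h (by decide), le_rfl, by simp, a1, a3, a4⟩
    have := D.mem x; have := D.mem y
    simp only [Nat.cast_zero, zero_add, div_one, mem_Icc] at *
    linarith [hφ x y (by linarith) (by linarith)]
  obtain ⟨st, ψ, s0, hst, hdet, hrun⟩ := engine (fun s : StB X => s.π) ⟨φ, t - 1, t - 1, ξ⟩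
    (InvB g t p q) (RelB g t p q F) h0 (stepB D hp hq hF) (sgnB p q) hδ
  simp only at hrun
  have hinj : ∀ c, Function.Injective (ψ c) := fun c => (hrun c).inj fun k =>
    ⟨2 * k + 1, by omega, (hst c (2 * k)).2.2.2.2.1 (even_two_mul k)⟩
  have hori := fun c => ori_eventually (P := fun n => (st c n).π) fun n => (hst c n).1.1
  refine ⟨ψ, 3 * (‖φ‖ + δ) + 8 * δ, δ / 3, by positivity, hinj, ?_⟩
  have main : ∀ c c' k, (∀ i < k, c i = c' i) → c k = true → c' k = false →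
      ¬ Small (3 * (‖φ‖ + δ) + 8 * δ) (δ / 3) (ψ c') (ψ c) := by
    rintro c c' k hk hc hc' ⟨h, hh, hs⟩
    obtain ⟨η, e1, e2, e3⟩ := transfer D hδ hφ (hrun c') (hrun c) (hinj c') (hinj c) (hori c').1
      (hori c).1 (hori c').2 (hori c).2 h hh hs
    have e1' : ∀ x, |φ (η.symm x) - φ x| ≤ δ := fun x => by
      have := e1 (η.symm x); rwa [η.apply_symm_apply, abs_sub_comm] at this
    have e2' : ∀ x y, g x < g y ↔ g (η.symm x) < g (η.symm y) := fun x y => by
      rw [e2 (η.symm x), η.apply_symm_apply, η.apply_symm_apply]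
    have hηE : ∀ y ∈ Em g t, η y ∈ Em g t := by
      intro y hy
      have c1 : η y ∈ closure {y | g y < t} := map_mem_closure η.continuous hy.2 fun z hz =>
        (hF' _ hz η e1 e2 z le_rfl).trans_lt (hF _ hz)
      refine ⟨le_antisymm (D.le_of_closure c1) (not_lt.1 fun hlt => ?_), c1⟩
      have := hF' _ hlt η.symm e1' e2' (η y) le_rfl
      rw [η.symm_apply_apply, hy.1] at this
      exact absurd (hF _ hlt) (not_lt.2 this)
    set n := 2 * k + 1 with hn
    have hodd : Odd n := odd_two_mul_add_one k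
    have hsg : ∀ j < n, sgnB p q c j = sgnB p q c' j := by
      intro j hj
      funext s s'
      unfold sgnB
      split_ifs with h1 h2
      · rfl
      · rfl
      · exact hk _ (by rcases Nat.even_or_odd' j with ⟨i, rfl | rfl⟩ <;> [simp at h1; omega])
    have hsame := hdet c c' n hsg
    have hhi : ∀ d i j, i < j → (st d i).hi ≤ (st d j).lo := by
      intro d i j hij
      induction j, hij using Nat.le_induction with
      | base => exact (hst d i).2.1
      | succ j _ ih => exact ih.trans ((hst d j).1.2.2.1.trans (hst d j).2.1)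
    have hlo : ∀ d i j, i ≤ j → (st d i).lo ≤ (st d j).lo := by
      intro d i j hij
      rcases hij.lt_or_eq with h1 | rfl
      · exact (hst d i).1.2.2.1.trans (hhi d i j h1)
      · exact le_rfl
    have hξ : ∀ d i j, i ≤ j → (st d j).ξ ≤ (st d i).ξ := by
      intro d i j hij
      induction j, hij using Nat.le_induction with
      | base => exact le_rfl
      | succ j _ ih => exact (hst d j).2.2.1.trans ih
    have late : ∀ d y z, y ∈ Em g t → g z ≤ (st d (n + 1)).lo → ∀ j ≥ n + 1,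
        rev (st d j).π (st d (j + 1)).π y z = 0 := by
      intro d y z hy hz j hj
      obtain ⟨i, rfl⟩ : ∃ i, j = i + 1 := ⟨j - 1, by omega⟩
      exact rev_zero_le ((hst d i).2.2.2.1 z y (hz.trans (hlo d _ _ hj)) hy)
        ((hst d (i + 1)).2.2.2.1 z y (hz.trans (hlo d _ _ (by omega))) hy)
    obtain ⟨-, x, x1, x2, x3, x4⟩ := (hst c' n).2.2.2.2.2 hodd
    have xt : g x < t := x3.trans_lt ((hst c' (n + 1)).1.2.2.1.trans_lt (hst c' (n + 1)).1.2.2.2.1)
    obtain ⟨y, hy, far, hrev, hlt⟩ : ∃ y ∈ Em g t, 12 * δ ≤ |φ y - φ x| ∧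
        (∀ j < n, rev (st c' j).π (st c' (j + 1)).π y x = rev (st c' j).π (st c' (j + 1)).π p q) ∧
        (st c' n).π y < (st c' n).π x := by
      have hξ1 : (st c' n).ξ ≤ ξ0 := by
        have := hξ c' 0 n (Nat.zero_le _); rw [s0] at this; exact this.trans a2
      rcases x4 with ⟨d1, d2⟩ | ⟨d1, d2⟩
      · refine ⟨p, hp, ?_, fun j hj => ?_, ?_⟩
        · have := abs_lt.1 (hξ0' x q (d1.trans_le hξ1))
          exact le_abs'.2 (Or.inl (by linarith))
        · exact rev_congr ((hst c' j).1.2.2.2.2.2.1 x (d1.trans_le (hξ c' _ _ hj.le)))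
            ((hst c' (j + 1)).1.2.2.2.2.2.1 x (d1.trans_le (hξ c' _ _ hj)))
        · have := (hst c' n).1.2.2.2.2.2.1 x d1
          by_contra hcon; nlinarith [not_lt.1 hcon]
      · refine ⟨q, hq, ?_, fun j hj => ?_, ?_⟩
        · have := abs_lt.1 (hξ0' x p (d1.trans_le hξ1))
          exact le_abs'.2 (Or.inr (by linarith))
        · rw [rev_symm _ _ p q]
          exact rev_congr ((hst c' j).1.2.2.2.2.2.2 x (d1.trans_le (hξ c' _ _ hj.le)))
            ((hst c' (j + 1)).1.2.2.2.2.2.2 x (d1.trans_le (hξ c' _ _ hj)))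
        · have := (hst c' n).1.2.2.2.2.2.2 x d1
          by_contra hcon; nlinarith [not_lt.1 hcon]
    obtain ⟨n0, hn0⟩ := e3 y x (by rw [hy.1]; exact xt) far
    have eq := hn0 (n0 + n + 1) (by omega)
    have z1 : g (η x) ≤ (st c (n + 1)).lo := by
      rw [hsame _ le_rfl]; exact (hF' _ xt η e1 e2 x le_rfl).trans x2
    have z2 : (st c n).hi < g (η x) := by
      rw [hsame _ (by omega)]
      by_contra hcon
      have := hF' _ (hst c' n).1.2.2.2.1 η.symm e1' e2' (η x) (not_lt.1 hcon)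
      rw [η.symm_apply_apply] at this
      linarith
    have z3 : g (η x) < t := (hF' _ xt η e1 e2 x le_rfl).trans_lt (hF _ xt)
    have far' : 10 * δ ≤ |φ (η y) - φ (η x)| := by
      have u1 := abs_le.1 (e1 x); have u2 := abs_le.1 (e1 y)
      rcases le_abs'.1 far with u | u
      · exact le_abs'.2 (Or.inl (by linarith))
      · exact le_abs'.2 (Or.inr (by linarith))
    have farpq : 10 * δ ≤ |φ p - φ q| := le_abs'.2 (Or.inl (by linarith))
    rw [NN_stab (P := fun n => (st c n).π) _ (late c _ _ (hηE y hy) z1) (by omega),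
      NN_stab (P := fun n => (st c' n).π) _ (late c' _ _ hy x3) (by omega),
      NN_succ _ _ n, NN_succ _ _ n] at eq
    have t1 : sgnB p q c n (st c n) (st c (n + 1)) = true := by
      rw [sgnB, if_neg (Nat.not_even_iff_odd.2 hodd), ← hc]; congr 1; omega
    have t2 : sgnB p q c' n (st c' n) (st c' (n + 1)) = false := by
      rw [sgnB, if_neg (Nat.not_even_iff_odd.2 hodd), ← hc']; congr 1; omega
    have t3 : rev (st c' n).π (st c' (n + 1)).π y x = 1 := by
      refine rev_one (mul_neg_of_pos_of_neg (by linarith) (sub_neg.2 (lt_of_le_of_ne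
        ((hst c' n).2.2.2.1 x y x3 hy) ((hrun c').sep (n + 1) y x (by linarith)).symm)))
    have t4 : NN (fun n => (st c' n).π) (fun n => sgnB p q c' n (st c' n) (st c' (n + 1))) n y x ≤
        NN (fun n => (st c n).π) (fun n => sgnB p q c n (st c n) (st c (n + 1))) n (η y) (η x) := by
      refine Finset.sum_le_sum fun j hj => ?_
      have hj' := Finset.mem_range.1 hj
      simp only
      rw [hrev j hj', ← hsg j hj', ← hsame j (by omega), ← hsame (j + 1) (by omega)]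
      rcases Nat.even_or_odd j with hj2 | hj2
      · rw [sgnB, if_pos hj2]
        rcases rev_cases (st c j).π (st c (j + 1)).π p q with r1 | r1 <;>
          rcases rev_cases (st c j).π (st c (j + 1)).π (η y) (η x) with r2 | r2 <;>
          simp [r1, r2, sg]
      · have m1 : η y ∈ Tl g t (st c (j + 1)).hi := Or.inr (hηE y hy)
        have m2 : η x ∈ Tl g t (st c (j + 1)).hi := by
          refine Or.inl ⟨le_trans ?_ z2.le, z3⟩
          obtain ⟨i, hi⟩ := hj2
          exact (hhi c (j + 1) n (by omega)).trans (hst c n).1.2.2.1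
        have m3 : p ∈ Tl g t (st c (j + 1)).hi := Or.inr hp
        have m4 : q ∈ Tl g t (st c (j + 1)).hi := Or.inr hq
        rcases ((hst c j).2.2.2.2.2 hj2).1 with r | r
        · rw [rev_of_mono (r _ m1 _ m2) (r _ m2 _ m1), rev_of_mono (r _ m3 _ m4) (r _ m4 _ m3)]
        · rw [rev_of_anti (r _ m1 _ m2) (r _ m2 _ m1) ((hrun c).sep j _ _ far')
            ((hrun c).sep (j + 1) _ _ far'), rev_of_anti (r _ m3 _ m4) (r _ m4 _ m3)
            ((hrun c).sep j _ _ farpq) ((hrun c).sep (j + 1) _ _ farpq)]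
    simp only [t1, t2, t3, sg] at eq
    rcases rev_cases (st c n).π (st c (n + 1)).π (η y) (η x) with r | r <;>
      simp [r] at eq <;> omega
  rintro c c' hne ⟨h1, h2⟩
  have hex : ∃ k, c k ≠ c' k := Function.ne_iff.1 hne
  classical
  have hk := Nat.find_spec hex
  have hk' : ∀ i < Nat.find hex, c i = c' i := fun i hi => not_not.1 (Nat.find_min hex hi)
  cases hc : c (Nat.find hex) <;> cases hc' : c' (Nat.find hex)
  · exact hk (hc.trans hc'.symm)
  · exact main c' c _ (fun i hi => (hk' i hi).symm) hc' hc h1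
  · exact main c c' _ hk' hc hc' h2
  · exact hk (hc.trans hc'.symm)

end Pool.Agent.Emb36
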