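import Pool.Agent.Work.MP_1bd46d_gt.ALevel
import Pool.Agent.Work.MP_1bd46d_gt.CaseB

/-! A rigid family from spirals around a two-sided layer. -/

namespace Pool.Agent.Emb36

open Set Metric Topology Filter

set_option linter.unusedSectionVars false

def isR (n : ℕ) : Prop := n = 0 ∨ ∃ k, n = 11 ^ k

def blk (c : ℕ → Bool) (k : ℕ) : Bool := if Even k then c (k / 2) else false

open Classical in
noncomputable def sgA (c : ℕ → Bool) (n : ℕ) : Bool := if isR n then true else blk c (Nat.log 11 n)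

open Classical in
noncomputable def upA (c : ℕ → Bool) (j : ℕ) : ℤ := if isR j then 1 else sg (sgA c j)

open Classical in
noncomputable def dnA (c : ℕ → Bool) (j : ℕ) : ℤ := if isR j then 0 else - sg (sgA c j)

lemma in_block {j k : ℕ} (h1 : 11 ^ k < j) (h2 : j < 11 ^ (k + 1)) :
    ¬ isR j ∧ Nat.log 11 j = k := by
  refine ⟨?_, (Nat.log_eq_iff (Or.inr ⟨by norm_num, by omega⟩)).2 ⟨h1.le, h2⟩⟩
  rintro (h | ⟨i, rfl⟩)
  · omega
  · have a := (Nat.pow_lt_pow_iff_right (by norm_num : 1 < 11)).1 h1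
    have b := (Nat.pow_lt_pow_iff_right (by norm_num : 1 < 11)).1 h2
    omega

lemma sum_block {f : ℕ → ℤ} (hf : ∀ j, f j ≤ 1) {B B' : ℕ} (hb : ∀ j, B < j → j < B' → f j = -1) :
    (∀ m ≤ B', ∑ j ∈ Finset.range m, f j ≤ B + 1) ∧
      (B < B' → ∑ j ∈ Finset.range B', f j ≤ 2 * B + 2 - B') := by
  have a : ∀ m : ℕ, ∑ j ∈ Finset.range m, f j ≤ m := by
    intro m
    induction m with
    | zero => simp
    | succ m ih => rw [Finset.sum_range_succ]; push_cast; linarith [hf m]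
  have b : ∀ m, B + 1 ≤ m → m ≤ B' → ∑ j ∈ Finset.range m, f j ≤ 2 * B + 2 - m := by
    intro m hm
    induction m, hm using Nat.le_induction with
    | base => intro _; have := a (B + 1); push_cast at this ⊢; linarith
    | succ m hm ih =>
      intro h
      rw [Finset.sum_range_succ, hb m (by omega) (by omega)]
      have := ih (by omega)
      push_cast; linarith
  refine ⟨fun m hm => ?_, fun h => b B' h le_rfl⟩
  rcases le_total m (B + 1) with h | h
  · have := a m; omega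
  · have := b m h hm; omega

lemma up_block {c : ℕ → Bool} {k : ℕ} (h : blk c k = false) :
    (∀ m ≤ 11 ^ (k + 1), ∑ j ∈ Finset.range m, upA c j ≤ 11 ^ k + 1) ∧
      ∑ j ∈ Finset.range (11 ^ (k + 1)), upA c j ≤ 2 - 9 * 11 ^ k := by
  have := sum_block (f := upA c) (B := 11 ^ k) (B' := 11 ^ (k + 1)) (fun j => by
    unfold upA; split_ifs
    · exact le_rfl
    · rcases sg_cases' (sgA c j) with h | h <;> omega) (fun j h1 h2 => by
      obtain ⟨a, b⟩ := in_block h1 h2
      rw [upA, if_neg a, sgA, if_neg a, b, h]; rfl)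
  refine ⟨fun m hm => by simpa using this.1 m hm, ?_⟩
  have e := this.2 (Nat.pow_lt_pow_right (by norm_num) (by omega))
  push_cast at e
  rw [pow_succ (11 : ℤ)] at e; linarith

lemma dn_block {c : ℕ → Bool} {k : ℕ} (h : blk c k = true) :
    (∀ m ≤ 11 ^ (k + 1), ∑ j ∈ Finset.range m, dnA c j ≤ 11 ^ k + 1) ∧
      ∑ j ∈ Finset.range (11 ^ (k + 1)), dnA c j ≤ 2 - 9 * 11 ^ k := by
  have := sum_block (f := dnA c) (B := 11 ^ k) (B' := 11 ^ (k + 1)) (fun j => by
    unfold dnA; split_ifs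
    · exact zero_le_one
    · rcases sg_cases' (sgA c j) with h | h <;> omega) (fun j h1 h2 => by
      obtain ⟨a, b⟩ := in_block h1 h2
      rw [dnA, if_neg a, sgA, if_neg a, b, h]; rfl)
  refine ⟨fun m hm => by simpa using this.1 m hm, ?_⟩
  have e := this.2 (Nat.pow_lt_pow_right (by norm_num) (by omega))
  push_cast at e
  rw [pow_succ (11 : ℤ)] at e; linarith

variable {X : Type*} [MetricSpace X] [CompactSpace X] [Nonempty X] {g : X → ℝ}

def InvA (g : X → ℝ) (t : ℝ) (n : ℕ) (s : StA X) : Prop :=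
  Ori g s.σ s.π ∧ 0 < s.σ ∧ s.σ ≤ 1 ∧ s.li < t ∧ t < s.hi ∧ (n ≠ 0 → WA g t s)

def RelA (g : X → ℝ) (t : ℝ) (n : ℕ) (s s' : StA X) : Prop :=
  s.li < s'.lo ∧ s'.ho < s.hi ∧ s'.σ ≤ s.σ ∧ t - 1 / (n + 1) < s'.lo ∧ s'.ho < t + 1 / (n + 1) ∧
    (isR n → Fine (1 / ((n + 1 : ℕ) + 1)) s'.π ∧ s'.σ ≤ 1 / (n + 1)) ∧
    (¬ isR n → (∀ p x, g p ≤ s.lo ∨ s.ho ≤ g p → rev s.π s'.π p x = 0) ∧
      ∀ y z, s'.li ≤ g y → g y ≤ s'.hi → s'.li ≤ g z → g z ≤ s'.hi → s.π y ≤ s.π z →
        s'.π z ≤ s'.π y)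

lemma stepA (D : Data g) {t : ℝ} (hcoh : ∀ y, g y = t → y ∈ Em g t ∧ y ∈ Ep g t) {p q : X}
    (hp : g p = t) (hq : g q = t) (hpq : p ≠ q) (n : ℕ) (s : StA X) (hs : InvA g t n s) (γ : ℝ)
    (hγ : 0 < γ) : ∃ s', InvA g t (n + 1) s' ∧ RelA g t n s s' ∧ Refines γ s'.π s.π := by
  obtain ⟨i1, i2, i3, i4, i5, i6⟩ := hs
  have hr : (0 : ℝ) < 1 / (n + 1) := by positivity
  by_cases hn : isR n
  · obtain ⟨ε, hε, hε'⟩ := unif s.π hγ
    obtain ⟨s', W, a1, a2, a3, a4⟩ := rlevel D hcoh hp hq hpq (ε := min ε (1 / ((n + 1 : ℕ) + 1)))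
      (σ := min s.σ (1 / (n + 1))) (a := max s.li (t - 1 / (n + 1)))
      (b := min s.hi (t + 1 / (n + 1))) (lt_min hε (by positivity)) (lt_min i2 hr)
      (max_lt i4 (by linarith)) (lt_min i5 (by linarith))
    refine ⟨s', ⟨W.ori, a1 ▸ lt_min i2 hr, a1 ▸ (min_le_left _ _).trans i3, W.li, W.hi,
      fun _ => W⟩, ⟨(le_max_left _ _).trans_lt a2, a3.trans_le (min_le_left _ _),
      a1 ▸ min_le_left _ _, (le_max_right _ _).trans_lt a2, a3.trans_le (min_le_right _ _),
      fun _ => ⟨a4.mono (min_le_right _ _), a1 ▸ min_le_right _ _⟩, fun h => absurd hn h⟩,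
      fun x y h => hε' x y ((a4 x y h).trans_le (min_le_left _ _))⟩
  · obtain ⟨s', W, a1, a2, a3, a4, a5, a6, a7, a8⟩ := vlevel D hcoh (i6 fun h => hn (Or.inl h)) i2
      hγ hr
    exact ⟨s', ⟨W.ori, a1 ▸ i2, a1 ▸ i3, W.li, W.hi, fun _ => W⟩,
      ⟨a2, a3, a1.le, a4, a5, fun h => absurd h hn, fun _ => ⟨a7, a8⟩⟩, a6⟩

lemma term_bounds (b : Bool) (π ρ : X → ℝ) (p x : X) :
    -1 ≤ sg b * rev π ρ p x ∧ sg b * rev π ρ p x ≤ 1 := by
  rcases sg_cases' b with h | h <;> rcases rev_cases π ρ p x with h' | h' <;> simp [h, h']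

theorem caseA (D : Data g) {φ : C(X, ℝ)} {δ : ℝ} (hδ : 0 < δ)
    (hφ : ∀ x y, g x = 0 → g y = 1 → 12 * δ ≤ φ y - φ x) {t : ℝ}
    (hcoh : ∀ y, g y = t → y ∈ Em g t ∧ y ∈ Ep g t) {p q : X} (hp : g p = t) (hq : g q = t)
    (hpq : 28 * δ ≤ φ q - φ p) : RigidFam X := by
  have hne : p ≠ q := by rintro rfl; linarith
  have ht0 : 0 < t := by
    obtain ⟨x, -, -, h⟩ := D.near_Em (sub_one_lt t) (hcoh p hp).1 isOpen_univ trivial
    linarith [(D.mem x).1]
  have ht1 : t < 1 := by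
    obtain ⟨x, -, h, -⟩ := D.near_Ep (lt_add_one t) (hcoh p hp).2 isOpen_univ trivial
    linarith [(D.mem x).2]
  have h0 : InvA g t 0 ⟨φ, 0, 0, 1, 1, 0, 0, 1⟩ := by
    refine ⟨fun x y hxy => ?_, one_pos, le_rfl, ht0, ht1, fun h => absurd rfl h⟩
    have := D.mem x; have := D.mem y
    simp only [mem_Icc] at *
    linarith [hφ x y (by linarith) (by linarith)]
  obtain ⟨st, ψ, s0, hst, -, hrun⟩ := engine (fun s : StA X => s.π) ⟨φ, 0, 0, 1, 1, 0, 0, 1⟩
    (InvA g t) (RelA g t) h0 (stepA D hcoh hp hq hne) (fun c n _ _ => sgA c n) hδ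
  simp only at hrun
  have hpow : ∀ k, k < 11 ^ k := fun k => Nat.lt_pow_self (by norm_num)
  have hinj : ∀ c, Function.Injective (ψ c) := fun c => (hrun c).inj fun k =>
    ⟨11 ^ k + 1, by have := hpow k; omega, ((hst c (11 ^ k)).2.2.2.2.2.2.1 (Or.inr ⟨k, rfl⟩)).1⟩
  have W : ∀ c n, WA g t (st c (n + 1)) := fun c n => (hst c (n + 1)).1.2.2.2.2.2 (by omega)
  have hσ : ∀ c i j, i ≤ j → (st c j).σ ≤ (st c i).σ := by
    intro c i j hij
    induction j, hij using Nat.le_induction with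
    | base => exact le_rfl
    | succ j _ ih => exact (hst c j).2.2.2.1.trans ih
  have hori : ∀ c, ∀ σ > 0, ∃ n0, ∀ n ≥ n0, Ori g σ (st c n).π := by
    intro c σ hσ0
    obtain ⟨k, hk⟩ := exists_nat_one_div_lt hσ0
    refine ⟨11 ^ k + 1, fun n hn => (hst c n).1.1.mono ((hσ c _ _ hn).trans ?_)⟩
    exact (((hst c (11 ^ k)).2.2.2.2.2.2.1 (Or.inr ⟨k, rfl⟩)).2.trans
      (Nat.one_div_le_one_div (hpow k).le)).trans hk.le
  have hori1 : ∀ c n, Ori g 1 (st c n).π := fun c n => (hst c n).1.1.mono (hst c n).1.2.2.1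
  have hli : ∀ c, StrictMono fun n => (st c n).li := fun c =>
    strictMono_nat_of_lt_succ fun n => (hst c n).2.1.trans_le (W c n).lo
  have hlo : ∀ c i j, i < j → (st c i).li < (st c j).lo := by
    intro c i j hij
    obtain ⟨m, rfl⟩ : ∃ m, j = m + 1 := ⟨j - 1, by omega⟩
    exact ((hli c).monotone (by omega : i ≤ m)).trans_lt (hst c m).2.1
  have hhi : ∀ c, StrictAnti fun n => (st c n).hi := fun c =>
    strictAnti_nat_of_succ_lt fun n => (W c n).ho.trans_lt (hst c n).2.2.1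
  have hho : ∀ c i j, i < j → (st c j).ho < (st c i).hi := by
    intro c i j hij
    obtain ⟨m, rfl⟩ : ∃ m, j = m + 1 := ⟨j - 1, by omega⟩
    exact (hst c m).2.2.1.trans_le ((hhi c).antitone (by omega : i ≤ m))
  have li0 : ∀ c, (st c 0).li = 0 := fun c => by rw [s0]
  have lit : ∀ c n, (st c n).li < t := fun c n => (hst c n).1.2.2.2.1
  have hpt : ∀ c n, ∃ x, g x = (st c n).li := fun c n =>
    D.surj (by rw [← li0 c]; exact (hli c).monotone (Nat.zero_le n)) ((lit c n).trans ht1).le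
  -- position of a point below the layer
  have pos : ∀ c z, g z < t → ∃ n, (st c n).li ≤ g z ∧ g z < (st c (n + 1)).li := by
    intro c z hz
    have hex : ∃ n, g z < (st c (n + 1)).li := by
      obtain ⟨k, hk⟩ := exists_nat_one_div_lt (sub_pos.2 hz)
      exact ⟨k, by linarith [(hst c k).2.2.2.2.1, (W c k).lo]⟩
    classical
    refine ⟨Nat.find hex, ?_, Nat.find_spec hex⟩
    rcases h : Nat.find hex with _ | m
    · rw [li0]; exact (D.mem z).1
    · exact not_lt.1 (Nat.find_min hex (by omega : m < Nat.find hex))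
  have bounds : ∀ c n y z, g y = t → (st c n).li ≤ g z → g z < (st c (n + 1)).li →
      10 * δ ≤ |φ y - φ z| → ∀ m ≥ n + 2,
      -(∑ j ∈ Finset.range n, dnA c j) - 2 ≤ NN (fun n => (st c n).π) (sgA c) m y z ∧
        NN (fun n => (st c n).π) (sgA c) m y z ≤ ∑ j ∈ Finset.range n, upA c j + 2 := by
    intro c n y z hy z1 z2 far m hm
    have le1 : ∀ j ≥ n + 2, (st c j).π z ≤ (st c j).π y := by
      intro j hj
      obtain ⟨i, rfl⟩ : ∃ i, j = i + 1 := ⟨j - 1, by omega⟩
      exact ((W c i).w3 z (z2.trans (hlo c _ _ (by omega))).le).trans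
        ((W c i).w2 y (by rw [hy]; exact (W c i).li.le))
    rw [NN_stab (P := fun n => (st c n).π) _
      (fun j hj => rev_zero_le (le1 j hj) (le1 (j + 1) (by omega))) hm, NN_succ, NN_succ]
    have t1 := term_bounds (sgA c n) (st c n).π (st c (n + 1)).π y z
    have t2 := term_bounds (sgA c (n + 1)) (st c (n + 1)).π (st c (n + 1 + 1)).π y z
    have key : ∀ j ∈ Finset.range n,
        -dnA c j ≤ sg (sgA c j) * rev (st c j).π (st c (j + 1)).π y z ∧
        sg (sgA c j) * rev (st c j).π (st c (j + 1)).π y z ≤ upA c j := by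
      intro j hj
      have hj' := Finset.mem_range.1 hj
      by_cases hR : isR j
      · rw [dnA, upA, if_pos hR, if_pos hR, sgA, if_pos hR]
        rcases rev_cases (st c j).π (st c (j + 1)).π y z with h | h <;> simp [h, sg]
      · have a := ((hst c j).2.2.2.2.2.2.2 hR).2
        have b1 : (st c (j + 1)).li ≤ g y := by rw [hy]; exact (W c j).li.le
        have b2 : g y ≤ (st c (j + 1)).hi := by rw [hy]; exact (W c j).hi.le
        have b3 : (st c (j + 1)).li ≤ g z := ((hli c).monotone (by omega : j + 1 ≤ n)).trans z1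
        have b4 : g z ≤ (st c (j + 1)).hi := (z2.trans ((lit c _).trans (W c j).hi)).le
        rw [rev_of_anti (a y z b1 b2 b3 b4) (a z y b3 b4 b1 b2) ((hrun c).sep j _ _ far)
          ((hrun c).sep (j + 1) _ _ far), dnA, upA, if_neg hR, if_neg hR]
        simp
    have s1 := Finset.sum_le_sum fun j hj => (key j hj).1
    have s2 := Finset.sum_le_sum fun j hj => (key j hj).2
    rw [Finset.sum_neg_distrib] at s1
    unfold NN
    constructor <;> linarith
  have other : ∀ c t', t' ≠ t → ∃ n0 : ℕ, ∀ y z, g y = t' → ∀ m,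
      -(n0 : ℤ) ≤ NN (fun n => (st c n).π) (sgA c) m y z := by
    intro c t' ht'
    obtain ⟨k, hk⟩ := exists_nat_one_div_lt (abs_pos.2 (sub_ne_zero.2 ht'))
    refine ⟨k + 1, fun y z hy m => ?_⟩
    have hout : ∀ j ≥ k + 1, g y ≤ (st c j).lo ∨ (st c j).ho ≤ g y := by
      intro j hj
      obtain ⟨i, rfl⟩ : ∃ i, j = i + 1 := ⟨j - 1, by omega⟩
      have e : (1 : ℝ) / (i + 1) ≤ 1 / (k + 1) := Nat.one_div_le_one_div (by omega)
      have a := (hst c i).2.2.2.2.1
      have b := (hst c i).2.2.2.2.2.1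
      rcases lt_abs.1 hk with h | h
      · right; linarith
      · left; linarith
    have : ∀ m, -((min m (k + 1) : ℕ) : ℤ) ≤ NN (fun n => (st c n).π) (sgA c) m y z := by
      intro m
      induction m with
      | zero => simp [NN]
      | succ m ih =>
        rw [NN_succ]
        have t1 := term_bounds (sgA c m) (st c m).π (st c (m + 1)).π y z
        rcases Nat.lt_or_ge m (k + 1) with h | h
        · omega
        · have : 0 ≤ sg (sgA c m) * rev (st c m).π (st c (m + 1)).π y z := by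
            by_cases hR : isR m
            · rw [sgA, if_pos hR]
              rcases rev_cases (st c m).π (st c (m + 1)).π y z with h | h <;> simp [h, sg]
            · rw [((hst c m).2.2.2.2.2.2.2 hR).1 y z (hout m h), mul_zero]
          omega
    have := this m
    omega
  have farpt : ∀ x, ∃ y, (y = p ∨ y = q) ∧ 14 * δ ≤ |φ y - φ x| := by
    intro x
    rcases le_total (φ x) (φ p + 14 * δ) with h | h
    · exact ⟨q, Or.inr rfl, le_abs'.2 (Or.inr (by linarith))⟩
    · exact ⟨p, Or.inl rfl, le_abs'.2 (Or.inl (by linarith))⟩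
  refine ⟨ψ, 3 * (‖φ‖ + δ) + 8 * δ, δ / 3, by positivity, hinj, ?_⟩
  have main : ∀ c c' k, blk c k = false → blk c' k = true →
      ¬ Small (3 * (‖φ‖ + δ) + 8 * δ) (δ / 3) (ψ c') (ψ c) := by
    rintro c c' k hc hc' ⟨h, hh, hs⟩
    obtain ⟨η, e1, e2, e3⟩ := transfer D hδ hφ (hrun c') (hrun c) (hinj c') (hinj c) (hori c')
      (hori c) (hori1 c') (hori1 c) h hh hs
    have eqv : ∀ x y, g x = g y ↔ g (η x) = g (η y) := fun x y =>
      ⟨D.homeo η x y, fun h => by simpa using D.homeo η.symm _ _ h⟩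
    have shift : ∀ {r : ℝ} y z, r + 2 * δ ≤ |φ y - φ z| → r ≤ |φ (η y) - φ (η z)| := by
      intro r y z far
      have u1 := abs_le.1 (e1 y); have u2 := abs_le.1 (e1 z)
      rcases le_abs'.1 far with u | u
      · exact le_abs'.2 (Or.inl (by linarith))
      · exact le_abs'.2 (Or.inr (by linarith))
    have shift' : ∀ {r : ℝ} y z, r + 2 * δ ≤ |φ (η y) - φ (η z)| → r ≤ |φ y - φ z| := by
      intro r y z far
      have u1 := abs_le.1 (e1 y); have u2 := abs_le.1 (e1 z)
      rcases le_abs'.1 far with u | u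
      · exact le_abs'.2 (Or.inl (by linarith))
      · exact le_abs'.2 (Or.inr (by linarith))
    have hpq' : ∀ y, y = p ∨ y = q → g y = t := by rintro y (rfl | rfl) <;> assumption
    have fix : g (η p) = t := by
      by_contra hcon
      obtain ⟨n0, hn0⟩ := other c _ hcon
      have hb : blk c' (2 * n0 + 1) = false := by
        rw [blk, if_neg (Nat.not_even_iff_odd.2 (odd_two_mul_add_one n0))]
      obtain ⟨x, hx⟩ := hpt c' (11 ^ (2 * n0 + 1 + 1))
      obtain ⟨y, hy, far⟩ := farpt x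
      obtain ⟨m0, hm0⟩ := e3 y x (by rw [hpq' y hy, hx]; exact lit _ _) (by linarith)
      have b := (bounds c' _ y x (hpq' y hy) hx.ge (hx ▸ hli c' (Nat.lt_succ_self _))
        (by linarith) (m0 + 11 ^ (2 * n0 + 1 + 1) + 2) (by omega)).2
      have a := hn0 (η y) (η x) ((eqv y p).1 ((hpq' y hy).trans hp.symm))
        (m0 + 11 ^ (2 * n0 + 1 + 1) + 2)
      rw [hm0 _ (by rw [add_assoc]; exact Nat.le_add_right _ _)] at a
      have d := (up_block hb).2
      have e : ((2 * n0 + 1 : ℕ) : ℤ) < 11 ^ (2 * n0 + 1) := by exact_mod_cast hpow _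
      push_cast at e
      linarith
    have fixL : ∀ y, g y = t ↔ g (η y) = t := fun y => by
      rw [← hp, eqv, fix, hp]
    obtain ⟨x', hx'⟩ := hpt c' (11 ^ (k + 1))
    obtain ⟨x, hx⟩ := hpt c (11 ^ (k + 1))
    have p11 : (1 : ℤ) ≤ 11 ^ k := one_le_pow₀ (by norm_num)
    rcases le_or_gt (g (η x')) (g x) with hle | hlt
    · obtain ⟨y, hy, far⟩ := farpt x'
      obtain ⟨m0, hm0⟩ := e3 y x' (by rw [hpq' y hy, hx']; exact lit _ _) (by linarith)
      obtain ⟨n, n1, n2⟩ := pos c (η x') (hle.trans_lt (hx ▸ lit _ _))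
      have hn : n ≤ 11 ^ (k + 1) := (hli c).le_iff_le.1 (n1.trans (hle.trans hx.le))
      have b := (bounds c' _ y x' (hpq' y hy) hx'.ge (hx' ▸ hli c' (Nat.lt_succ_self _))
        (by linarith) (m0 + 11 ^ (k + 1) + 2) (by omega)).1
      have a := (bounds c n (η y) (η x') ((fixL y).1 (hpq' y hy)) n1 n2
        (shift _ _ (by linarith)) (m0 + 11 ^ (k + 1) + 2) (by omega)).2
      rw [hm0 _ (by omega)] at a
      linarith [(up_block hc).1 n hn, (dn_block hc').2]
    · obtain ⟨u, rfl⟩ := η.surjective x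
      obtain ⟨y0, hy0, far⟩ := farpt (η u)
      obtain ⟨y, rfl⟩ := η.surjective y0
      have hy : g y = t := (fixL y).2 (hpq' _ hy0)
      have hu : g u < g x' := (e2 _ _).2 hlt
      have hut : g u < t := hu.trans (hx' ▸ lit _ _)
      obtain ⟨m0, hm0⟩ := e3 y u (by rw [hy]; exact hut) (shift' _ _ (by linarith))
      obtain ⟨n, n1, n2⟩ := pos c' u hut
      have hn : n ≤ 11 ^ (k + 1) := (hli c').le_iff_le.1 (n1.trans (hu.le.trans hx'.le))
      have b := (bounds c' n y u hy n1 n2 (shift' _ _ (by linarith))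
        (m0 + 11 ^ (k + 1) + 2) (by omega)).1
      have a := (bounds c _ (η y) (η u) (hpq' _ hy0) hx.ge (hx ▸ hli c (Nat.lt_succ_self _))
        (by linarith) (m0 + 11 ^ (k + 1) + 2) (by omega)).2
      rw [hm0 _ (by omega)] at a
      linarith [(dn_block hc').1 n hn, (up_block hc).2]
  rintro c c' hne ⟨h1, h2⟩
  obtain ⟨i, hi⟩ := Function.ne_iff.1 hne
  have e : ∀ d, blk d (2 * i) = d i := fun d => by
    rw [blk, if_pos (even_two_mul i)]; congr 1; omega
  cases hc : c i <;> cases hc' : c' i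
  · exact hi (hc.trans hc'.symm)
  · exact main c c' (2 * i) ((e c).trans hc) ((e c').trans hc') h2
  · exact main c' c (2 * i) ((e c').trans hc') ((e c).trans hc) h1
  · exact hi (hc.trans hc'.symm)

end Pool.Agent.Emb36
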