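import Mathlib.Topology.Algebra.Module.Cardinality
import Mathlib.Topology.Baire.CompleteMetrizable
import Mathlib.Topology.Baire.Lemmas
import Pool.Agent.Work.MP_1bd46d_gt.CaseA

/-! The case distinction: every non-arc admits a rigid family. -/

namespace Pool.Agent.Emb36

open Set Metric Topology Filter

set_option linter.unusedSectionVars false

variable {X : Type*} [MetricSpace X] [CompactSpace X] [Nonempty X] {g : X → ℝ}

def Big (φ : X → ℝ) (r : ℝ) (Z : Set X) : Prop := ∃ y ∈ Z, ∃ z ∈ Z, r ≤ φ z - φ y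

lemma loc_left (hc : Continuous g) (φ : C(X, ℝ)) {r t : ℝ} (h : ¬ Big φ r (Em g t)) :
    ∃ κ > 0, ∀ y z, t - κ < g y → g y < t → t - κ < g z → g z < t → φ z - φ y < r := by
  have hle : ∀ y ∈ closure {y | g y < t}, g y ≤ t := fun y hy =>
    closure_minimal (s := {y | g y < t}) (t := {y | g y ≤ t}) (fun z (h : g z < t) => h.le)
      (isClosed_le hc continuous_const) hy
  obtain ⟨κ, hκ, hκ'⟩ := margin
    (C := (closure {y | g y < t} ×ˢ closure {y | g y < t}) ∩ {q : X × X | r ≤ φ q.2 - φ q.1})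
    ((isClosed_closure.prod isClosed_closure).inter
      (isClosed_le continuous_const (by fun_prop))).isCompact
    (u := fun q => (t - g q.1) + (t - g q.2)) (by fun_prop) (by
      rintro ⟨y, z⟩ ⟨⟨h1, h2⟩, h3⟩
      have a := hle y h1; have b := hle z h2
      by_contra h4
      simp only at h4
      exact h ⟨y, ⟨by linarith, h1⟩, z, ⟨by linarith, h2⟩, h3⟩)
  refine ⟨κ / 2, half_pos hκ, fun y z a b c d => ?_⟩
  by_contra h4
  have := hκ' (y, z) ⟨⟨subset_closure b, subset_closure d⟩, not_lt.1 h4⟩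
  simp only at this; linarith

lemma Em_neg (g : X → ℝ) (c t : ℝ) : Em (fun x => c - g x) (c - t) = Ep g t := by
  ext x; simp [Em, Ep]

lemma Ep_neg (g : X → ℝ) (c t : ℝ) : Ep (fun x => c - g x) (c - t) = Em g t := by
  ext x; simp [Em, Ep]

lemma loc_right (hc : Continuous g) (φ : C(X, ℝ)) {r t : ℝ} (h : ¬ Big φ r (Ep g t)) :
    ∃ κ > 0, ∀ y z, t < g y → g y < t + κ → t < g z → g z < t + κ → φ z - φ y < r := by
  rw [← Em_neg g 0] at h
  obtain ⟨κ, hκ, h'⟩ := loc_left (g := fun x => 0 - g x) (by fun_prop) φ h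
  exact ⟨κ, hκ, fun y z a b c d => h' y z (by linarith) (by linarith) (by linarith) (by linarith)⟩

lemma loc (hc : Continuous g) (φ : C(X, ℝ)) {r t : ℝ} (h1 : ¬ Big φ r (Em g t))
    (h2 : ¬ Big φ r (Ep g t)) : ∃ κ > 0, ∀ y z, |g y - t| < κ → |g z - t| < κ →
      r ≤ φ z - φ y → min (g y) (g z) ≤ t ∧ t ≤ max (g y) (g z) := by
  obtain ⟨κ1, a1, b1⟩ := loc_left hc φ h1
  obtain ⟨κ2, a2, b2⟩ := loc_right hc φ h2
  refine ⟨min κ1 κ2, lt_min a1 a2, fun y z hy hz hr => ?_⟩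
  have c1 := abs_lt.1 (hy.trans_le (min_le_left _ _))
  have c2 := abs_lt.1 (hy.trans_le (min_le_right _ _))
  have c3 := abs_lt.1 (hz.trans_le (min_le_left _ _))
  have c4 := abs_lt.1 (hz.trans_le (min_le_right _ _))
  constructor
  · by_contra h
    rw [not_le, lt_min_iff] at h
    linarith [b2 y z h.1 (by linarith) h.2 (by linarith)]
  · by_contra h
    rw [not_le, max_lt_iff] at h
    linarith [b1 y z (by linarith) h.1 (by linarith) h.2]

lemma finite_marks (hc : Continuous g) (φ : C(X, ℝ)) {r a b : ℝ}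
    (h : ∀ t ∈ Icc a b, ¬ Big φ r (Em g t) ∧ ¬ Big φ r (Ep g t)) :
    ∃ P : Finset ℝ, ∀ y z, g y ∈ Icc a b → g z ∈ Icc a b → r ≤ φ z - φ y →
      ∃ u ∈ P, min (g y) (g z) ≤ u ∧ u ≤ max (g y) (g z) := by
  classical
  choose! κ hκ hκ' using fun t ht => loc hc φ (h t ht).1 (h t ht).2
  obtain ⟨T, hT, hcov⟩ := isCompact_Icc.elim_nhds_subcover (fun t => ball t (κ t))
    (fun t ht => ball_mem_nhds t (hκ t ht))
  refine ⟨T ∪ T.image fun t => t + κ t, fun y z hy hz hr => ?_⟩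
  have hm : min (g y) (g z) ∈ Icc a b := ⟨le_min hy.1 hz.1, (min_le_left _ _).trans hy.2⟩
  obtain ⟨t, ht, hb⟩ := mem_iUnion₂.1 (hcov hm)
  rw [mem_ball, Real.dist_eq, abs_lt] at hb
  rcases le_or_gt (t + κ t) (max (g y) (g z)) with h1 | h1
  · exact ⟨t + κ t, Finset.mem_union_right _ (Finset.mem_image_of_mem _ ht), by linarith, h1⟩
  · have e1 := min_le_left (g y) (g z); have e2 := min_le_right (g y) (g z)
    have e3 := le_max_left (g y) (g z); have e4 := le_max_right (g y) (g z)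
    exact ⟨t, Finset.mem_union_left _ ht, hκ' t (hT t ht) y z (abs_lt.2 ⟨by linarith, by linarith⟩)
      (abs_lt.2 ⟨by linarith, by linarith⟩) hr⟩

lemma ends (φ0 : C(X, ℝ)) (x y : X) : |φ0 x - φ0 y| ≤ 2 * ‖φ0‖ := by
  have a : |φ0 x| ≤ ‖φ0‖ := φ0.norm_coe_le_norm x
  have b : |φ0 y| ≤ ‖φ0‖ := φ0.norm_coe_le_norm y
  linarith [abs_sub (φ0 x) (φ0 y)]

theorem caseB' (D : Data g) (φ0 : C(X, ℝ)) {t s0 r1 r2 : ℝ} (hs0 : s0 < t) (hr1 : 0 < r1)
    (hr : r1 < r2) (hbig : Big φ0 r2 (Em g t))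
    (hsmall : ∀ u ∈ Ico s0 t, ¬ Big φ0 r1 (Em g u) ∧ ¬ Big φ0 r1 (Ep g u)) : RigidFam X := by
  set δ := min ((r2 - r1) / 4) (r2 / 13) with hδ
  have hδ0 : 0 < δ := lt_min (by linarith) (by linarith)
  have hδ1 : δ ≤ (r2 - r1) / 4 := min_le_left _ _
  have hδ2 : δ ≤ r2 / 13 := min_le_right _ _
  have hn := norm_nonneg φ0
  set C := 12 * δ + 2 * ‖φ0‖ + (δ + 2 * ‖φ0‖) / ((t - s0) / 2) with hC
  have hq : 0 ≤ (δ + 2 * ‖φ0‖) / ((t - s0) / 2) := div_nonneg (by linarith) (by linarith)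
  have hC0 : 0 < C := by linarith
  have hC1 : δ + 2 * ‖φ0‖ ≤ C * ((t - s0) / 2) := by
    rw [← div_le_iff₀ (by linarith)]; linarith
  have hc := D.cont
  let φ : C(X, ℝ) := ⟨fun x => φ0 x + C * g x, by fun_prop⟩
  have hφ : ∀ x, φ x = φ0 x + C * g x := fun x => rfl
  have conv : ∀ {r u : ℝ} {Z : Set X}, (∀ y ∈ Z, g y = u) → (Big φ r Z ↔ Big φ0 r Z) := by
    intro r u Z hZ
    constructor <;> rintro ⟨y, hy, z, hz, h⟩ <;> refine ⟨y, hy, z, hz, ?_⟩
    · rw [hφ, hφ, hZ y hy, hZ z hz] at h; linarith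
    · rw [hφ, hφ, hZ y hy, hZ z hz]; linarith
  obtain ⟨p, hp, q, hq, hpq⟩ := (conv fun y hy => hy.1).2 hbig
  refine caseB D (φ := φ) hδ0 (fun x y hx hy => ?_) hp hq (by linarith) fun s hs => ?_
  · rw [hφ, hφ, hx, hy]; linarith [(abs_le.1 (ends φ0 x y)).2]
  obtain ⟨P, hP⟩ := finite_marks hc φ (r := r1) (a := s0) (b := s) fun u hu =>
    ⟨fun h => (hsmall u ⟨hu.1, hu.2.trans_lt hs⟩).1 ((conv fun y hy => hy.1).1 h),
      fun h => (hsmall u ⟨hu.1, hu.2.trans_lt hs⟩).2 ((conv fun y hy => hy.1).1 h)⟩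
  have stp : ∀ u < t, ∃ u' < t, ∃ y z, u < g y ∧ g y < u' ∧ u < g z ∧ g z < u' ∧
      r2 - 2 * δ ≤ φ z - φ y := by
    intro u hu
    obtain ⟨y, y1, y2, y3⟩ := D.near_Em hu hp (U := {x | φ x < φ p + δ})
      (isOpen_lt φ.continuous continuous_const) (by simpa using hδ0)
    obtain ⟨z, z1, z2, z3⟩ := D.near_Em hu hq (U := {x | φ q - δ < φ x})
      (isOpen_lt continuous_const φ.continuous) (by simpa using hδ0)
    simp only [mem_ofPred_eq] at y1 z1
    have := max_lt y3 z3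
    have := le_max_left (g y) (g z); have := le_max_right (g y) (g z)
    exact ⟨(max (g y) (g z) + t) / 2, by linarith, y, z, y2, by linarith, z2, by linarith,
      by linarith⟩
  choose! nx hnx Y Z hYZ using stp
  let u : ℕ → ℝ := fun i => nx^[i] ((s0 + t) / 2)
  have us : ∀ i, u (i + 1) = nx (u i) := fun i => Function.iterate_succ_apply' _ _ _
  have ut : ∀ i, u i < t := by
    intro i
    induction i with
    | zero => simp only [u, Function.iterate_zero, id]; linarith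
    | succ i ih => rw [us]; exact hnx _ ih
  have um : Monotone u := monotone_nat_of_le_succ fun i => by
    rw [us]; linarith [(hYZ _ (ut i)).1, (hYZ _ (ut i)).2.1]
  refine ⟨u (P.card + 1), ut _, fun η e1 e2 x hx => ?_⟩
  by_contra hcon
  rw [not_le] at hcon
  have back : ∀ w i, i < P.card + 1 → u i < g w → g w < nx (u i) → g (η.symm w) ∈ Icc s0 s := by
    intro w i hi w1 w2
    constructor
    · have a := abs_le.1 (e1 (η.symm w))
      rw [η.apply_symm_apply, hφ, hφ] at a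
      have b := abs_le.1 (ends φ0 w (η.symm w))
      have c : (s0 + t) / 2 ≤ u i := um (Nat.zero_le i)
      by_contra h
      nlinarith [not_le.1 h]
    · have c : nx (u i) ≤ u (P.card + 1) := by rw [← us]; exact um (by omega)
      exact (((e2 _ _).2 (by rw [η.apply_symm_apply]; linarith)).le).trans hx
  have mark : ∀ i, i < P.card + 1 → ∃ a ∈ P,
      min (g (η.symm (Y (u i)))) (g (η.symm (Z (u i)))) ≤ a ∧
        a ≤ max (g (η.symm (Y (u i)))) (g (η.symm (Z (u i)))) := by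
    intro i hi
    obtain ⟨a, b, c, d, e⟩ := hYZ _ (ut i)
    refine hP _ _ (back _ i hi a b) (back _ i hi c d) ?_
    have f1 := abs_le.1 (e1 (η.symm (Y (u i))))
    have f2 := abs_le.1 (e1 (η.symm (Z (u i))))
    rw [η.apply_symm_apply] at f1 f2
    linarith
  choose! a ha ha' using mark
  have hlt : ∀ i j, i < j → j < P.card + 1 → a i < a j := by
    intro i j hij hj
    obtain ⟨-, b, -, d, -⟩ := hYZ _ (ut i)
    obtain ⟨b', -, d', -⟩ := hYZ _ (ut j)
    have c : nx (u i) ≤ u j := by rw [← us]; exact um hij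
    have k : ∀ v w, g v < nx (u i) → u j < g w → g (η.symm v) < g (η.symm w) := fun v w h1 h2 =>
      (e2 _ _).2 (by rw [η.apply_symm_apply, η.apply_symm_apply]; linarith)
    refine (ha' i (by omega)).2.trans_lt (lt_of_lt_of_le ?_ (ha' j hj).1)
    exact max_lt (lt_min (k _ _ b b') (k _ _ b d')) (lt_min (k _ _ d b') (k _ _ d d'))
  have := Finset.card_le_card_of_injOn (s := Finset.range (P.card + 1)) (t := P) a
    (fun i hi => ha i (by simpa using hi)) (fun i hi j hj hij => by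
      rcases lt_trichotomy i j with h | h | h
      · exact absurd hij (hlt i j h (by simpa using hj)).ne
      · exact h
      · exact absurd hij (hlt j i h (by simpa using hi)).ne')
  simp at this

lemma Data.flip (D : Data g) : Data fun x => 1 - g x where
  cont := by have := D.cont; fun_prop
  range := by
    ext u
    constructor
    · rintro ⟨x, rfl⟩; exact ⟨by linarith [(D.mem x).2], by linarith [(D.mem x).1]⟩
    · intro hu
      obtain ⟨x, hx⟩ := D.surj (t := 1 - u) (by linarith [hu.2]) (by linarith [hu.1])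
      exact ⟨x, by simp [hx]⟩
  fib := fun t => by
    have : (fun x => 1 - g x) ⁻¹' {t} = g ⁻¹' {1 - t} := by
      ext x; simp only [mem_preimage, mem_singleton_iff]; constructor <;> intro h <;> linarith
    rw [this]; exact D.fib _
  fine := D.fine
  homeo := fun η x y h => by rw [D.homeo η x y (by linarith)]
  dense := fun x => by simpa [or_comm] using D.dense x

lemma countable_notEm (g : X → ℝ) : {t | ∃ y, g y = t ∧ y ∉ Em g t}.Countable := by
  have hB := TopologicalSpace.isBasis_countableBasis X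
  have : {t | ∃ y, g y = t ∧ y ∉ Em g t} ⊆
      ⋃ U ∈ TopologicalSpace.countableBasis X, {t | (∃ y ∈ U, g y = t) ∧ ∀ z ∈ U, t ≤ g z} := by
    rintro t ⟨y, hy, hy'⟩
    have h1 : y ∈ (closure {y | g y < t})ᶜ := fun h => hy' ⟨hy, h⟩
    obtain ⟨U, hU, hyU, hsub⟩ := hB.exists_subset_of_mem_open h1 isClosed_closure.isOpen_compl
    exact mem_iUnion₂.2 ⟨U, hU, ⟨y, hyU, hy⟩, fun z hz =>
      not_lt.1 fun h => hsub hz (subset_closure h)⟩
  refine Countable.mono this ((TopologicalSpace.countable_countableBasis X).biUnion fun U _ =>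
    Set.Subsingleton.countable ?_)
  rintro a ⟨⟨y, hy, rfl⟩, ha⟩ b ⟨⟨z, hz, rfl⟩, hb⟩
  exact le_antisymm (ha z hz) (hb y hy)

lemma countable_notEp (g : X → ℝ) : {t | ∃ y, g y = t ∧ y ∉ Ep g t}.Countable := by
  have := (countable_notEm fun x => 0 - g x).image fun t => 0 - t
  refine this.mono ?_
  rintro t ⟨y, hy, hy'⟩
  exact ⟨0 - t, ⟨y, by rw [hy], by rwa [Em_neg]⟩, by ring⟩

lemma isolated {S : Set ℝ} (hc : IsClosed S) (hS : S.Countable) (hne : S.Nonempty) :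
    ∃ t ∈ S, ∃ κ > 0, ∀ u ∈ S, |u - t| < κ → u = t := by
  have := hc.completeSpace_coe
  have := hS.to_subtype
  have := hne.to_subtype
  obtain ⟨t, u, hu⟩ := nonempty_interior_of_iUnion_of_closed (f := fun t : S => ({t} : Set S))
    (fun _ => isClosed_singleton) (iUnion_of_singleton _)
  have e : u = t := mem_singleton_iff.1 (interior_subset hu)
  subst e
  obtain ⟨κ, hκ, h⟩ := Metric.mem_nhds_iff.1 (mem_interior_iff_mem_nhds.1 hu)
  exact ⟨u, u.2, κ, hκ, fun v hv hvu => congrArg Subtype.val (h (show (⟨v, hv⟩ : S) ∈ _ from hvu))⟩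

theorem rigidFam (D : Data g) (hni : ¬ Function.Injective g) : RigidFam X := by
  have hc := D.cont
  obtain ⟨p0, q0, h0, hne⟩ := Function.not_injective_iff.1 hni
  let φ0 : C(X, ℝ) := ⟨fun x => dist x p0, by fun_prop⟩
  set N : Set ℝ := {t | ∃ y z, g y = t ∧ g z = t ∧ φ0 y < φ0 z} with hN
  have hN0 : g p0 ∈ N := ⟨p0, q0, rfl, h0.symm, by simpa [φ0] using hne.symm⟩
  by_cases hcount : N.Countable
  swap
  · have : ¬ N ⊆ {t | ∃ y, g y = t ∧ y ∉ Em g t} ∪ {t | ∃ y, g y = t ∧ y ∉ Ep g t} := fun h =>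
      hcount (((countable_notEm g).union (countable_notEp g)).mono h)
    obtain ⟨t, ⟨p, q, hp, hq, hpq⟩, ht⟩ := not_subset.1 this
    simp only [mem_union, mem_ofPred_eq, not_or, not_exists, not_and, not_not] at ht
    set δ := (φ0 q - φ0 p) / 28 with hδ
    refine caseA D (φ := ⟨fun x => φ0 x + (12 * δ + 2 * ‖φ0‖) * g x, by fun_prop⟩) (δ := δ)
      (by linarith) (fun x y hx hy => ?_) (fun y hy => ⟨ht.1 y hy, ht.2 y hy⟩) hp hq ?_
    · simp only [ContinuousMap.coe_mk, hx, hy]; linarith [(abs_le.1 (ends φ0 x y)).2]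
    · simp only [ContinuousMap.coe_mk, hp, hq]; linarith
  have toN : ∀ {r t : ℝ}, 0 < r → Big φ0 r (Em g t) ∨ Big φ0 r (Ep g t) → t ∈ N := by
    rintro r t hr (⟨y, hy, z, hz, h⟩ | ⟨y, hy, z, hz, h⟩) <;>
      exact ⟨y, z, hy.1, hz.1, by linarith⟩
  obtain ⟨r0, hr0, t1, ht1⟩ : ∃ r0 > 0, ∃ t, Big φ0 r0 (Em g t) ∨ Big φ0 r0 (Ep g t) := by
    obtain ⟨y, z, hy, hz, hyz⟩ := hN0
    have cov : ∀ w, g w = g p0 → w ∈ Em g (g p0) ∨ w ∈ Ep g (g p0) := fun w hw =>
      (D.dense w).imp (fun h => ⟨hw, hw ▸ h⟩) fun h => ⟨hw, hw ▸ h⟩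
    have mid : ∀ a b, a ∈ Em g (g p0) → b ∈ Ep g (g p0) →
        ∃ w, w ∈ Em g (g p0) ∧ w ∈ Ep g (g p0) := by
      intro a b ha hb
      obtain ⟨w, -, hw⟩ := isPreconnected_closed_iff.1 (D.fib (g p0)) (Em g (g p0)) (Ep g (g p0))
        (D.isClosed_Em _) ((isClosed_eq hc continuous_const).inter isClosed_closure) cov
        ⟨a, ha.1, ha⟩ ⟨b, hb.1, hb⟩
      exact ⟨w, hw⟩
    rcases cov y hy with a | a <;> rcases cov z hz with b | b
    · exact ⟨_, sub_pos.2 hyz, _, Or.inl ⟨y, a, z, b, le_rfl⟩⟩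
    · obtain ⟨w, w1, w2⟩ := mid y z a b
      rcases lt_or_ge (φ0 y) (φ0 w) with h | h
      · exact ⟨_, sub_pos.2 h, _, Or.inl ⟨y, a, w, w1, le_rfl⟩⟩
      · exact ⟨_, sub_pos.2 (h.trans_lt hyz), _, Or.inr ⟨w, w2, z, b, le_rfl⟩⟩
    · obtain ⟨w, w1, w2⟩ := mid z y b a
      rcases lt_or_ge (φ0 y) (φ0 w) with h | h
      · exact ⟨_, sub_pos.2 h, _, Or.inr ⟨y, a, w, w2, le_rfl⟩⟩
      · exact ⟨_, sub_pos.2 (h.trans_lt hyz), _, Or.inl ⟨w, w1, z, b, le_rfl⟩⟩
    · exact ⟨_, sub_pos.2 hyz, _, Or.inr ⟨y, a, z, b, le_rfl⟩⟩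
  have sub1 : ∀ Z : Set X, {r | Big φ0 r Z ∧ ∀ r' > r, ¬ Big φ0 r' Z}.Countable := fun Z =>
    Set.Subsingleton.countable fun a ha b hb => le_antisymm
      (not_lt.1 fun h => hb.2 a h ha.1) (not_lt.1 fun h => ha.2 b h hb.1)
  have hBd := hcount.biUnion fun t _ => (sub1 (Em g t)).union (sub1 (Ep g t))
  obtain ⟨r, hr, hr1, hr2⟩ := (hBd.dense_compl ℝ).exists_mem_open isOpen_Ioo
    (nonempty_Ioo.2 hr0)
  simp only [mem_compl_iff, mem_iUnion, not_exists, mem_union, mem_ofPred_eq, not_or, not_and,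
    not_forall, not_not, exists_prop] at hr
  set S : Set ℝ := {t | Big φ0 r (Em g t) ∨ Big φ0 r (Ep g t)} with hS
  have hSc : IsClosed S := by
    rw [← isOpen_compl_iff, Metric.isOpen_iff]
    intro t ht
    simp only [hS, mem_compl_iff, mem_ofPred_eq, not_or] at ht
    obtain ⟨κ, hκ, h⟩ := loc hc φ0 ht.1 ht.2
    refine ⟨κ, hκ, fun u hu hu' => ?_⟩
    have e : u = t := by
      rcases hu' with ⟨y, hy, z, hz, h'⟩ | ⟨y, hy, z, hz, h'⟩ <;>
      · have := h y z (by rw [hy.1]; exact hu) (by rw [hz.1]; exact hu) h'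
        rw [hy.1, hz.1, min_self, max_self] at this
        exact le_antisymm this.1 this.2
    rw [e] at hu'
    exact hu'.elim ht.1 ht.2
  obtain ⟨t, ht, κ, hκ, hiso⟩ := isolated hSc (hcount.mono fun t ht => toN hr1 ht)
    ⟨t1, ht1.imp (fun ⟨y, a, z, b, c⟩ => ⟨y, a, z, b, hr2.le.trans c⟩)
      fun ⟨y, a, z, b, c⟩ => ⟨y, a, z, b, hr2.le.trans c⟩⟩
  have out : ∀ u, u ≠ t → |u - t| < κ → ¬ Big φ0 r (Em g u) ∧ ¬ Big φ0 r (Ep g u) := fun u a b =>
    not_or.1 fun h => a (hiso u h b)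
  rcases ht with ht | ht
  · obtain ⟨r2, h1, h2⟩ := (hr t (toN hr1 (Or.inl ht))).1 ht
    exact caseB' D φ0 (s0 := t - κ / 2) (by linarith) hr1 h1 h2 fun u hu =>
      out u hu.2.ne (abs_lt.2 ⟨by linarith [hu.1], by linarith [hu.2]⟩)
  · obtain ⟨r2, h1, h2⟩ := (hr t (toN hr1 (Or.inr ht))).2 ht
    refine caseB' D.flip φ0 (t := 1 - t) (s0 := 1 - t - κ / 2) (by linarith) hr1 h1
      (by rwa [Em_neg]) fun u hu => ?_
    have e : u = 1 - (1 - u) := by ring
    rw [e, Em_neg, Ep_neg]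
    exact (out (1 - u) (by linarith [hu.2] : t < 1 - u).ne'
      (abs_lt.2 ⟨by linarith [hu.2], by linarith [hu.1]⟩)).symm

end Pool.Agent.Emb36
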