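import Mathlib.Topology.ContinuousMap.SecondCountableSpace
import Mathlib.Analysis.Real.Cardinality
import Pool.Agent.Work.MP_1bd46d_gt.Rigid

/-! From a rigid family to continuum many inequivalent embeddings; fine maps from chains. -/

namespace Pool.Agent.Emb36

open Set Metric Topology Filter

set_option linter.unusedSectionVars false

variable {X : Type*} [MetricSpace X] [CompactSpace X] [Nonempty X]

def Eqv (ψ ψ' : C(X, ℂ)) : Prop := ∃ h : ℂ ≃ₜ ℂ, h '' range ψ = range ψ'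

lemma symm_image {h : ℂ ≃ₜ ℂ} {A B : Set ℂ} (e : h '' A = B) : h.symm '' B = A := by
  rw [← e, ← image_comp]; simp

lemma trans_image {h k : ℂ ≃ₜ ℂ} {A B C : Set ℂ} (e : h '' A = B) (e' : k '' B = C) :
    (h.trans k) '' A = C := by
  rw [← e', ← e, ← image_comp]; rfl

theorem many (hX : RigidFam X) : ∃ ψ : ℝ → C(X, ℂ), (∀ r, Function.Injective (ψ r)) ∧
    ∀ r s, r ≠ s → ¬ Eqv (ψ r) (ψ s) := by
  obtain ⟨ψ, R, ε, hε, hinj, hrig⟩ := hX
  have cls : ∀ c0, {c | Eqv (ψ c0) (ψ c)}.Countable := by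
    intro c0
    have : ∀ c, ∃ h : ℂ ≃ₜ ℂ, Eqv (ψ c0) (ψ c) → h '' range (ψ c0) = range (ψ c) := by
      intro c
      by_cases e : Eqv (ψ c0) (ψ c)
      · obtain ⟨h, hh⟩ := e; exact ⟨h, fun _ => hh⟩
      · exact ⟨Homeomorph.refl _, fun h => absurd h e⟩
    choose h hh using this
    have sub : {c | Eqv (ψ c0) (ψ c)} ⊆
        ⋃ m : ℕ, {c | Eqv (ψ c0) (ψ c) ∧ ∀ z, ‖z‖ ≤ R → ‖(h c).symm z‖ ≤ m} := by
      intro c hc
      obtain ⟨M, hM⟩ := (isCompact_closedBall (0 : ℂ) R).exists_bound_of_continuousOn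
        (h c).symm.continuous.continuousOn
      obtain ⟨m, hm⟩ := exists_nat_ge M
      exact mem_iUnion.2 ⟨m, hc, fun z hz => (hM z (by simpa using hz)).trans hm⟩
    refine Countable.mono sub (countable_iUnion fun m => ?_)
    let res : (ℕ → Bool) → C(closedBall (0 : ℂ) m, ℂ) := fun c => ⟨fun z => h c z, by fun_prop⟩
    refine Set.PairwiseDisjoint.countable_of_isOpen (s := fun c => ball (res c) (ε / 2)) ?_
      (fun _ _ => isOpen_ball) (fun _ _ => nonempty_ball.2 (half_pos hε))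
    intro c hc c' hc' hne
    by_contra hd
    obtain ⟨f, f1, f2⟩ := not_disjoint_iff.1 hd
    have hd : dist (res c) (res c') ≤ ε := by
      have := dist_triangle_left (res c) (res c') f
      rw [mem_ball] at f1 f2; linarith
    have key : ∀ a b, a ∈ {c | Eqv (ψ c0) (ψ c) ∧ ∀ z, ‖z‖ ≤ R → ‖(h c).symm z‖ ≤ m} →
        Eqv (ψ c0) (ψ b) → dist (res b) (res a) ≤ ε → Small R ε (ψ a) (ψ b) := by
      intro a b ha hb hab
      refine ⟨(h a).symm.trans (h b), trans_image (symm_image (hh a ha.1)) (hh b hb),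
        fun z hz => ?_⟩
      have := (ContinuousMap.dist_apply_le_dist (f := res b) (g := res a)
        ⟨(h a).symm z, by simpa using ha.2 z hz⟩).trans hab
      simpa [res, dist_eq_norm] using this
    exact hrig c c' hne ⟨key c c' hc hc'.1 (dist_comm (res c) _ ▸ hd), key c' c hc' hc.1 hd⟩
  let s : Setoid (ℕ → Bool) := ⟨fun c c' => Eqv (ψ c) (ψ c'),
    fun c => ⟨Homeomorph.refl _, by simp⟩, fun ⟨h, e⟩ => ⟨h.symm, symm_image e⟩,
    fun ⟨h, e⟩ ⟨k, e'⟩ => ⟨h.trans k, trans_image e e'⟩⟩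
  have h1 := Cardinal.mk_le_mk_mul_of_mk_preimage_le (c := Cardinal.aleph0) (Quotient.mk s)
    (fun b => by
      rw [Cardinal.le_aleph0_iff_set_countable]
      refine (cls b.out).mono fun c hc => ?_
      have : Quotient.mk s b.out = Quotient.mk s c := by rw [Quotient.out_eq]; exact hc.symm
      exact Quotient.exact this)
  have h2 : Cardinal.mk ℝ ≤ Cardinal.mk (Quotient s) := by
    rw [Cardinal.mk_real]
    by_contra h
    have e : Cardinal.mk (ℕ → Bool) = Cardinal.continuum := by simp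
    rw [e] at h1
    exact absurd (Cardinal.mul_lt_of_lt Cardinal.aleph0_le_continuum (not_le.1 h)
      Cardinal.aleph0_lt_continuum) (not_lt.2 h1)
  obtain ⟨e⟩ := (Cardinal.le_def _ _).1 h2
  refine ⟨fun r => ψ (e r).out, fun r => hinj _, fun r r' hne h => hne (e.injective ?_)⟩
  rw [← Quotient.out_eq (e r), ← Quotient.out_eq (e r')]
  exact Quotient.sound (s := s) h

lemma fine_of_chain {ε : ℝ} {n : ℕ} (U : Fin n → Set X) (ho : ∀ i, IsOpen (U i))
    (hc : ⋃ i, U i = univ) (hd : ∀ i, diam (U i) < ε)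
    (hi : ∀ i j, (U i ∩ U j).Nonempty ↔ |(i : ℤ) - j| ≤ 1) :
    ∃ ρ : C(X, ℝ), Fine (2 * ε) ρ := by
  have hdist : ∀ i, ∀ x ∈ U i, ∀ y ∈ U i, dist x y < ε := fun i x hx y hy =>
    (dist_le_diam_of_mem isBounded_of_compactSpace hx hy).trans_lt (hd i)
  have hex : ∀ x, ∃ i, x ∈ U i := fun x => mem_iUnion.1 (hc ▸ mem_univ x)
  by_cases hu : ∃ i, U i = univ
  · obtain ⟨i, hi⟩ := hu
    refine ⟨0, fun x y _ => ?_⟩
    have := hdist i x (hi ▸ mem_univ x) y (hi ▸ mem_univ y)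
    linarith [dist_nonneg (x := x) (y := y)]
  push Not at hu
  let w : Fin n → X → ℝ := fun i x => infDist x (U i)ᶜ
  have wc : ∀ i, Continuous (w i) := fun i => continuous_infDist_pt _
  have w0 : ∀ i x, 0 ≤ w i x := fun i x => infDist_nonneg
  have wp : ∀ i x, x ∈ U i ↔ 0 < w i x := fun i x => by
    rw [← (ho i).isClosed_compl.notMem_iff_infDist_pos (nonempty_compl.2 (hu i)), notMem_compl_iff]
  have sp : ∀ x, 0 < ∑ i, w i x := fun x => by
    obtain ⟨i, hi⟩ := hex x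
    exact Finset.sum_pos' (fun j _ => w0 j x) ⟨i, Finset.mem_univ _, (wp i x).1 hi⟩
  let ρ : C(X, ℝ) := ⟨fun x => (∑ i : Fin n, ((i : ℕ) : ℝ) * w i x) / ∑ i, w i x,
    Continuous.div (by fun_prop) (by fun_prop) fun x => (sp x).ne'⟩
  have bal : ∀ x, ∑ i : Fin n, (((i : ℕ) : ℝ) - ρ x) * w i x = 0 := fun x => by
    simp only [sub_mul, Finset.sum_sub_distrib, ← Finset.mul_sum, ρ, ContinuousMap.coe_mk]
    rw [div_mul_cancel₀ _ (sp x).ne', sub_self]
  have lo : ∀ x, ∃ i, x ∈ U i ∧ ((i : ℕ) : ℝ) ≤ ρ x := fun x => by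
    by_contra h
    push Not at h
    obtain ⟨i, hi⟩ := hex x
    refine (Finset.sum_pos' (fun j _ => ?_) ⟨i, Finset.mem_univ _,
      mul_pos (sub_pos.2 (h i hi)) ((wp i x).1 hi)⟩).ne' (bal x)
    rcases (w0 j x).eq_or_lt with e | e
    · rw [← e, mul_zero]
    · exact (mul_pos (sub_pos.2 (h j ((wp j x).2 e))) e).le
  have up : ∀ x, ∃ i, x ∈ U i ∧ ρ x ≤ ((i : ℕ) : ℝ) := fun x => by
    by_contra h
    push Not at h
    obtain ⟨i, hi⟩ := hex x
    refine (Finset.sum_neg' (fun j _ => ?_) ⟨i, Finset.mem_univ _,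
      mul_neg_of_neg_of_pos (sub_neg.2 (h i hi)) ((wp i x).1 hi)⟩).ne (bal x)
    rcases (w0 j x).eq_or_lt with e | e
    · rw [← e, mul_zero]
    · exact (mul_neg_of_neg_of_pos (sub_neg.2 (h j ((wp j x).2 e))) e).le
  refine ⟨ρ, fun x y hxy => ?_⟩
  obtain ⟨i, i1, i2⟩ := lo x
  obtain ⟨i', i1', i2'⟩ := up x
  obtain ⟨j, j1, j2⟩ := lo y
  obtain ⟨j', j1', j2'⟩ := up y
  have a1 := abs_le.1 ((hi i i').1 ⟨x, i1, i1'⟩)
  have a2 := abs_le.1 ((hi j j').1 ⟨y, j1, j1'⟩)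
  have a3 : (i : ℕ) ≤ j' := by exact_mod_cast (i2.trans (hxy.le.trans j2'))
  have a4 : (j : ℕ) ≤ i' := by exact_mod_cast (j2.trans (hxy.ge.trans i2'))
  have fin : ∀ a b, x ∈ U a → y ∈ U b → |(a : ℤ) - b| ≤ 1 → dist x y < 2 * ε := by
    intro a b ha hb hab
    obtain ⟨z, z1, z2⟩ := (hi a b).2 hab
    linarith [dist_triangle x z y, hdist a x ha z z1, hdist b z z2 y hb]
  by_cases h : |(i : ℤ) - j'| ≤ 1
  · exact fin i j' i1 j1' h
  · refine fin i' j i1' j1 ?_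
    rw [abs_le] at h ⊢
    omega

end Pool.Agent.Emb36
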