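import Pool.Agent.Work.MP_1bd46d_gt.Levels

/-! Levels around a layer approached at every point from both sides. -/

namespace Pool.Agent.Emb36

open Set Metric Topology Filter

set_option linter.unusedSectionVars false

variable {X : Type*} [MetricSpace X] [CompactSpace X] [Nonempty X] {g : X → ℝ}

lemma cut2 (D : Data g) {t : ℝ} (π : C(X, ℝ)) {ya yb : X} (ha : ya ∈ Em g t) (hb : yb ∈ Ep g t)
    {s s' : ℝ} (hs : s < t) (hs' : t < s') {β ε σ : ℝ} (hβ : 0 < β) (hε : 0 < ε) (hσ : 0 < σ) :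
    ∃ (ρ : C(X, ℝ)) (v w lo li hi ho : ℝ), (s < lo ∧ lo ≤ li ∧ li < t ∧ t < hi ∧ hi ≤ ho ∧ ho < s') ∧
      v ≤ w ∧ Fine ε ρ ∧ SOri g σ ρ ∧ (∀ y, ρ y = v → |π y - π ya| < 2 * β) ∧
      (∀ y, ρ y = w → |π y - π yb| < 2 * β) ∧ (∀ x, g x ≤ lo → ρ x < v) ∧
      (∀ x, li ≤ g x → v < ρ x) ∧ (∀ x, g x ≤ hi → ρ x < w) ∧ (∀ x, ho ≤ g x → w < ρ x) := by
  obtain ⟨xa, a1, a2, a3⟩ := D.near_Em hs ha (U := {x | |π x - π ya| < β})
    (isOpen_lt (by fun_prop) continuous_const) (by simpa using hβ)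
  obtain ⟨xb, b1, b2, b3⟩ := D.near_Ep hs' hb (U := {x | |π x - π yb| < β})
    (isOpen_lt (by fun_prop) continuous_const) (by simpa using hβ)
  simp only [mem_ofPred_eq] at a1 b1
  obtain ⟨ε', hε', hε''⟩ := unif π hβ
  obtain ⟨σ2, hσ2, k1, k2, k3, k4, k5⟩ : ∃ σ2 > 0, σ2 ≤ σ ∧ σ2 ≤ (g xa - s) / 2 ∧
      σ2 ≤ (t - g xa) / 2 ∧ σ2 ≤ (g xb - t) / 2 ∧ σ2 ≤ (s' - g xb) / 2 :=
    ⟨min σ (min (min ((g xa - s) / 2) ((t - g xa) / 2)) (min ((g xb - t) / 2) ((s' - g xb) / 2))),
      lt_min hσ (lt_min (lt_min (by linarith) (by linarith)) (lt_min (by linarith) (by linarith))),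
      min_le_left _ _, (min_le_right _ _).trans ((min_le_left _ _).trans (min_le_left _ _)),
      (min_le_right _ _).trans ((min_le_left _ _).trans (min_le_right _ _)),
      (min_le_right _ _).trans ((min_le_right _ _).trans (min_le_left _ _)),
      (min_le_right _ _).trans ((min_le_right _ _).trans (min_le_right _ _))⟩
  obtain ⟨ρ, h1, h2⟩ := D.fine_ori (lt_min hε hε') hσ2
  have hR : Refines β ρ π := fun x y h => hε'' x y ((h1 x y h).trans_le (min_le_right _ _))
  refine ⟨ρ, ρ xa, ρ xb, g xa - σ2, g xa + σ2, g xb - σ2, g xb + σ2,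
    ⟨by linarith, by linarith, by linarith, by linarith, by linarith, by linarith⟩,
    (h2 _ _ (by linarith)).le, h1.mono (min_le_left _ _), fun x y h => h2 x y (by linarith),
    fun y hy => ?_, fun y hy => ?_, fun x hx => h2 _ _ (by linarith), fun x hx => h2 _ _ hx,
    fun x hx => h2 _ _ (by linarith), fun x hx => h2 _ _ hx⟩
  · have := abs_sub_le (π y) (π xa) (π ya); linarith [hR y xa hy]
  · have := abs_sub_le (π y) (π xb) (π yb); linarith [hR y xb hy]

structure StA (X : Type*) [MetricSpace X] where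
  π : C(X, ℝ)
  lo : ℝ
  li : ℝ
  hi : ℝ
  ho : ℝ
  α : ℝ
  β : ℝ
  σ : ℝ

/-- exact position of the layer with respect to the rest -/
structure WA (g : X → ℝ) (t : ℝ) (s : StA X) : Prop where
  lo : s.lo ≤ s.li
  li : s.li < t
  hi : t < s.hi
  ho : s.hi ≤ s.ho
  wid : s.hi - s.li < s.σ
  lt : s.α < s.β
  ea : ∃ y, g y = t ∧ s.π y = s.α
  eb : ∃ y, g y = t ∧ s.π y = s.β
  w1 : ∀ x, g x ≤ s.hi → s.π x ≤ s.β
  w2 : ∀ x, s.li ≤ g x → s.α ≤ s.π x
  w3 : ∀ x, g x ≤ s.lo → s.π x ≤ s.α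
  w4 : ∀ x, s.ho ≤ g x → s.β ≤ s.π x
  ori : Ori g s.σ s.π

lemma rlevel (D : Data g) {t : ℝ} (hcoh : ∀ y, g y = t → y ∈ Em g t ∧ y ∈ Ep g t) {p q : X}
    (hp : g p = t) (hq : g q = t) (hpq : p ≠ q) {ε σ a b : ℝ} (hε : 0 < ε) (hσ : 0 < σ)
    (ha : a < t) (hb : t < b) :
    ∃ s : StA X, WA g t s ∧ s.σ = σ ∧ a < s.lo ∧ s.ho < b ∧ Fine ε s.π := by
  have hc := D.cont
  obtain ⟨π, h1, h2⟩ := D.fine_ori (lt_min hε (dist_pos.2 hpq)) hσ
  obtain ⟨β0, hβ0, hβ0'⟩ := (h1.mono (min_le_left _ _)).margin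
  have hLc : IsCompact {y | g y = t} := (isClosed_eq hc continuous_const).isCompact
  obtain ⟨ye, hye, hmin⟩ := hLc.exists_isMinOn ⟨p, hp⟩ π.continuous.continuousOn
  obtain ⟨ye', hye', hmax⟩ := hLc.exists_isMaxOn ⟨p, hp⟩ π.continuous.continuousOn
  set e := π ye with he
  set e' := π ye' with he'
  have hee : e < e' := by
    have a1 : e ≤ π p := hmin hp
    have a2 : e ≤ π q := hmin hq
    have a3 : π p ≤ e' := hmax hp
    have a4 : π q ≤ e' := hmax hq
    by_contra h
    exact absurd (h1 p q (by linarith)) (not_lt.2 (min_le_right _ _))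
  set β := min (β0 / 7) ((e' - e) / 8) with hβ
  have hβp : 0 < β := lt_min (by positivity) (by linarith)
  have hβ1 : β ≤ β0 / 7 := min_le_left _ _
  have hβ2 : β ≤ (e' - e) / 8 := min_le_right _ _
  obtain ⟨κ, hκ, hκ'⟩ := margin (C := {x | π x ≤ e - β ∨ e' + β ≤ π x})
    ((isClosed_le π.continuous continuous_const).union
      (isClosed_le continuous_const π.continuous)).isCompact (u := fun x => |g x - t|)
    (by fun_prop) (by
      intro x h2
      refine abs_pos.2 (sub_ne_zero.2 fun h3 => ?_)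
      have a1 : e ≤ π x := hmin h3
      have a2 : π x ≤ e' := hmax h3
      rcases h2 with h2 | h2 <;> linarith)
  set r := min κ (σ / 2) with hr
  have hr0 : 0 < r := lt_min hκ (half_pos hσ)
  have hr1 : r ≤ κ := min_le_left _ _
  have hr2 : r ≤ σ / 2 := min_le_right _ _
  obtain ⟨ρ, v, w, lo, li, hi, ho, ⟨o1, o2, o3, o4, o5, o6⟩, hvw, c1, c2, c3, c4, c5, c6, c7, c8⟩ :=
    cut2 D π (hcoh ye hye).1 (hcoh ye' hye').2 (s := max a (t - r)) (s' := min b (t + r))
      (max_lt ha (by linarith)) (lt_min hb (by linarith)) hβp hε hσ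
  have u1 := le_max_left a (t - r); have u2 := le_max_right a (t - r)
  have u3 := min_le_left b (t + r); have u4 := min_le_right b (t + r)
  have hmid : ∀ y, v ≤ ρ y → ρ y ≤ w → e - β < π y ∧ π y < e' + β := by
    intro y y1 y2
    have a1 : lo < g y := by by_contra h; linarith [c5 y (not_lt.1 h)]
    have a2 : g y < ho := by by_contra h; linarith [c8 y (not_lt.1 h)]
    by_contra h
    have := hκ' y (by simp only [mem_ofPred_eq]; by_contra h4; push Not at h4; exact h h4)
    have : |g y - t| < κ := abs_lt.2 ⟨by linarith, by linarith⟩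
    linarith
  obtain ⟨π', b1, b2, b3, b4, b5, b6, b7⟩ := build ρ π (v := v) (w := w) (A := e + 2 * β)
    (B := e' - 2 * β) hvw (by linarith)
    (fun y hy => by linarith [(abs_lt.1 (c3 y hy)).2])
    (fun y hy => by linarith [(abs_lt.1 (c4 y hy)).1])
  have hL : ∀ y, g y = t → v ≤ ρ y ∧ ρ y ≤ w := fun y hy =>
    ⟨(c6 y (by linarith)).le, (c7 y (by linarith)).le⟩
  refine ⟨⟨π', lo, li, hi, ho, e + 2 * β, e' - 2 * β, σ⟩, ⟨o2, o3, o4, o5, by simp only; linarith,
    by simp only; linarith, ⟨ye, hye, ?_⟩, ⟨ye', hye', ?_⟩, fun x hx => b4 x (c7 x hx).le,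
    fun x hx => b3 x (c6 x hx).le, fun x hx => b2 x (c5 x hx).le, fun x hx => b5 x (c8 x hx).le,
    fun x y hxy => ?_⟩, rfl, by simp only; linarith, by simp only; linarith, fun x y hxy => ?_⟩
  · simp only
    rw [b1 ye (hL ye hye).1 (hL ye hye).2]
    exact max_eq_left ((min_le_left _ _).trans (by linarith))
  · simp only
    rw [b1 ye' (hL ye' hye').1 (hL ye' hye').2, min_eq_right (by linarith),
      max_eq_right (by linarith)]
  · rcases b7 x y (c2 x y hxy).le with h | ⟨m1, m2⟩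
    · exact h
    · simp only
      rw [b1 x m1.1 m1.2, b1 y m2.1 m2.2]
      exact clamp_mono (h2 x y hxy).le
  · rcases b6 x y hxy with h | ⟨m1, m2⟩
    · exact c1 x y h
    · simp only at hxy
      rw [b1 x m1.1 m1.2, b1 y m2.1 m2.2] at hxy
      have n1 := hmid x m1.1 m1.2
      have n2 := hmid y m2.1 m2.2
      have a1 := abs_le.1 (clamp_near (A := e + 2 * β) (B := e' - 2 * β) (u := π x) (k := 3 * β)
        (by linarith) (by linarith) (by linarith) (by linarith))
      have a2 := abs_le.1 (clamp_near (A := e + 2 * β) (B := e' - 2 * β) (u := π y) (k := 3 * β)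
        (by linarith) (by linarith) (by linarith) (by linarith))
      exact hβ0' x y (abs_lt.2 ⟨by linarith, by linarith⟩)

lemma vlevel (D : Data g) {t : ℝ} (hcoh : ∀ y, g y = t → y ∈ Em g t ∧ y ∈ Ep g t) {s : StA X}
    (W : WA g t s) (hσ : 0 < s.σ) {γ r : ℝ} (hγ : 0 < γ) (hr : 0 < r) :
    ∃ s' : StA X, WA g t s' ∧ s'.σ = s.σ ∧ s.li < s'.lo ∧ s'.ho < s.hi ∧ t - r < s'.lo ∧
      s'.ho < t + r ∧ Refines γ s'.π s.π ∧
      (∀ p x, g p ≤ s.lo ∨ s.ho ≤ g p → rev s.π s'.π p x = 0) ∧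
      ∀ y z, s'.li ≤ g y → g y ≤ s'.hi → s'.li ≤ g z → g z ≤ s'.hi → s.π y ≤ s.π z →
        s'.π z ≤ s'.π y := by
  obtain ⟨π, lo0, li0, hi0, ho0, α, β, σ⟩ := s
  obtain ⟨w_lo, w_li, w_hi, w_ho, wid, hlt, ⟨yα, yα1, yα2⟩, ⟨yβ, yβ1, yβ2⟩, w1, w2, w3, w4, ori⟩ := W
  simp only at *
  set k := min (γ / 5) ((β - α) / 8) with hk
  have hk0 : 0 < k := lt_min (by positivity) (by linarith)
  have hk1 : k ≤ γ / 5 := min_le_left _ _
  have hk2 : k ≤ (β - α) / 8 := min_le_right _ _
  obtain ⟨ρ, v, w, lo, li, hi, ho, ⟨o1, o2, o3, o4, o5, o6⟩, hvw, -, c2, c3, c4, c5, c6, c7, c8⟩ :=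
    cut2 D π (hcoh yβ yβ1).1 (hcoh yα yα1).2 (s := max li0 (t - r)) (s' := min hi0 (t + r))
      (max_lt w_li (by linarith)) (lt_min w_hi (by linarith)) hk0 one_pos hσ
  have u1 := le_max_left li0 (t - r); have u2 := le_max_right li0 (t - r)
  have u3 := min_le_left hi0 (t + r); have u4 := min_le_right hi0 (t + r)
  set A := α + 2 * k with hA
  set B := β - 2 * k with hB
  have hAB : A < B := by linarith
  obtain ⟨π', h1, h2, h3⟩ := glue3 ρ ⟨fun y => min (π y) B, by fun_prop⟩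
    ⟨fun y => 2 * B - max A (min (π y) B), by fun_prop⟩
    ⟨fun y => 2 * B - 2 * A + max (π y) A, by fun_prop⟩ hvw
    (fun y hy => by
      simp only [ContinuousMap.coe_mk]
      rw [min_eq_right (by linarith [(abs_lt.1 (c3 y hy)).1]), max_eq_right hAB.le]; ring)
    (fun y hy => by
      have : π y ≤ A := by linarith [(abs_lt.1 (c4 y hy)).2]
      simp only [ContinuousMap.coe_mk]
      rw [max_eq_left ((min_le_left _ _).trans this), max_eq_right this]; ring)
  simp only [ContinuousMap.coe_mk] at h1 h2 h3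
  have g1 : ∀ y, v ≤ ρ y → lo < g y := fun y hy => by
    by_contra h; linarith [c5 y (not_lt.1 h)]
  have g2 : ∀ y, ρ y ≤ w → g y < ho := fun y hy => by
    by_contra h; linarith [c8 y (not_lt.1 h)]
  have p1 : ∀ y, v ≤ ρ y → α ≤ π y := fun y hy => w2 y (by linarith [g1 y hy])
  have p2 : ∀ y, ρ y ≤ w → π y ≤ β := fun y hy => w1 y (by linarith [g2 y hy])
  have q1 : ∀ y, ρ y ≤ v → π' y ≤ B ∧ π' y ≤ π y ∧ π y ≤ π' y + 2 * k := fun y hy => by
    have := p2 y (hy.trans hvw)
    rw [h1 y hy]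
    exact ⟨min_le_right _ _, min_le_left _ _, by
      rcases le_total (π y) B with h | h
      · rw [min_eq_left h]; linarith
      · rw [min_eq_right h]; linarith⟩
  have q2 : ∀ y, v ≤ ρ y → ρ y ≤ w → B ≤ π' y ∧ π' y ≤ 2 * B - A ∧
      2 * B - π' y ≤ π y + 2 * k ∧ π y ≤ 2 * B - π' y + 2 * k := fun y hy hy' => by
    have a := abs_le.1 (clamp_near (A := A) (B := B) (u := π y) (k := 2 * k) hAB.le (by linarith)
      (by linarith [p1 y hy]) (by linarith [p2 y hy']))
    have b1 : A ≤ max A (min (π y) B) := le_max_left _ _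
    have b2 : max A (min (π y) B) ≤ B := max_le hAB.le (min_le_right _ _)
    rw [h2 y hy hy']
    exact ⟨by linarith, by linarith, by linarith, by linarith⟩
  have q3 : ∀ y, w ≤ ρ y → 2 * B - A ≤ π' y ∧ π y ≤ π' y - 2 * B + 2 * A ∧
      π' y - 2 * B + 2 * A ≤ π y + 2 * k := fun y hy => by
    have := p1 y (hvw.trans hy)
    rw [h3 y hy]
    have b1 := le_max_left (π y) A; have b2 := le_max_right (π y) A
    exact ⟨by linarith, by linarith, by
      rcases le_total (π y) A with h | h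
      · rw [max_eq_right h]; linarith
      · rw [max_eq_left h]; linarith⟩
  have tri : ∀ y, ρ y ≤ v ∨ (v ≤ ρ y ∧ ρ y ≤ w) ∨ w ≤ ρ y := fun y => by
    rcases le_total (ρ y) v with h | h
    · exact Or.inl h
    · rcases le_total (ρ y) w with h' | h'
      · exact Or.inr (Or.inl ⟨h, h'⟩)
      · exact Or.inr (Or.inr h')
  have r1 : ∀ y, v ≤ ρ y → B ≤ π' y := fun y hy => by
    rcases le_total (ρ y) w with h | h
    · exact (q2 y hy h).1
    · linarith [(q3 y h).1]
  have r2 : ∀ y, ρ y ≤ w → π' y ≤ 2 * B - A := fun y hy => by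
    rcases le_total (ρ y) v with h | h
    · linarith [(q1 y h).1]
    · exact (q2 y h hy).2.1
  have m1 : ∀ x y, ρ x ≤ v → ρ y ≤ v → π x ≤ π y → π' x ≤ π' y := fun x y a b c => by
    rw [h1 x a, h1 y b]; exact min_le_min c le_rfl
  have m3 : ∀ x y, w ≤ ρ x → w ≤ ρ y → π x ≤ π y → π' x ≤ π' y := fun x y a b c => by
    rw [h3 x a, h3 y b]; linarith [max_le_max c (le_refl A)]
  have hL : ∀ y, li ≤ g y → g y ≤ hi → v ≤ ρ y ∧ ρ y ≤ w := fun y a b =>
    ⟨(c6 y a).le, (c7 y b).le⟩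
  refine ⟨⟨π', lo, li, hi, ho, B, 2 * B - A, σ⟩, ⟨o2, o3, o4, o5, by simp only; linarith,
    by simp only; linarith, ⟨yβ, yβ1, ?_⟩, ⟨yα, yα1, ?_⟩, fun x hx => r2 x (c7 x hx).le,
    fun x hx => r1 x (c6 x hx).le, fun x hx => (q1 x (c5 x hx).le).1,
    fun x hx => (q3 x (c8 x hx).le).1, fun x y hxy => ?_⟩, rfl, by simp only; linarith,
    by simp only; linarith, by simp only; linarith, by simp only; linarith, fun x y hxy => ?_,
    fun p x hp => ?_, fun y z a b c d e => ?_⟩
  · have := hL yβ (by linarith) (by linarith)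
    simp only
    rw [h2 yβ this.1 this.2, min_eq_right (by linarith), max_eq_right hAB.le]; ring
  · have := hL yα (by linarith) (by linarith)
    simp only
    rw [h2 yα this.1 this.2, max_eq_left ((min_le_left _ _).trans (by linarith))]
  · simp only at hxy ⊢
    have e1 := c2 x y hxy
    have e2 := ori x y hxy
    rcases le_total (ρ x) v with a | a
    · rcases le_total (ρ y) v with b | b
      · exact m1 x y a b e2
      · exact (q1 x a).1.trans (r1 y b)
    · rcases le_total w (ρ y) with b | b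
      · rcases le_total (ρ x) w with c | c
        · exact (r2 x c).trans (q3 y b).1
        · exact m3 x y c b e2
      · linarith [g1 x a, g2 y b]
  · simp only at hxy
    rw [abs_lt]
    rcases tri x with a | a | a <;> rcases tri y with b | b | b
    · have := q1 x a; have := q1 y b; constructor <;> linarith
    · have := q1 x a; have := q2 y b.1 b.2; constructor <;> linarith
    · have := q1 x a; have := q3 y b; constructor <;> linarith
    · have := q2 x a.1 a.2; have := q1 y b; constructor <;> linarith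
    · have := q2 x a.1 a.2; have := q2 y b.1 b.2; constructor <;> linarith
    · have := q2 x a.1 a.2; have := q3 y b; constructor <;> linarith
    · have := q3 x a; have := q1 y b; constructor <;> linarith
    · have := q3 x a; have := q2 y b.1 b.2; constructor <;> linarith
    · have := q3 x a; have := q3 y b; constructor <;> linarith
  · simp only
    rcases hp with hp | hp
    · have a : ρ p ≤ v := (c5 p (by linarith)).le
      rcases le_total (ρ x) v with b | b
      · exact rev_of_mono (m1 p x a b) (m1 x p b a)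
      · exact rev_zero_ge ((w3 p hp).trans (p1 x b)) ((q1 p a).1.trans (r1 x b))
    · have a : w ≤ ρ p := (c8 p (by linarith)).le
      rcases le_total w (ρ x) with b | b
      · exact rev_of_mono (m3 p x a b) (m3 x p b a)
      · exact rev_zero_le ((p2 x b).trans (w4 p hp)) ((r2 x b).trans (q3 p a).1)
  · simp only at a b c d ⊢
    have a' := hL y a b; have b' := hL z c d
    rw [h2 y a'.1 a'.2, h2 z b'.1 b'.2]
    linarith [clamp_mono (A := A) (B := B) e]

end Pool.Agent.Emb36
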