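import Mathlib.Topology.MetricSpace.HausdorffDistance
import Mathlib.Topology.Connected.Clopen
import Mathlib.Topology.ContinuousMap.Compact
import Mathlib.Topology.Order.IntermediateValue
import Mathlib.Topology.Order.Compact
import Mathlib.Topology.MetricSpace.Lipschitz
import Mathlib.Topology.UniformSpace.HeineCantor

/-! Basic tools: fine maps, oriented maps, approximate factorisation. -/

namespace Pool.Agent.Emb36

open Set Metric Topology Filter

set_option linter.unusedSectionVars false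

variable {X : Type*}

lemma margin {Y : Type*} [TopologicalSpace Y] {C : Set Y} (hC : IsCompact C) {u : Y → ℝ}
    (hu : ContinuousOn u C) (hpos : ∀ y ∈ C, 0 < u y) : ∃ κ > 0, ∀ y ∈ C, κ ≤ u y :=
  hC.exists_forall_le' hu hpos

/-- point preimages have small diameter -/
def Fine [MetricSpace X] (ε : ℝ) (ρ : X → ℝ) : Prop := ∀ x y, ρ x = ρ y → dist x y < ε

def Refines (γ : ℝ) (ρ π : X → ℝ) : Prop := ∀ x y, ρ x = ρ y → |π x - π y| < γ

def Ori (g : X → ℝ) (σ : ℝ) (ρ : X → ℝ) : Prop := ∀ x y, g x + σ ≤ g y → ρ x ≤ ρ y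

def SOri (g : X → ℝ) (σ : ℝ) (ρ : X → ℝ) : Prop := ∀ x y, g x + σ ≤ g y → ρ x < ρ y

lemma Ori.mono {g ρ : X → ℝ} {σ σ' : ℝ} (h : Ori g σ ρ) (hσ : σ ≤ σ') : Ori g σ' ρ :=
  fun x y hxy => h x y (by linarith)

lemma SOri.ori {g ρ : X → ℝ} {σ : ℝ} (h : SOri g σ ρ) : Ori g σ ρ :=
  fun x y hxy => (h x y hxy).le

lemma Refines.mono {ρ π : X → ℝ} {γ γ' : ℝ} (h : Refines γ ρ π) (hγ : γ ≤ γ') :
    Refines γ' ρ π := fun x y hxy => (h x y hxy).trans_le hγ

lemma Fine.mono [MetricSpace X] {ρ : X → ℝ} {ε ε' : ℝ} (h : Fine ε ρ) (hγ : ε ≤ ε') :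
    Fine ε' ρ := fun x y hxy => (h x y hxy).trans_le hγ

/-- The standing hypotheses on the continuum and its layer map. -/
structure Data [MetricSpace X] (g : X → ℝ) : Prop where
  cont : Continuous g
  range : range g = Icc 0 1
  fib : ∀ t, IsPreconnected (g ⁻¹' {t})
  fine : ∀ ε > 0, ∃ ρ : C(X, ℝ), Fine ε ρ
  homeo : ∀ η : X ≃ₜ X, ∀ x y, g x = g y → g (η x) = g (η y)
  dense : ∀ x, x ∈ closure {y | g y < g x} ∨ x ∈ closure {y | g x < g y}

lemma preconnected_preimage_closed [TopologicalSpace X] [CompactSpace X] {Y : Type*}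
    [TopologicalSpace Y] [T2Space Y] {f : X → Y} (hf : Continuous f)
    (hfib : ∀ t, IsPreconnected (f ⁻¹' {t})) {T : Set Y} (hT : IsClosed T)
    (hTc : IsPreconnected T) (hr : T ⊆ range f) : IsPreconnected (f ⁻¹' T) := by
  have hTc' : IsClosed (f ⁻¹' T) := hT.preimage hf
  rw [isPreconnected_iff_subset_of_fully_disjoint_closed hTc']
  intro u v hu hv huv hd
  have hu' : IsClosed (f '' (u ∩ f ⁻¹' T)) := ((hu.inter hTc').isCompact.image hf).isClosed
  have hv' : IsClosed (f '' (v ∩ f ⁻¹' T)) := ((hv.inter hTc').isCompact.image hf).isClosed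
  have key : ∀ a ∈ u, ∀ b ∈ v, f a ∈ T → f a = f b → False := by
    intro a ha b hb haT hab
    have h1 := (isPreconnected_iff_subset_of_fully_disjoint_closed
      ((isClosed_singleton (x := f a)).preimage hf)).1 (hfib (f a)) u v hu hv
      (fun z hz => huv (by simp only [mem_preimage, mem_singleton_iff] at hz ⊢; rw [hz]; exact haT)) hd
    rcases h1 with h1 | h1
    · exact Set.disjoint_left.1 hd (h1 (show b ∈ f ⁻¹' {f a} from hab.symm)) hb
    · exact Set.disjoint_left.1 hd ha (h1 (show a ∈ f ⁻¹' {f a} from rfl))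
  have hcov : T ⊆ f '' (u ∩ f ⁻¹' T) ∪ f '' (v ∩ f ⁻¹' T) := by
    intro t ht
    obtain ⟨x, rfl⟩ := hr ht
    rcases huv (show x ∈ f ⁻¹' T from ht) with h | h
    · exact Or.inl ⟨x, ⟨h, ht⟩, rfl⟩
    · exact Or.inr ⟨x, ⟨h, ht⟩, rfl⟩
  have hdis : Disjoint (f '' (u ∩ f ⁻¹' T)) (f '' (v ∩ f ⁻¹' T)) := by
    rw [Set.disjoint_left]
    rintro _ ⟨a, ⟨ha, haT⟩, rfl⟩ ⟨b, ⟨hb, _⟩, hab⟩
    exact key a ha b hb haT hab.symm
  rcases (isPreconnected_iff_subset_of_fully_disjoint_closed hT).1 hTc _ _ hu' hv' hcov hdis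
    with h | h
  · left
    intro x hx
    rcases huv hx with h1 | h1
    · exact h1
    · obtain ⟨a, ⟨ha, haT⟩, hax⟩ := h hx
      exact (key a ha x h1 haT hax).elim
  · right
    intro x hx
    rcases huv hx with h1 | h1
    · obtain ⟨b, ⟨hb, _⟩, hbx⟩ := h hx
      exact (key x h1 b hb hx hbx.symm).elim
    · exact h1

section
variable [MetricSpace X] [CompactSpace X] {g : X → ℝ}

lemma Data.mem (D : Data g) (x : X) : g x ∈ Icc (0:ℝ) 1 := D.range ▸ mem_range_self x

lemma Data.surj (D : Data g) {t : ℝ} (h0 : 0 ≤ t) (h1 : t ≤ 1) : ∃ x, g x = t := by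
  have : t ∈ Set.range g := D.range ▸ ⟨h0, h1⟩
  exact this

lemma Data.preconn (D : Data g) {T : Set ℝ} (hT : T.OrdConnected) :
    IsPreconnected (g ⁻¹' T) := by
  apply isPreconnected_of_forall_pair
  intro x hx y hy
  refine ⟨g ⁻¹' uIcc (g x) (g y), preimage_mono (hT.uIcc_subset hx hy), left_mem_uIcc,
    right_mem_uIcc, ?_⟩
  refine preconnected_preimage_closed D.cont D.fib isClosed_Icc isPreconnected_uIcc ?_
  rw [D.range]
  exact ordConnected_Icc.uIcc_subset (D.mem x) (D.mem y)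

/-- pairs in increasing position with a gap -/
def Dg (g : X → ℝ) (σ : ℝ) : Set (X × X) := {q | g q.1 + σ ≤ g q.2}

lemma Data.isClosed_Dg (D : Data g) (σ : ℝ) : IsClosed (Dg g σ) :=
  isClosed_le ((D.cont.comp continuous_fst).add continuous_const) (D.cont.comp continuous_snd)

lemma Data.preconn_Dg (D : Data g) (σ : ℝ) : IsPreconnected (Dg g σ) := by
  obtain ⟨x0, hx0⟩ := D.surj le_rfl zero_le_one
  obtain ⟨y0, hy0⟩ := D.surj zero_le_one le_rfl
  rcases (Dg g σ).eq_empty_or_nonempty with h | ⟨⟨a, b⟩, hab⟩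
  · rw [h]; exact isPreconnected_empty
  have hσ : σ ≤ 1 := by
    have := (D.mem a).1; have := (D.mem b).2
    simp only [Dg, mem_ofPred_eq] at hab; linarith
  apply isPreconnected_of_forall (x0, y0)
  rintro ⟨x, y⟩ hxy
  simp only [Dg, mem_ofPred_eq] at hxy
  refine ⟨(g ⁻¹' Iic (g y - σ)) ×ˢ {y} ∪ {x0} ×ˢ (g ⁻¹' Ici σ), ?_, ?_, ?_, ?_⟩
  · rintro ⟨u, v⟩ (⟨h1, h2⟩ | ⟨h1, h2⟩)
    · simp only [mem_preimage, mem_Iic, mem_singleton_iff] at h1 h2
      simp only [Dg, mem_ofPred_eq, h2]; linarith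
    · simp only [mem_preimage, mem_Ici, mem_singleton_iff] at h1 h2
      simp only [Dg, mem_ofPred_eq, h1, hx0]; linarith
  · right; exact ⟨rfl, by simp only [mem_preimage, mem_Ici, hy0]; exact hσ⟩
  · left; exact ⟨by simp only [mem_preimage, mem_Iic]; linarith, rfl⟩
  · have h0 := (D.mem x).1
    refine IsPreconnected.union (x0, y) ⟨?_, rfl⟩ ⟨rfl, ?_⟩
      ((D.preconn ordConnected_Iic).prod isPreconnected_singleton)
      (isPreconnected_singleton.prod (D.preconn ordConnected_Ici))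
    · simp only [mem_preimage, mem_Iic, hx0]; linarith
    · simp only [mem_preimage, mem_Ici]; linarith

lemma sign_const {Y : Type*} [TopologicalSpace Y] {C : Set Y} (hC : IsPreconnected C)
    {u : Y → ℝ} (hu : ContinuousOn u C) (hne : ∀ y ∈ C, u y ≠ 0) :
    (∀ y ∈ C, 0 < u y) ∨ (∀ y ∈ C, u y < 0) := by
  by_contra h
  push Not at h
  obtain ⟨⟨a, ha, ha'⟩, b, hb, hb'⟩ := h
  obtain ⟨z, hz, hz'⟩ := hC.intermediate_value ha hb hu ⟨ha', hb'⟩
  exact hne z hz hz'

/-- fine and oriented maps exist -/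
lemma Data.fine_ori (D : Data g) {ε σ : ℝ} (hε : 0 < ε) (hσ : 0 < σ) :
    ∃ ρ : C(X, ℝ), Fine ε ρ ∧ SOri g σ ρ := by
  obtain ⟨κ, hκ, hκ'⟩ := margin (D.isClosed_Dg σ).isCompact
    (u := fun q => dist q.1 q.2) (continuous_fst.dist continuous_snd).continuousOn (by
      rintro ⟨x, y⟩ h
      simp only [Dg, mem_ofPred_eq] at h
      refine dist_pos.2 fun h0 => ?_
      have h1 : x = y := h0
      subst h1; linarith)
  obtain ⟨ρ, hρ⟩ := D.fine (min ε κ) (lt_min hε hκ)
  rcases sign_const (D.preconn_Dg σ) (u := fun q => ρ q.2 - ρ q.1) (by fun_prop) (by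
      rintro ⟨x, y⟩ h h0
      have h1 := hρ x y (by simp only at h0; linarith)
      have h2 := hκ' _ h
      simp only at h2
      linarith [min_le_right ε κ]) with h | h
  · exact ⟨ρ, hρ.mono (min_le_left _ _), fun x y hxy => by have := h (x, y) hxy; simpa using this⟩
  · refine ⟨-ρ, fun x y hxy => (hρ.mono (min_le_left _ _)) x y (by simpa using hxy),
      fun x y hxy => ?_⟩
    have := h (x, y) hxy
    simp only [ContinuousMap.neg_apply] at this ⊢; linarith

lemma unif (π : C(X, ℝ)) {β : ℝ} (hβ : 0 < β) :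
    ∃ ε > 0, ∀ x y, dist x y < ε → |π x - π y| < β := by
  obtain ⟨ε, hε, h⟩ := Metric.uniformContinuous_iff.1
    (CompactSpace.uniformContinuous_of_continuous π.continuous) β hβ
  exact ⟨ε, hε, fun x y hxy => by simpa [Real.dist_eq] using h hxy⟩

lemma Fine.margin {ρ : C(X, ℝ)} {ε : ℝ} (h : Fine ε ρ) :
    ∃ β > 0, ∀ x y, |ρ x - ρ y| < β → dist x y < ε := by
  obtain ⟨κ, hκ, hκ'⟩ := Emb36.margin (C := {q : X × X | ε ≤ dist q.1 q.2})
    (isClosed_le continuous_const (continuous_fst.dist continuous_snd)).isCompact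
    (u := fun q => |ρ q.1 - ρ q.2|) (by fun_prop) (by
      rintro ⟨x, y⟩ hq
      refine abs_pos.2 (sub_ne_zero.2 fun h0 => ?_)
      exact absurd (h x y h0) (not_lt.2 hq))
  refine ⟨κ, hκ, fun x y hxy => ?_⟩
  by_contra hc
  exact absurd (hκ' (x, y) (not_lt.1 hc)) (not_le.2 hxy)

end

/-- approximate factorisation through a refining map -/
lemma approx [TopologicalSpace X] [CompactSpace X] [Nonempty X] (ρ π : C(X, ℝ)) {γ : ℝ}
    (hγ : 0 < γ) (h : Refines γ ρ π) :
    ∃ f : ℝ → ℝ, Continuous f ∧ ∀ x, |f (ρ x) - π x| ≤ γ := by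
  obtain ⟨β, hβ, hβ'⟩ := margin (C := {q : X × X | γ ≤ |π q.1 - π q.2|})
    (isClosed_le continuous_const (by fun_prop)).isCompact
    (u := fun q => |ρ q.1 - ρ q.2|) (by fun_prop) (by
      rintro ⟨x, y⟩ hq
      refine abs_pos.2 (sub_ne_zero.2 fun h0 => ?_)
      exact absurd (h x y h0) (not_lt.2 hq))
  set Λ : ℝ := 2 * ‖π‖ / β with hΛ
  have hΛ0 : 0 ≤ Λ := by positivity
  have hb : ∀ x, |π x| ≤ ‖π‖ := fun x => π.norm_coe_le_norm x
  have hbdd : ∀ u, BddBelow (range fun x => π x + Λ * |ρ x - u|) := by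
    intro u
    refine ⟨-‖π‖, ?_⟩
    rintro _ ⟨x, rfl⟩
    have := (abs_le.1 (hb x)).1
    have : 0 ≤ Λ * |ρ x - u| := by positivity
    simp only; linarith
  refine ⟨fun u => ⨅ x, (π x + Λ * |ρ x - u|), ?_, fun y => ?_⟩
  · refine (LipschitzWith.of_le_add_mul' Λ fun u v => ?_).continuous
    rw [← sub_le_iff_le_add]
    refine le_ciInf fun x => ?_
    have h1 := ciInf_le (hbdd u) x
    have h2 : |ρ x - u| ≤ |ρ x - v| + dist u v := by
      rw [Real.dist_eq, abs_sub_comm u v]; exact abs_sub_le _ _ _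
    have h3 := mul_le_mul_of_nonneg_left h2 hΛ0
    linarith
  · rw [abs_le]
    constructor
    · rw [le_sub_iff_add_le]
      refine le_ciInf fun x => ?_
      by_cases hx : γ ≤ |π x - π y|
      · have h1 := hβ' (x, y) hx
        have h2 : Λ * β ≤ Λ * |ρ x - ρ y| := mul_le_mul_of_nonneg_left h1 hΛ0
        have h3 : Λ * β = 2 * ‖π‖ := by rw [hΛ]; field_simp
        have := abs_le.1 (hb x); have := abs_le.1 (hb y)
        linarith
      · have := abs_lt.1 (not_le.1 hx)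
        have : 0 ≤ Λ * |ρ x - ρ y| := by positivity
        linarith
    · have h1 := ciInf_le (hbdd (ρ y)) y
      simp only [sub_self, abs_zero, mul_zero, add_zero] at h1
      linarith

/-- gluing three continuous pieces along two level sets -/
lemma glue3 [TopologicalSpace X] (ρ m1 m2 m3 : C(X, ℝ)) {v w : ℝ} (hvw : v ≤ w)
    (h12 : ∀ x, ρ x = v → m1 x = m2 x) (h23 : ∀ x, ρ x = w → m2 x = m3 x) :
    ∃ π : C(X, ℝ), (∀ x, ρ x ≤ v → π x = m1 x) ∧ (∀ x, v ≤ ρ x → ρ x ≤ w → π x = m2 x) ∧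
      (∀ x, w ≤ ρ x → π x = m3 x) := by
  classical
  have c1 : Continuous fun x => if ρ x ≤ w then m2 x else m3 x :=
    Continuous.if_le m2.continuous m3.continuous ρ.continuous continuous_const h23
  have c2 : Continuous fun x => if ρ x ≤ v then m1 x else (if ρ x ≤ w then m2 x else m3 x) :=
    Continuous.if_le m1.continuous c1 ρ.continuous continuous_const (fun x hx => by
      rw [if_pos (hx.le.trans hvw)]; exact h12 x hx)
  refine ⟨⟨_, c2⟩, fun x hx => if_pos hx, fun x h1 h2 => ?_, fun x hx => ?_⟩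
  · simp only [ContinuousMap.coe_mk]
    split_ifs with h
    · exact h12 x (le_antisymm h h1)
    · rfl
  · simp only [ContinuousMap.coe_mk]
    split_ifs with h h'
    · rw [h12 x (le_antisymm h (hvw.trans hx)), h23 x (le_antisymm (h.trans hvw) hx)]
    · exact h23 x (le_antisymm h' hx)
    · rfl

end Pool.Agent.Emb36
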