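import Pool.Agent.Work.MP_1bd46d_gt.Levels

/-! The coding level used when small homeomorphisms have bounded displacement. -/

namespace Pool.Agent.Emb36

open Set Metric Topology Filter

set_option linter.unusedSectionVars false

variable {X : Type*} [MetricSpace X] [CompactSpace X] [Nonempty X] {g : X → ℝ}

/-- the tail of the lower part together with its limit set -/
def Tl (g : X → ℝ) (t s : ℝ) : Set X := {y | (s ≤ g y ∧ g y < t) ∨ y ∈ Em g t}

lemma exit_time (hX : IsPreconnected (univ : Set X)) (π ρ : C(X, ℝ)) {e e' β e2 : ℝ} (hβ : 0 < β)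
    (hρ : Refines β ρ π) {yT : X} (hyT : ρ yT = e2) (h1 : e - β ≤ π yT) (h2 : π yT ≤ e' + β) :
    ∃ w, e2 ≤ w ∧ (∀ y, e2 ≤ ρ y → ρ y ≤ w → e - 4 * β ≤ π y ∧ π y ≤ e' + 4 * β) ∧
      ((∀ y, ρ y = w → e' + 2 * β ≤ π y) ∨
        ∃ y0, ρ y0 = w ∧ π y0 < e ∧ ∀ y, ρ y = w → π y ≤ e - 2 * β) := by
  set Z : Set X := {y | e2 ≤ ρ y ∧ (π y ≤ e - 3 * β ∨ e' + 3 * β ≤ π y)} with hZ
  have hZc : IsClosed Z := (isClosed_le continuous_const ρ.continuous).inter
    ((isClosed_le π.continuous continuous_const).union (isClosed_le continuous_const π.continuous))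
  have hb : ∀ y, ρ y ≤ ‖ρ‖ := fun y => (le_abs_self _).trans (ρ.norm_coe_le_norm y)
  have hnZ : ∀ y, y ∉ Z → e2 ≤ ρ y → e - 3 * β < π y ∧ π y < e' + 3 * β := by
    intro y hy hy'
    simp only [hZ, mem_ofPred_eq, not_and, not_or, not_le] at hy
    exact hy hy'
  rcases Z.eq_empty_or_nonempty with h | h
  · refine ⟨‖ρ‖ + 1, by linarith [hb yT], fun y hy _ => ?_, Or.inl fun y hy => by linarith [hb y]⟩
    have := hnZ y (by rw [h]; exact notMem_empty y) hy
    constructor <;> linarith [this.1, this.2]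
  obtain ⟨y0, hy0, hmin⟩ := hZc.isCompact.exists_isMinOn h ρ.continuous.continuousOn
  have hw : e2 < ρ y0 := by
    refine lt_of_le_of_ne hy0.1 fun e0 => ?_
    have := abs_lt.1 (hρ y0 yT (by rw [hyT, e0]))
    rcases hy0.2 with h' | h' <;> linarith [this.1, this.2]
  have hlt : ∀ y, e2 ≤ ρ y → ρ y < ρ y0 → e - 3 * β < π y ∧ π y < e' + 3 * β := fun y a b =>
    hnZ y (fun hy => absurd (hmin hy) (not_le.2 b)) a
  obtain ⟨y1, -, hy1, hy1'⟩ := isPreconnected_closed_iff.1 hX
    ({y | ρ y ≤ e2} ∪ {y | ρ y ≤ ρ y0 ∧ e - 3 * β ≤ π y ∧ π y ≤ e' + 3 * β}) {y | ρ y0 ≤ ρ y}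
    ((isClosed_le ρ.continuous continuous_const).union
      ((isClosed_le ρ.continuous continuous_const).inter
        ((isClosed_le continuous_const π.continuous).inter
          (isClosed_le π.continuous continuous_const))))
    (isClosed_le continuous_const ρ.continuous) (by
      intro y _
      rcases le_total (ρ y) e2 with a | a
      · exact Or.inl (Or.inl a)
      · rcases lt_or_ge (ρ y) (ρ y0) with b | b
        · exact Or.inl (Or.inr ⟨b.le, (hlt y a b).1.le, (hlt y a b).2.le⟩)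
        · exact Or.inr b) ⟨yT, trivial, Or.inl hyT.le⟩ ⟨y0, trivial, le_refl (ρ y0)⟩
  simp only [mem_ofPred_eq] at hy1'
  have hy1'' : ρ y1 ≤ ρ y0 ∧ e - 3 * β ≤ π y1 ∧ π y1 ≤ e' + 3 * β := by
    rcases hy1 with a | a
    · simp only [mem_ofPred_eq] at a; linarith
    · exact a
  refine ⟨ρ y0, hw.le, fun y a b => ?_, ?_⟩
  · rcases b.lt_or_eq with b | b
    · constructor <;> linarith [(hlt y a b).1, (hlt y a b).2]
    · have := abs_lt.1 (hρ y y1 (b.trans (le_antisymm hy1' hy1''.1)))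
      constructor <;> linarith [this.1, this.2, hy1''.2.1, hy1''.2.2]
  · rcases hy0.2 with a | a
    · refine Or.inr ⟨y0, rfl, by linarith, fun y hy => ?_⟩
      linarith [(abs_lt.1 (hρ y y0 hy)).2]
    · refine Or.inl fun y hy => ?_
      linarith [(abs_lt.1 (hρ y y0 hy)).1]

lemma clevel (D : Data g) {t : ℝ} (hE : (Em g t).Nonempty) (π : C(X, ℝ)) {σ : ℝ} (hσ : 0 < σ)
    (ho : Ori g σ π) {a : ℝ} (ha : a < t) {γ : ℝ} (hγ : 0 < γ) :
    ∃ (π' : C(X, ℝ)) (lo hi : ℝ), a ≤ lo ∧ lo ≤ hi ∧ hi < t ∧ Refines γ π' π ∧ Ori g (3 * σ) π' ∧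
      (∀ x y, g x ≤ lo → y ∈ Em g t → π' x ≤ π' y) ∧
      ((∀ y ∈ Tl g t hi, ∀ z ∈ Tl g t hi, π y ≤ π z → π' y ≤ π' z) ∨
        (∀ y ∈ Tl g t hi, ∀ z ∈ Tl g t hi, π y ≤ π z → π' z ≤ π' y)) := by
  set β := γ / 13 with hβ
  have hβ0 : 0 < β := by positivity
  have hc := D.cont
  have hEc := (D.isClosed_Em t).isCompact
  obtain ⟨ye, hye, hmin⟩ := hEc.exists_isMinOn hE π.continuous.continuousOn
  obtain ⟨ye', hye', hmax⟩ := hEc.exists_isMaxOn hE π.continuous.continuousOn
  set e := π ye with he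
  set e' := π ye' with he'
  have hee : e ≤ e' := hmin hye'
  obtain ⟨κ, hκ, hκ'⟩ := margin
    (C := closure {y | g y < t} ∩ {x | π x ≤ e - β ∨ e' + β ≤ π x})
    (isClosed_closure.inter ((isClosed_le π.continuous continuous_const).union
      (isClosed_le continuous_const π.continuous))).isCompact (u := fun x => t - g x)
    (by fun_prop) (by
      rintro x ⟨h1, h2⟩
      refine sub_pos.2 (lt_of_le_of_ne (D.le_of_closure h1) fun h3 => ?_)
      have a1 : e ≤ π x := hmin ⟨h3, h1⟩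
      have a2 : π x ≤ e' := hmax ⟨h3, h1⟩
      rcases h2 with h2 | h2 <;> linarith)
  set s := max (max a (t - σ)) (t - κ / 2) with hs
  have hst : s < t := max_lt (max_lt ha (by linarith)) (by linarith)
  have hsa : a ≤ s := (le_max_left _ _).trans (le_max_left _ _)
  have hsσ : t - σ ≤ s := (le_max_right _ _).trans (le_max_left _ _)
  have hwin : ∀ x, s ≤ g x → g x < t → e - β ≤ π x ∧ π x ≤ e' + β := by
    intro x h1 h2
    by_contra h3
    have := hκ' x ⟨subset_closure h2, by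
      simp only [mem_ofPred_eq]; by_contra h4; push Not at h4; exact h3 ⟨h4.1.le, h4.2.le⟩⟩
    have : t - κ / 2 ≤ s := le_max_right _ _
    linarith
  set T := closure (g ⁻¹' Ico s t) with hT
  have hTc : IsPreconnected T := (D.preconn ordConnected_Ico).closure
  have hTb : ∀ x ∈ T, e - β ≤ π x ∧ π x ≤ e' + β := fun x hx =>
    closure_minimal (t := {x | e - β ≤ π x ∧ π x ≤ e' + β}) (fun y hy => hwin y hy.1 hy.2)
      ((isClosed_le continuous_const π.continuous).inter
        (isClosed_le π.continuous continuous_const)) hx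
  have hET : Em g t ⊆ T := fun y hy => mem_closure_iff.2 fun U hU hyU => by
    obtain ⟨x, h1, h2, h3⟩ := D.near_Em hst hy hU hyU
    exact ⟨x, h1, h2.le, h3⟩
  obtain ⟨xl, hxl, hxl1, hxl2⟩ := D.near_Em hst hye (U := {x | π x < e + β})
    (isOpen_lt π.continuous continuous_const) (by simp only [mem_ofPred_eq]; linarith)
  obtain ⟨xh, hxh, hxh1, hxh2⟩ := D.near_Em hst hye' (U := {x | e' - β < π x})
    (isOpen_lt continuous_const π.continuous) (by simp only [mem_ofPred_eq]; linarith)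
  simp only [mem_ofPred_eq] at hxl hxh
  obtain ⟨ε, hε, hε'⟩ := unif π hβ0
  obtain ⟨σ2, hσ2, k1, k2, k3, k4, k5⟩ : ∃ σ2 > 0, σ2 ≤ σ ∧ σ2 ≤ g xl - s ∧ σ2 ≤ (t - g xl) / 2 ∧
      σ2 ≤ g xh - s ∧ σ2 ≤ (t - g xh) / 2 :=
    ⟨min σ (min (min (g xl - s) ((t - g xl) / 2)) (min (g xh - s) ((t - g xh) / 2))),
      lt_min hσ (lt_min (lt_min (by linarith) (by linarith)) (lt_min (by linarith) (by linarith))),
      min_le_left _ _, (min_le_right _ _).trans ((min_le_left _ _).trans (min_le_left _ _)),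
      (min_le_right _ _).trans ((min_le_left _ _).trans (min_le_right _ _)),
      (min_le_right _ _).trans ((min_le_right _ _).trans (min_le_left _ _)),
      (min_le_right _ _).trans ((min_le_right _ _).trans (min_le_right _ _))⟩
  obtain ⟨ρ, hρ, hρo⟩ := D.fine_ori hε hσ2
  have hR : Refines β ρ π := fun x y hxy => hε' x y (hρ x y hxy)
  obtain ⟨yT, hyT, hTmax⟩ := (isClosed_closure (s := g ⁻¹' Ico s t)).isCompact.exists_isMaxOn
    ⟨ye, hET hye⟩ ρ.continuous.continuousOn
  obtain ⟨w, hw1, hw2, hw3⟩ := exit_time (by simpa using D.preconn ordConnected_univ) π ρ hβ0 hR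
    (e := e) (e' := e') rfl (hTb yT hyT).1 (hTb yT hyT).2
  have hmid : ∀ x0, s < g x0 → g x0 < t → ∀ y, ρ x0 ≤ ρ y → ρ y ≤ w →
      e - 4 * β ≤ π y ∧ π y ≤ e' + 4 * β := by
    intro x0 h1 h2 y h3 h4
    rcases le_total (ρ yT) (ρ y) with h5 | h5
    · exact hw2 y h5 h4
    · obtain ⟨y', hy', hy''⟩ := hTc.intermediate_value (subset_closure ⟨h1.le, h2⟩) hyT
        ρ.continuous.continuousOn ⟨h3, h5⟩
      have := abs_lt.1 (hR y' y hy'')
      have := hTb y' hy'
      constructor <;> linarith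
  have hTl : ∀ x0, σ2 ≤ g x0 - s → σ2 ≤ (t - g x0) / 2 → ∀ y ∈ Tl g t (g x0 + σ2),
      ρ x0 ≤ ρ y ∧ ρ y ≤ w := by
    intro x0 h1 h2 y hy
    rcases hy with hy | hy
    · exact ⟨(hρo _ _ hy.1).le, le_trans (hTmax (subset_closure ⟨by linarith [hy.1], hy.2⟩)) hw1⟩
    · exact ⟨(hρo _ _ (by linarith [hy.1])).le, le_trans (hTmax (hET hy)) hw1⟩
  have href : ∀ {A B u v : ℝ}, A ≤ B → A - 6 * β ≤ u → u ≤ B + 6 * β → A - 6 * β ≤ v →
      v ≤ B + 6 * β → max A (min u B) = max A (min v B) → |u - v| < γ := by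
    intro A B u v h1 h2 h3 h4 h5 h6
    have a1 := abs_le.1 (clamp_near h1 (by linarith) h2 h3)
    have a2 := abs_le.1 (clamp_near h1 (by linarith) h4 h5)
    rw [abs_lt]; constructor <;> linarith
  have hβγ : β ≤ γ := by linarith
  rcases hw3 with hw3 | ⟨y0, hy0, hy0', hw3⟩
  · have hvw : ρ xl ≤ w := le_trans (hTmax (subset_closure ⟨hxl1.le, hxl2⟩)) hw1
    obtain ⟨π', b1, b2, b3, b4, b5, b6, b7⟩ := build ρ π (v := ρ xl) (w := w) (A := e + 2 * β)
      (B := e' + 2 * β) hvw (by linarith)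
      (fun y hy => by linarith [(abs_lt.1 (hR y xl hy)).2]) hw3
    refine ⟨π', g xl - σ2, g xl + σ2, by linarith, by linarith, by linarith, fun x y hxy => ?_,
      fun x y hxy => ?_, fun x y hx hy => ?_, Or.inl fun y hy z hz hyz => ?_⟩
    · rcases b6 x y hxy with h | ⟨h1, h2⟩
      · exact (hR x y h).trans_le hβγ
      · rw [b1 x h1.1 h1.2, b1 y h2.1 h2.2] at hxy
        have m1 := hmid xl hxl1 hxl2 x h1.1 h1.2
        have m2 := hmid xl hxl1 hxl2 y h2.1 h2.2
        exact href (by linarith) (by linarith) (by linarith) (by linarith) (by linarith) hxy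
    · rcases b7 x y (hρo x y (by linarith)).le with h | ⟨h1, h2⟩
      · exact h
      · rw [b1 x h1.1 h1.2, b1 y h2.1 h2.2]
        exact clamp_mono (ho x y (by linarith))
    · exact (b2 x (hρo _ _ (by linarith)).le).trans (b3 y (hρo _ _ (by linarith [hy.1])).le)
    · have m1 := hTl xl k2 k3 y hy
      have m2 := hTl xl k2 k3 z hz
      rw [b1 y m1.1 m1.2, b1 z m2.1 m2.2]
      exact clamp_mono hyz
  · have hvw : ρ xh ≤ w := le_trans (hTmax (subset_closure ⟨hxh1.le, hxh2⟩)) hw1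
    obtain ⟨π', b1, b2, b3, b4, b5, b6, b7⟩ := build ρ (-π) (v := ρ xh) (w := w) (A := -e' + 2 * β)
      (B := -e + 2 * β) hvw (by linarith)
      (fun y hy => by
        simp only [ContinuousMap.neg_apply]; linarith [(abs_lt.1 (hR y xh hy)).1])
      (fun y hy => by simp only [ContinuousMap.neg_apply]; linarith [hw3 y hy])
    simp only [ContinuousMap.neg_apply] at b1
    refine ⟨π', g xh - σ2, g xh + σ2, by linarith, by linarith, by linarith, fun x y hxy => ?_,
      fun x y hxy => ?_, fun x y hx hy => ?_, Or.inr fun y hy z hz hyz => ?_⟩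
    · rcases b6 x y hxy with h | ⟨h1, h2⟩
      · exact (hR x y h).trans_le hβγ
      · rw [b1 x h1.1 h1.2, b1 y h2.1 h2.2] at hxy
        have m1 := hmid xh hxh1 hxh2 x h1.1 h1.2
        have m2 := hmid xh hxh1 hxh2 y h2.1 h2.2
        have := href (by linarith) (by linarith) (by linarith) (by linarith) (by linarith) hxy
        rw [abs_lt] at this ⊢; constructor <;> linarith
    · rcases b7 x y (hρo x y (by linarith)).le with h | ⟨h1, h2⟩
      · exact h
      · exfalso
        have a1 : g xh - σ2 < g x := by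
          by_contra h'; linarith [hρo x xh (by linarith), h1.1]
        have a2 : g y < g y0 + σ2 := by
          by_contra h'; linarith [hρo y0 y (by linarith), h2.2]
        have a3 : g y0 < t + σ := by
          by_contra h'; linarith [ho ye y0 (by linarith [hye.1])]
        linarith
    · exact (b2 x (hρo _ _ (by linarith)).le).trans (b3 y (hρo _ _ (by linarith [hy.1])).le)
    · have m1 := hTl xh k4 k5 y hy
      have m2 := hTl xh k4 k5 z hz
      rw [b1 y m1.1 m1.2, b1 z m2.1 m2.2]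
      exact clamp_mono (by linarith)

end Pool.Agent.Emb36
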