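import Pool.Agent.Work.MP_1bd46d_gt.Geo

/-! The recursive construction of embeddings from a sequence of real maps and signs. -/

namespace Pool.Agent.Emb36

open Set Metric Topology Filter Complex

set_option linter.unusedSectionVars false

variable {X : Type*} [MetricSpace X] [CompactSpace X] [Nonempty X]

/-- signed number of order reversals of a pair below level `n` -/
noncomputable def NN (P : ℕ → C(X, ℝ)) (τ : ℕ → Bool) (n : ℕ) (p x : X) : ℤ :=
  ∑ j ∈ Finset.range n, sg (τ j) * rev (P j) (P (j + 1)) p x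

structure Run (φ : C(X, ℝ)) (δ : ℝ) (P : ℕ → C(X, ℝ)) (τ : ℕ → Bool) (ψ : C(X, ℂ)) : Prop where
  geo : ∃ G : ℕ → Geo, (∀ β > 0, ∃ n0, ∀ n ≥ n0, ∀ x, dist ((G n).Φ (P n x)) (ψ x) ≤ β) ∧
    ∀ n p x, 10 * δ ≤ |φ p - φ x| →
      |((G n).a (P n p, P n x)).im - Real.pi * NN P τ n p x| ≤ 1 / 5
  close : ∀ x, dist (ψ x) (φ x) ≤ δ / 3
  sep : ∀ n p x, 10 * δ ≤ |φ p - φ x| → P n p ≠ P n x
  inj : (∀ k : ℕ, ∃ n : ℕ, k ≤ n ∧ Fine (1 / (n + 1)) (P n)) → Function.Injective ψ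

lemma run_of_seq (φ : C(X, ℝ)) {δ : ℝ} (P : ℕ → C(X, ℝ)) (τ : ℕ → Bool)
    (G : ℕ → Geo) (B : ℕ → ℝ) (hP0 : P 0 = φ) (hG0 : G 0 = Geo.one) (hB0 : B 0 ≤ δ / 3)
    (hB0' : B 0 ≤ 1 / 5) (hBpos : ∀ n, 0 < B n) (hB : ∀ n, B (n + 1) ≤ B n / 2)
    (hsep : ∀ n p x, 10 * δ ≤ |φ p - φ x| → P n p ≠ P n x)
    (hfine : ∀ n : ℕ, Fine (1 / (n + 1)) (P n) → ∀ p x, 1 / ((n : ℝ) + 1) ≤ dist p x →
      4 * B (n + 1) < dist ((G n).Φ (P n p)) ((G n).Φ (P n x)))
    (hd : ∀ n x, dist ((G (n + 1)).Φ (P (n + 1) x)) ((G n).Φ (P n x)) ≤ B (n + 1))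
    (ha : ∀ n p x, 10 * δ ≤ |φ p - φ x| → |((G (n + 1)).a (P (n + 1) p, P (n + 1) x)).im
      - ((G n).a (P n p, P n x)).im - Real.pi * (sg (τ n) * rev (P n) (P (n + 1)) p x)|
        ≤ B (n + 1)) :
    ∃ ψ : C(X, ℂ), Run φ δ P τ ψ := by
  let Ψ : ℕ → C(X, ℂ) := fun n => ⟨fun x => (G n).Φ (P n x), (G n).cont.comp (by fun_prop)⟩
  have h1 : ∀ n, dist (Ψ n) (Ψ (n + 1)) ≤ B (n + 1) := fun n => by
    rw [dist_comm]; exact (ContinuousMap.dist_le (hBpos _).le).2 (hd n)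
  have h2 : ∀ n, B n ≤ B 0 / 2 ^ n := by
    intro n
    induction n with
    | zero => simp
    | succ n ih =>
      rw [pow_succ, ← div_div]; linarith [hB n]
  have h3 : CauchySeq Ψ := by
    refine cauchySeq_of_le_geometric_two (C := B 0) fun n => (h1 n).trans ?_
    have := h2 (n + 1)
    rw [pow_succ', ← div_div] at this
    exact this
  obtain ⟨ψ, hψ⟩ := cauchySeq_tendsto_of_complete h3
  have h4 : ∀ n k, dist (Ψ n) (Ψ (n + k)) ≤ B n - B (n + k) := by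
    intro n k
    induction k with
    | zero => simp
    | succ k ih =>
      have := dist_triangle (Ψ n) (Ψ (n + k)) (Ψ (n + k + 1))
      have e : n + (k + 1) = n + k + 1 := rfl
      rw [e]
      linarith [h1 (n + k), hB (n + k)]
  have h5 : ∀ n, dist (Ψ n) ψ ≤ B n := by
    intro n
    refine le_of_tendsto (tendsto_const_nhds.dist hψ) (eventually_atTop.2 ⟨n, fun m hm => ?_⟩)
    obtain ⟨k, rfl⟩ := Nat.exists_eq_add_of_le hm
    linarith [h4 n k, hBpos (n + k)]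
  have h6 : ∀ n x, dist ((G n).Φ (P n x)) (ψ x) ≤ B n := fun n x =>
    (ContinuousMap.dist_apply_le_dist (f := Ψ n) (g := ψ) x).trans (h5 n)
  refine ⟨ψ, ⟨G, fun β hβ => ?_, fun n p x hpx => ?_⟩, fun x => ?_, hsep, fun hf => ?_⟩
  · obtain ⟨n0, hn0⟩ := Metric.tendsto_atTop.1 hψ β hβ
    exact ⟨n0, fun n hn x =>
      (ContinuousMap.dist_apply_le_dist (f := Ψ n) (g := ψ) x).trans (hn0 n hn).le⟩
  · have : |((G n).a (P n p, P n x)).im - Real.pi * NN P τ n p x| ≤ B 0 - B n := by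
      induction n with
      | zero => simp [hG0, Geo.one, NN]
      | succ n ih =>
        have e := ha n p x hpx
        have e2 : (NN P τ (n + 1) p x : ℝ) = NN P τ n p x + sg (τ n) * rev (P n) (P (n + 1)) p x := by
          simp [NN, Finset.sum_range_succ]
        rw [e2]
        have a1 := abs_le.1 ih
        have a2 := abs_le.1 e
        have := hB n
        rw [abs_le]; constructor <;> linarith
    linarith [hBpos n]
  · have := h6 0 x
    rw [hG0, hP0, dist_comm] at this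
    exact this.trans hB0
  · intro p x hpx
    by_contra hne
    obtain ⟨k, hk⟩ := exists_nat_one_div_lt (dist_pos.2 hne)
    obtain ⟨n, hn, hfn⟩ := hf k
    have e1 : 1 / ((n : ℝ) + 1) ≤ dist p x :=
      le_trans (Nat.one_div_le_one_div hn) hk.le
    have e2 := hfine n hfn p x e1
    have e3 : ∀ y, dist ((G n).Φ (P n y)) (ψ y) ≤ 2 * B (n + 1) := fun y => by
      have := dist_triangle ((G n).Φ (P n y)) ((G (n + 1)).Φ (P (n + 1) y)) (ψ y)
      have e := hd n y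
      rw [dist_comm] at e
      linarith [h6 (n + 1) y]
    have e4 := dist_triangle_right ((G n).Φ (P n p)) ((G n).Φ (P n x)) (ψ x)
    have e5 := e3 p
    rw [hpx] at e5
    linarith [e3 x]

theorem engine {S ι : Type*} (π : S → C(X, ℝ)) (s0 : S) (Inv : ℕ → S → Prop)
    (Rel : ℕ → S → S → Prop) (h0 : Inv 0 s0)
    (hstep : ∀ n s, Inv n s → ∀ γ > 0, ∃ s', Inv (n + 1) s' ∧ Rel n s s' ∧
      Refines γ (π s') (π s))
    (sgn : ι → ℕ → S → S → Bool) {δ : ℝ} (hδ : 0 < δ) :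
    ∃ st : ι → ℕ → S, ∃ ψ : ι → C(X, ℂ), (∀ c, st c 0 = s0) ∧
      (∀ c n, Inv n (st c n) ∧ Rel n (st c n) (st c (n + 1))) ∧
      (∀ c c' n, (∀ j < n, sgn c j = sgn c' j) → ∀ m ≤ n + 1, st c m = st c' m) ∧
      ∀ c, Run (π s0) δ (fun n => π (st c n)) (fun n => sgn c n (st c n) (st c (n + 1))) (ψ c) := by
  set K : Set (X × X) := {q | 10 * δ ≤ |π s0 q.1 - π s0 q.2|} with hK
  have hKc : IsCompact K := (isClosed_le continuous_const (by fun_prop)).isCompact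
  let EInv : ℕ → S × Geo × ℝ → Prop := fun n e =>
    Inv n e.1 ∧ 0 < e.2.2 ∧ ∀ q ∈ K, π e.1 q.1 ≠ π e.1 q.2
  have key : ∀ (n : ℕ) (e : S × Geo × ℝ), ∃ r : S × (Bool → Geo) × ℝ, EInv n e →
      0 < r.2.2 ∧ r.2.2 ≤ e.2.2 / 2 ∧ Inv (n + 1) r.1 ∧ Rel n e.1 r.1 ∧
      (Fine (1 / (n + 1)) (π e.1) → ∀ p x, 1 / ((n : ℝ) + 1) ≤ dist p x →
        4 * r.2.2 < dist (e.2.1.Φ (π e.1 p)) (e.2.1.Φ (π e.1 x))) ∧
      ∀ b, (∀ x, dist ((r.2.1 b).Φ (π r.1 x)) (e.2.1.Φ (π e.1 x)) ≤ r.2.2) ∧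
        ∀ q ∈ K, π r.1 q.1 ≠ π r.1 q.2 ∧
        |((r.2.1 b).a (π r.1 q.1, π r.1 q.2)).im - (e.2.1.a (π e.1 q.1, π e.1 q.2)).im
          - Real.pi * (sg b * rev (π e.1) (π r.1) q.1 q.2)| ≤ r.2.2 := by
    rintro n ⟨s, G, b⟩
    by_cases he : EInv n (s, G, b)
    swap
    · exact ⟨(s, fun _ => G, b), fun h => absurd h he⟩
    obtain ⟨hI, hb, hs⟩ := he
    have hκ : ∃ κ > 0, Fine (1 / (n + 1)) (π s) → ∀ p x, 1 / ((n : ℝ) + 1) ≤ dist p x →
        κ ≤ dist (G.Φ (π s p)) (G.Φ (π s x)) := by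
      by_cases hf : Fine (1 / (n + 1)) (π s)
      swap
      · exact ⟨1, one_pos, fun h => absurd h hf⟩
      have hc := G.cont
      obtain ⟨κ, hκ, hκ'⟩ := margin (C := {q : X × X | 1 / ((n : ℝ) + 1) ≤ dist q.1 q.2})
        (isClosed_le continuous_const (continuous_fst.dist continuous_snd)).isCompact
        (u := fun q => dist (G.Φ (π s q.1)) (G.Φ (π s q.2))) (by fun_prop) (by
          rintro ⟨p, x⟩ hq
          refine dist_pos.2 fun h => ?_
          have h1 : π s p = π s x := by exact_mod_cast G.inj h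
          exact absurd (hf p x h1) (not_lt.2 hq))
      exact ⟨κ, hκ, fun _ p x h => hκ' (p, x) h⟩
    obtain ⟨κ, hκ, hκ'⟩ := hκ
    have hβ : 0 < min (b / 2) (κ / 5) := lt_min (half_pos hb) (by positivity)
    obtain ⟨γ, hγ, hγ'⟩ := step G (π s) hKc hs hβ
    obtain ⟨s', h1, h2, h3⟩ := hstep n s hI γ hγ
    obtain ⟨G', hG'⟩ := hγ' (π s') h3
    refine ⟨(s', G', min (b / 2) (κ / 5)), fun _ => ⟨hβ, min_le_left _ _, h1, h2,
      fun hf p x hpx => ?_, hG'⟩⟩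
    have := hκ' hf p x hpx
    have := min_le_right (b / 2) (κ / 5)
    simp only; linarith
  choose nxt hnxt using key
  let seq : ι → ℕ → S × Geo × ℝ := fun c n => Nat.rec (s0, Geo.one, min (δ / 3) (1 / 5))
    (fun n e => ((nxt n e).1, (nxt n e).2.1 (sgn c n e.1 (nxt n e).1), (nxt n e).2.2)) n
  have hs0 : ∀ c, seq c 0 = (s0, Geo.one, min (δ / 3) (1 / 5)) := fun c => rfl
  have hs : ∀ c n, seq c (n + 1) = ((nxt n (seq c n)).1,
      (nxt n (seq c n)).2.1 (sgn c n (seq c n).1 (nxt n (seq c n)).1), (nxt n (seq c n)).2.2) :=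
    fun c n => rfl
  have hinv : ∀ c n, EInv n (seq c n) := by
    intro c n
    induction n with
    | zero =>
      refine ⟨h0, lt_min (by positivity) (by norm_num), fun q hq h => ?_⟩
      have h1 : π s0 q.1 = π s0 q.2 := h
      simp only [hK, mem_ofPred_eq, h1, sub_self, abs_zero] at hq
      linarith
    | succ n ih =>
      obtain ⟨a1, _, a3, _, _, a6⟩ := hnxt n _ ih
      exact ⟨a3, a1, fun q hq => ((a6 true).2 q hq).1⟩
  have hrun : ∀ c, ∃ ψ : C(X, ℂ), Run (π s0) δ (fun n => π (seq c n).1)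
      (fun n => sgn c n (seq c n).1 (seq c (n + 1)).1) ψ := by
    intro c
    refine run_of_seq (π s0) _ _ (fun n => (seq c n).2.1) (fun n => (seq c n).2.2) rfl rfl
      (min_le_left _ _) (min_le_right _ _) (fun n => (hinv c n).2.1)
      (fun n => (hnxt n _ (hinv c n)).2.1) (fun n p x h => (hinv c n).2.2 (p, x) h)
      (fun n => (hnxt n _ (hinv c n)).2.2.2.2.1)
      (fun n => ((hnxt n _ (hinv c n)).2.2.2.2.2 _).1)
      (fun n p x h => (((hnxt n _ (hinv c n)).2.2.2.2.2 _).2 (p, x) h).2)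
  choose ψ hψ using hrun
  refine ⟨fun c n => (seq c n).1, ψ, fun c => rfl,
    fun c n => ⟨(hinv c n).1, (hnxt n _ (hinv c n)).2.2.2.1⟩, fun c c' n h => ?_, hψ⟩
  have e : ∀ m ≤ n, seq c m = seq c' m := by
    intro m hm
    induction m with
    | zero => rfl
    | succ m ih =>
      rw [hs, hs, ih (by omega), h m (by omega)]
  intro m hm
  rcases Nat.lt_or_ge n m with h1 | h1
  · have : m = n + 1 := by omega
    subst this
    show (seq c (n + 1)).1 = (seq c' (n + 1)).1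
    rw [hs, hs, e n le_rfl]
  · show (seq c m).1 = (seq c' m).1
    rw [e m h1]

end Pool.Agent.Emb36
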