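import Mathlib.Analysis.SpecialFunctions.Complex.LogBounds
import Mathlib.Analysis.SpecialFunctions.Complex.LogDeriv
import Pool.Agent.Work.MP_1bd46d_gt.Basic

/-! Plane maps with a continuous logarithm of the difference quotient. -/

namespace Pool.Agent.Emb36

open Set Metric Topology Filter Complex

set_option linter.unusedSectionVars false

/-- an injective plane map with a continuous logarithm of its difference quotient -/
structure Geo where
  Φ : ℂ → ℂ
  a : ℂ × ℂ → ℂ
  cont : Continuous Φ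
  inj : Function.Injective Φ
  acont : ContinuousOn a {q | q.1 ≠ q.2}
  aexp : ∀ z w, z ≠ w → exp (a (z, w)) = (Φ w - Φ z) / (w - z)

def Geo.one : Geo where
  Φ := id
  a := fun _ => 0
  cont := continuous_id
  inj := Function.injective_id
  acont := continuousOn_const
  aexp := fun z w h => by
    simp only [exp_zero, id]; exact (div_self (sub_ne_zero.2 h.symm)).symm

def Geo.comp (G H : Geo) : Geo where
  Φ := fun z => G.Φ (H.Φ z)
  a := fun q => G.a (H.Φ q.1, H.Φ q.2) + H.a q
  cont := G.cont.comp H.cont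
  inj := G.inj.comp H.inj
  acont := by
    refine ContinuousOn.add (G.acont.comp (f := fun q : ℂ × ℂ => (H.Φ q.1, H.Φ q.2)) ?_ ?_) H.acont
    · exact ((H.cont.comp continuous_fst).prodMk (H.cont.comp continuous_snd)).continuousOn
    · intro q hq h; exact hq (H.inj h)
  aexp := fun z w h => by
    have h' : H.Φ z ≠ H.Φ w := fun e => h (H.inj e)
    rw [exp_add, G.aexp _ _ h', H.aexp _ _ h]
    have := sub_ne_zero.2 h'.symm
    field_simp

def sg (b : Bool) : ℤ := if b then 1 else -1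

lemma sg_cases (b : Bool) : (sg b : ℝ) = 1 ∨ (sg b : ℝ) = -1 := by
  cases b <;> simp [sg]

lemma sg_cases' (b : Bool) : sg b = 1 ∨ sg b = -1 := by
  cases b <;> simp [sg]

def henF (f : ℝ → ℝ) (c τ : ℝ) (z : ℂ) : ℂ := ⟨f z.re - τ * z.im, τ * c * z.re⟩

noncomputable def henQ (f : ℝ → ℝ) (c τ : ℝ) (q : ℂ × ℂ) : ℂ :=
  (henF f c τ q.2 - henF f c τ q.1) / (I * τ * (q.2 - q.1))

lemma henF_cont {f : ℝ → ℝ} (hf : Continuous f) (c τ : ℝ) : Continuous (henF f c τ) := by
  have : henF f c τ = fun z => ((f z.re - τ * z.im : ℝ) : ℂ) + ((τ * c * z.re : ℝ) : ℂ) * I := by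
    ext z
    apply Complex.ext <;> simp [henF]
  rw [this]; fun_prop

lemma henQ_slit {f : ℝ → ℝ} {c τ : ℝ} (hc : 0 < c) (hτ : τ = 1 ∨ τ = -1) {z w : ℂ} (h : z ≠ w) :
    henQ f c τ (z, w) ∈ slitPlane := by
  by_contra hs
  rw [mem_slitPlane_iff, not_or, not_lt, not_not] at hs
  obtain ⟨h1, h2⟩ := hs
  have hτ0 : τ ≠ 0 := by rcases hτ with h | h <;> rw [h] <;> norm_num
  have hd : (I * τ * (w - z)) ≠ 0 :=
    mul_ne_zero (mul_ne_zero I_ne_zero (by exact_mod_cast hτ0)) (sub_ne_zero.2 h.symm)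
  set l := (henQ f c τ (z, w)).re with hl
  have e1 : henQ f c τ (z, w) = (l : ℂ) := Complex.ext (by simp [hl]) (by simp [h2])
  have e2 : henF f c τ w - henF f c τ z = l * (I * τ * (w - z)) := by
    rw [← e1, henQ, div_mul_cancel₀ _ hd]
  have e3 := congrArg Complex.re e2
  have e4 := congrArg Complex.im e2
  simp [henF] at e3 e4
  have e5 : w.re = z.re := by
    have : τ * ((c - l) * (w.re - z.re)) = 0 := by linarith
    rcases mul_eq_zero.1 this with h | h
    · exact absurd h hτ0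
    · rcases mul_eq_zero.1 h with h | h
      · linarith
      · linarith
  rw [e5] at e3
  have e6 : w.im = z.im := by
    have : τ * ((1 - l) * (w.im - z.im)) = 0 := by linarith
    rcases mul_eq_zero.1 this with h | h
    · exact absurd h hτ0
    · rcases mul_eq_zero.1 h with h | h
      · linarith
      · linarith
  exact h (Complex.ext e5.symm e6.symm)

lemma exp_half {τ : ℝ} (hτ : τ = 1 ∨ τ = -1) : exp (I * τ * (Real.pi / 2)) = I * τ := by
  rcases hτ with h | h <;> rw [h]
  · simp only [ofReal_one, mul_one]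
    rw [mul_comm]; exact exp_pi_div_two_mul_I
  · have : I * ((-1 : ℝ) : ℂ) * (Real.pi / 2) = -Real.pi / 2 * I := by push_cast; ring
    rw [this, exp_neg_pi_div_two_mul_I]; simp

noncomputable def hen (f : ℝ → ℝ) (hf : Continuous f) (c : ℝ) (hc : 0 < c) (b : Bool) : Geo where
  Φ := henF f c (sg b)
  a := fun q => log (henQ f c (sg b) q) + I * (sg b : ℝ) * (Real.pi / 2)
  cont := henF_cont hf _ _
  inj := by
    intro z w h
    by_contra hne
    have := henQ_slit (f := f) hc (sg_cases b) hne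
    rw [henQ] at this
    simp only [h, sub_self, zero_div] at this
    exact zero_notMem_slitPlane this
  acont := by
    refine ContinuousOn.add (ContinuousOn.clog ?_ fun q hq => henQ_slit hc (sg_cases b) hq)
      continuousOn_const
    have hτ0 : (sg b : ℝ) ≠ 0 := by rcases sg_cases b with h | h <;> rw [h] <;> norm_num
    have := henF_cont hf c (sg b)
    refine ContinuousOn.div (by fun_prop) (by fun_prop) fun q hq => ?_
    exact mul_ne_zero (mul_ne_zero I_ne_zero (by exact_mod_cast hτ0)) (sub_ne_zero.2 (Ne.symm hq))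
  aexp := fun z w h => by
    have hτ0 : (sg b : ℝ) ≠ 0 := by rcases sg_cases b with h | h <;> rw [h] <;> norm_num
    rw [exp_add, exp_log (slitPlane_ne_zero (henQ_slit hc (sg_cases b) h)), exp_half (sg_cases b),
      henQ]
    have h1 : ((sg b : ℝ) : ℂ) ≠ 0 := by exact_mod_cast hτ0
    have h2 := sub_ne_zero.2 h.symm
    field_simp

lemma im_small {w u : ℂ} {r : ℝ} (hr : 0 < r) (hu : ‖u‖ ≤ 1 / 2) (him : |w.im| < Real.pi)
    (h : exp w = r * (1 + u)) : |w.im| ≤ 3 / 2 * ‖u‖ := by
  have h1 := log_exp (x := w) (abs_lt.1 him).1 (abs_lt.1 him).2.le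
  have h2 : w.im = (log (1 + u)).im := by
    rw [← h1, h, log_im, log_im, arg_real_mul _ hr]
  rw [h2]
  exact (abs_im_le_norm _).trans (norm_log_one_add_half_le_self hu)

open Classical in
/-- indicator of an order reversal of the pair between two maps -/
noncomputable def rev {X : Type*} (π ρ : X → ℝ) (p x : X) : ℤ :=
  if (π x - π p) * (ρ x - ρ p) < 0 then 1 else 0

lemma hen_real {f : ℝ → ℝ} (hf : Continuous f) {c : ℝ} (hc : 0 < c) (b : Bool) {u v : ℝ}
    (huv : u ≠ v) {m : ℝ} (hm : m = (f v - f u) / (v - u)) (hcm : c ≤ |m| / 2) :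
    |((hen f hf c hc b).a (u, v)).im - Real.pi * (sg b * if m < 0 then 1 else 0)|
      ≤ 3 / 2 * (c / |m|) := by
  have hm0 : m ≠ 0 := by rintro h; rw [h] at hcm; simp at hcm; linarith
  have hma : 0 < |m| := abs_pos.2 hm0
  have hτ := sg_cases b
  have hτ0 : (sg b : ℝ) ≠ 0 := by rcases hτ with h | h <;> rw [h] <;> norm_num
  have hvu : v - u ≠ 0 := sub_ne_zero.2 huv.symm
  have huv' : (u : ℂ) ≠ v := by exact_mod_cast huv
  have he := (hen f hf c hc b).aexp u v huv'
  have hq : ((hen f hf c hc b).Φ v - (hen f hf c hc b).Φ u) / ((v : ℂ) - u)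
      = m + I * (sg b : ℝ) * c := by
    have h1 : ((v : ℂ) - u) ≠ 0 := sub_ne_zero.2 huv'.symm
    rw [div_eq_iff h1]
    have h2 : f v - f u = m * (v - u) := by rw [hm]; field_simp
    apply Complex.ext
    · simp [hen, henF]; linarith
    · simp [hen, henF]; ring
  rw [hq] at he
  have hre : 0 < (henQ f c (sg b) (u, v)).re := by
    have h1 : henQ f c (sg b) (u, v) = (m + I * (sg b : ℝ) * c) / (I * (sg b : ℝ)) := by
      rw [← hq, henQ]
      have h1 : ((v : ℂ) - u) ≠ 0 := sub_ne_zero.2 huv'.symm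
      have h3 : ((sg b : ℝ) : ℂ) ≠ 0 := by exact_mod_cast hτ0
      simp only [hen]
      field_simp
    have h2 : (m + I * (sg b : ℝ) * c) / (I * (sg b : ℝ)) = c - I * (sg b : ℝ) * m := by
      have h3 : ((sg b : ℝ) : ℂ) ≠ 0 := by exact_mod_cast hτ0
      rw [div_eq_iff (mul_ne_zero I_ne_zero h3)]
      rcases hτ with h | h <;> rw [h] <;> apply Complex.ext <;> simp
    rw [h1, h2]; simpa using hc
  have harg : |arg (henQ f c (sg b) (u, v))| < Real.pi / 2 :=
    abs_arg_lt_pi_div_two_iff.2 (Or.inl hre)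
  have him : ((hen f hf c hc b).a (u, v)).im
      = arg (henQ f c (sg b) (u, v)) + sg b * (Real.pi / 2) := by
    simp [hen, log_im]
  have hnorm : ‖I * (sg b : ℝ) * c / m‖ = c / |m| := by
    rw [norm_div, norm_mul, norm_mul, norm_I, norm_real, norm_real, norm_real, Real.norm_eq_abs,
      Real.norm_eq_abs, Real.norm_eq_abs, abs_of_pos hc]
    rcases hτ with h | h <;> rw [h] <;> simp
  have hle : ‖I * (sg b : ℝ) * c / m‖ ≤ 1 / 2 := by
    rw [hnorm, div_le_iff₀ hma]; linarith
  have hmc : (m : ℂ) ≠ 0 := by exact_mod_cast hm0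
  have hpi := Real.pi_pos
  rw [← hnorm]
  split_ifs with hneg
  · have h1 : ((hen f hf c hc b).a (u, v)).im - Real.pi * (sg b * 1)
        = ((hen f hf c hc b).a (u, v) - I * (sg b : ℝ) * Real.pi).im := by
      simp; ring
    rw [h1]
    refine im_small (r := -m) (by linarith) hle ?_ ?_
    · rw [← h1, him, abs_lt]
      have := abs_lt.1 harg
      generalize arg (henQ f c (sg b) (u, v)) = A at this ⊢
      rcases hτ with h | h <;> rw [h] <;> constructor <;> linarith
    · have h2 : exp (I * (sg b : ℝ) * Real.pi) = -1 := by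
        rcases hτ with h | h <;> rw [h]
        · simp only [ofReal_one, mul_one]; rw [mul_comm]; exact exp_pi_mul_I
        · have : I * ((-1 : ℝ) : ℂ) * Real.pi = -(Real.pi * I) := by push_cast; ring
          rw [this, exp_neg, exp_pi_mul_I]; norm_num
      rw [exp_sub, he, h2]
      push_cast
      field_simp
  · rw [mul_zero, mul_zero, sub_zero]
    have hpos : 0 < m := lt_of_le_of_ne (not_lt.1 hneg) hm0.symm
    refine im_small (r := m) hpos hle ?_ ?_
    · rw [him, abs_lt]
      have := abs_lt.1 harg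
      generalize arg (henQ f c (sg b) (u, v)) = A at this ⊢
      rcases hτ with h | h <;> rw [h] <;> constructor <;> linarith
    · rw [he]; field_simp

lemma near {Y Z : Type*} [MetricSpace Y] [MetricSpace Z] {C : Set Y} (hC : IsCompact C)
    {F : Y → Z} (hF : ∀ y ∈ C, ContinuousAt F y) {β : ℝ} (hβ : 0 < β) :
    ∃ γ > 0, ∀ y ∈ C, ∀ y', dist y y' < γ → dist (F y) (F y') < β := by
  have := hC.uniformContinuousAt_of_continuousAt F hF (Metric.dist_mem_uniformity hβ)
  obtain ⟨γ, hγ, h⟩ := Metric.mem_uniformity_dist.1 this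
  exact ⟨γ, hγ, fun y hy y' hd => h hd hy⟩

/-- one level of the construction -/
lemma step {X : Type*} [TopologicalSpace X] [CompactSpace X] [Nonempty X] (G : Geo) (π : C(X, ℝ))
    {K : Set (X × X)} (hK : IsCompact K) (hsep : ∀ q ∈ K, π q.1 ≠ π q.2) {β : ℝ} (hβ : 0 < β) :
    ∃ γ > 0, ∀ ρ : C(X, ℝ), Refines γ ρ π → ∃ G' : Bool → Geo, ∀ b,
      (∀ x, dist ((G' b).Φ (ρ x)) (G.Φ (π x)) ≤ β) ∧ ∀ q ∈ K, ρ q.1 ≠ ρ q.2 ∧
        |((G' b).a (ρ q.1, ρ q.2)).im - (G.a (π q.1, π q.2)).im
          - Real.pi * (sg b * rev π ρ q.1 q.2)| ≤ β := by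
  obtain ⟨γ1, hγ1, h1⟩ := near (C := range fun x => (π x : ℂ)) (isCompact_range (by fun_prop))
    (F := G.Φ) (fun _ _ => G.cont.continuousAt) hβ
  obtain ⟨γ2, hγ2, h2⟩ := near (C := (fun q : X × X => ((π q.1 : ℂ), (π q.2 : ℂ))) '' K)
    (hK.image (by fun_prop)) (F := G.a) (by
      rintro _ ⟨q, hq, rfl⟩
      refine G.acont.continuousAt (IsOpen.mem_nhds (isOpen_ne_fun continuous_fst continuous_snd) ?_)
      simp only [mem_ofPred_eq]
      exact_mod_cast hsep q hq) (half_pos hβ)
  obtain ⟨l, hl, hl'⟩ := margin hK (u := fun q => |π q.1 - π q.2|) (by fun_prop)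
    (fun q hq => abs_pos.2 (sub_ne_zero.2 (hsep q hq)))
  set γ := min (min γ1 γ2 / 4) (l / 4) with hγ
  have hγ0 : 0 < γ := by positivity
  have g1 : γ ≤ γ1 / 4 := (min_le_left _ _).trans (by gcongr; exact min_le_left _ _)
  have g2 : γ ≤ γ2 / 4 := (min_le_left _ _).trans (by gcongr; exact min_le_right _ _)
  have g3 : γ ≤ l / 4 := min_le_right _ _
  clear_value γ
  clear hγ
  refine ⟨γ, hγ0, fun ρ hρ => ?_⟩
  obtain ⟨f, hf, hf'⟩ := approx ρ π hγ0 hρ
  set M := ‖ρ‖ + 1 with hM
  have hM0 : 0 < M := by positivity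
  have hb : ∀ x, |ρ x| ≤ M := fun x => (ρ.norm_coe_le_norm x).trans (by linarith)
  clear_value M
  clear hM
  set β' := min β 1 with hβ'
  have hβ'0 : 0 < β' := by positivity
  have hβ1 : β' ≤ 1 := min_le_right _ _
  have hβ2 : β' ≤ β := min_le_left _ _
  clear_value β'
  clear hβ'
  set c := min (γ / M) (β' * l / (16 * M)) with hc
  have hc0 : 0 < c := by positivity
  have c1 : c * M ≤ γ := by rw [← le_div_iff₀ hM0]; exact min_le_left _ _
  have c2 : c ≤ β' * l / (16 * M) := min_le_right _ _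
  clear_value c
  clear hc
  have hd : ∀ b x, dist (π x : ℂ) ((hen f hf c hc0 b).Φ (ρ x)) ≤ 2 * γ := by
    intro b x
    rw [dist_eq_norm]
    refine (norm_le_abs_re_add_abs_im _).trans ?_
    have e1 : ((π x : ℂ) - (hen f hf c hc0 b).Φ (ρ x)).re = -(f (ρ x) - π x) := by
      simp [hen, henF]
    have e2 : ((π x : ℂ) - (hen f hf c hc0 b).Φ (ρ x)).im = -(sg b * c * ρ x) := by
      simp [hen, henF]
    rw [e1, e2, abs_neg, abs_neg, abs_mul, abs_mul, abs_of_pos hc0]
    have e3 : |(sg b : ℝ)| = 1 := by rcases sg_cases b with h | h <;> rw [h] <;> simp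
    have := mul_le_mul_of_nonneg_left (hb x) hc0.le
    rw [e3]; linarith [hf' x]
  refine ⟨fun b => G.comp (hen f hf c hc0 b), fun b => ⟨fun x => ?_, fun q hq => ?_⟩⟩
  · rw [dist_comm]
    exact (h1 _ ⟨x, rfl⟩ _ (by linarith [hd b x])).le
  · have a1 := abs_le.1 (hf' q.1)
    have a2 := abs_le.1 (hf' q.2)
    have a3 := hl' q hq
    have hnum : l / 2 ≤ |f (ρ q.2) - f (ρ q.1)| ∧
        0 < (π q.2 - π q.1) * (f (ρ q.2) - f (ρ q.1)) := by
      rcases le_abs'.1 a3 with h | h
      · exact ⟨le_abs.2 (Or.inl (by linarith)), mul_pos (by linarith) (by linarith)⟩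
      · exact ⟨le_abs'.2 (Or.inl (by linarith)), mul_pos_of_neg_of_neg (by linarith) (by linarith)⟩
    have hne : ρ q.1 ≠ ρ q.2 := by
      intro h; rw [h, sub_self, mul_zero] at hnum; exact lt_irrefl _ hnum.2
    refine ⟨hne, ?_⟩
    have hden : 0 < |ρ q.2 - ρ q.1| := abs_pos.2 (sub_ne_zero.2 hne.symm)
    have hden' : |ρ q.2 - ρ q.1| ≤ 2 * M := by
      have := abs_sub (ρ q.2) (ρ q.1); linarith [hb q.1, hb q.2]
    set m := (f (ρ q.2) - f (ρ q.1)) / (ρ q.2 - ρ q.1) with hm
    clear_value m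
    have hma : l / (4 * M) ≤ |m| := by
      rw [hm, abs_div, div_le_div_iff₀ (by positivity) hden]
      linarith only [mul_le_mul_of_nonneg_left hden' hl.le,
        mul_le_mul_of_nonneg_right hnum.1 hM0.le]
    have hma0 : 0 < |m| := lt_of_lt_of_le (by positivity) hma
    have hcm : c / |m| ≤ β' / 4 := by
      rw [div_le_iff₀ hma0]
      have e1 : c ≤ β' / 4 * (l / (4 * M)) := by
        have : β' / 4 * (l / (4 * M)) = β' * l / (16 * M) := by field_simp; ring
        rw [this]; exact c2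
      exact e1.trans (mul_le_mul_of_nonneg_left hma (by positivity))
    have hr := hen_real hf hc0 b hne hm (by
      rw [div_le_iff₀ hma0] at hcm
      linarith only [hcm, hma0, mul_le_mul_of_nonneg_right hβ1 hma0.le])
    have hrev : (rev π ρ q.1 q.2 : ℝ) = if m < 0 then 1 else 0 := by
      have e : (π q.2 - π q.1) * (ρ q.2 - ρ q.1) < 0 ↔ m < 0 := by
        have e1 : f (ρ q.2) - f (ρ q.1) = m * (ρ q.2 - ρ q.1) := by
          rw [hm]; field_simp [sub_ne_zero.2 hne.symm]
        have e2 := hnum.2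
        rw [e1, mul_left_comm] at e2
        exact (neg_iff_neg_of_mul_pos e2).symm
      unfold rev
      by_cases h : m < 0
      · rw [if_pos h, if_pos (e.2 h)]; simp
      · rw [if_neg h, if_neg (fun h' => h (e.1 h'))]; simp
    have hA := h2 _ ⟨q, hq, rfl⟩ ((hen f hf c hc0 b).Φ (ρ q.1), (hen f hf c hc0 b).Φ (ρ q.2)) (by
      rw [Prod.dist_eq]
      exact max_lt (by linarith [hd b q.1]) (by linarith [hd b q.2]))
    rw [dist_eq_norm] at hA
    have hA' := (abs_im_le_norm _).trans_lt hA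
    rw [sub_im] at hA'
    rw [hrev]
    simp only [Geo.comp, add_im]
    have b1 := abs_lt.1 hA'
    have b2 := abs_le.1 hr
    rw [abs_le]; constructor <;> linarith

end Pool.Agent.Emb36
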