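import Pool.Agent.Work.MP_1bd46d_gt.Transfer

/-! Building blocks for the levels, and elementary facts on reversals. -/

namespace Pool.Agent.Emb36

open Set Metric Topology Filter

set_option linter.unusedSectionVars false

section rev
variable {X : Type*} {π ρ : X → ℝ} {p q x : X}

lemma rev_zero (h : 0 ≤ (π x - π p) * (ρ x - ρ p)) : rev π ρ p x = 0 := by
  rw [rev, if_neg (not_lt.2 h)]

lemma rev_zero_le (h1 : π x ≤ π p) (h2 : ρ x ≤ ρ p) : rev π ρ p x = 0 :=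
  rev_zero (mul_nonneg_of_nonpos_of_nonpos (by linarith) (by linarith))

lemma rev_zero_ge (h1 : π p ≤ π x) (h2 : ρ p ≤ ρ x) : rev π ρ p x = 0 :=
  rev_zero (mul_nonneg (by linarith) (by linarith))

lemma rev_one (h : (π x - π p) * (ρ x - ρ p) < 0) : rev π ρ p x = 1 := by
  rw [rev, if_pos h]

lemma rev_cases (π ρ : X → ℝ) (p x : X) : rev π ρ p x = 0 ∨ rev π ρ p x = 1 := by
  unfold rev; split_ifs <;> simp

lemma rev_symm (π ρ : X → ℝ) (p x : X) : rev π ρ p x = rev π ρ x p := by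
  have : (π x - π p) * (ρ x - ρ p) = (π p - π x) * (ρ p - ρ x) := by ring
  unfold rev; rw [this]

lemma rev_congr (h1 : 0 < (π x - π p) * (π q - π p)) (h2 : 0 < (ρ x - ρ p) * (ρ q - ρ p)) :
    rev π ρ p x = rev π ρ p q := by
  have e : (π x - π p) * (ρ x - ρ p) < 0 ↔ (π q - π p) * (ρ q - ρ p) < 0 := by
    have := mul_pos h1 h2
    constructor
    · intro h; by_contra h'; nlinarith [not_lt.1 h']
    · intro h; by_contra h'; nlinarith [not_lt.1 h']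
  unfold rev; simp only [e]

lemma rev_of_mono (h1 : π p ≤ π x → ρ p ≤ ρ x) (h2 : π x ≤ π p → ρ x ≤ ρ p) :
    rev π ρ p x = 0 := by
  rcases le_total (π p) (π x) with h | h
  · exact rev_zero_ge h (h1 h)
  · exact rev_zero_le h (h2 h)

lemma rev_of_anti (h1 : π p ≤ π x → ρ x ≤ ρ p) (h2 : π x ≤ π p → ρ p ≤ ρ x) (n1 : π p ≠ π x)
    (n2 : ρ p ≠ ρ x) : rev π ρ p x = 1 := by
  rcases lt_or_gt_of_ne n1 with h | h
  · exact rev_one (mul_neg_of_pos_of_neg (by linarith)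
      (sub_neg.2 (lt_of_le_of_ne (h1 h.le) n2.symm)))
  · exact rev_one (mul_neg_of_neg_of_pos (by linarith)
      (sub_pos.2 (lt_of_le_of_ne (h2 h.le) n2)))

end rev

lemma clamp_near {A B u k : ℝ} (hAB : A ≤ B) (hk : 0 ≤ k) (h1 : A - k ≤ u) (h2 : u ≤ B + k) :
    |max A (min u B) - u| ≤ k := by
  rw [abs_le]
  rcases le_total u B with h | h
  · rw [min_eq_left h]
    rcases le_total A u with h' | h'
    · rw [max_eq_right h']; constructor <;> linarith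
    · rw [max_eq_left h']; constructor <;> linarith
  · rw [min_eq_right h, max_eq_right hAB]; constructor <;> linarith

lemma clamp_mono {A B u v : ℝ} (h : u ≤ v) : max A (min u B) ≤ max A (min v B) :=
  max_le_max le_rfl (min_le_min h le_rfl)

variable {X : Type*} [MetricSpace X] [CompactSpace X] [Nonempty X] {g : X → ℝ}

lemma NN_succ (P : ℕ → C(X, ℝ)) (τ : ℕ → Bool) (n : ℕ) (p x : X) :
    NN P τ (n + 1) p x = NN P τ n p x + sg (τ n) * rev (P n) (P (n + 1)) p x :=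
  Finset.sum_range_succ _ _

lemma NN_stab {P : ℕ → C(X, ℝ)} (τ : ℕ → Bool) {n : ℕ} {p x : X}
    (h : ∀ j ≥ n, rev (P j) (P (j + 1)) p x = 0) {m : ℕ} (hm : n ≤ m) :
    NN P τ m p x = NN P τ n p x := by
  induction m, hm using Nat.le_induction with
  | base => rfl
  | succ m hm ih => rw [NN_succ, ih, h m hm, mul_zero, add_zero]

/-- a small equivalence between two embedded copies -/
def Small (R ε : ℝ) (ψ ψ' : C(X, ℂ)) : Prop :=
  ∃ h : ℂ ≃ₜ ℂ, h '' range ψ = range ψ' ∧ ∀ z, ‖z‖ ≤ R → ‖h z - z‖ ≤ ε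

def RigidFam (X : Type*) [MetricSpace X] : Prop :=
  ∃ (ψ : (ℕ → Bool) → C(X, ℂ)) (R ε : ℝ), 0 < ε ∧ (∀ c, Function.Injective (ψ c)) ∧
    ∀ c c', c ≠ c' → ¬ (Small R ε (ψ c) (ψ c') ∧ Small R ε (ψ c') (ψ c))

/-- clamp in the middle, unfold along `ρ` outside -/
lemma build (ρ m : C(X, ℝ)) {v w A B : ℝ} (hvw : v ≤ w) (hAB : A ≤ B)
    (hv : ∀ y, ρ y = v → m y ≤ A) (hw : ∀ y, ρ y = w → B ≤ m y) :
    ∃ π : C(X, ℝ), (∀ y, v ≤ ρ y → ρ y ≤ w → π y = max A (min (m y) B)) ∧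
      (∀ y, ρ y ≤ v → π y ≤ A) ∧ (∀ y, v ≤ ρ y → A ≤ π y) ∧
      (∀ y, ρ y ≤ w → π y ≤ B) ∧ (∀ y, w ≤ ρ y → B ≤ π y) ∧
      (∀ x y, π x = π y → ρ x = ρ y ∨ (v ≤ ρ x ∧ ρ x ≤ w) ∧ (v ≤ ρ y ∧ ρ y ≤ w)) ∧
      (∀ x y, ρ x ≤ ρ y → π x ≤ π y ∨ (v ≤ ρ x ∧ ρ x ≤ w) ∧ (v ≤ ρ y ∧ ρ y ≤ w)) := by
  obtain ⟨π, h1, h2, h3⟩ := glue3 ρ ⟨fun y => A + (ρ y - v), by fun_prop⟩
    ⟨fun y => max A (min (m y) B), by fun_prop⟩ ⟨fun y => B + (ρ y - w), by fun_prop⟩ hvw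
    (fun y hy => by
      simp only [ContinuousMap.coe_mk, hy, sub_self, add_zero]
      exact (max_eq_left ((min_le_left _ _).trans (hv y hy))).symm)
    (fun y hy => by
      simp only [ContinuousMap.coe_mk, hy, sub_self, add_zero]
      rw [min_eq_right (hw y hy), max_eq_right hAB])
  simp only [ContinuousMap.coe_mk] at h1 h2 h3
  have k : ∀ y, (ρ y < v ∧ π y = A + (ρ y - v)) ∨ ((v ≤ ρ y ∧ ρ y ≤ w) ∧ A ≤ π y ∧ π y ≤ B) ∨
      (w < ρ y ∧ π y = B + (ρ y - w)) := by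
    intro y
    rcases lt_or_ge (ρ y) v with h | h
    · exact Or.inl ⟨h, h1 y h.le⟩
    · rcases lt_or_ge w (ρ y) with h' | h'
      · exact Or.inr (Or.inr ⟨h', h3 y h'.le⟩)
      · refine Or.inr (Or.inl ⟨⟨h, h'⟩, ?_⟩)
        rw [h2 y h h']
        exact ⟨le_max_left _ _, max_le hAB (min_le_right _ _)⟩
  refine ⟨π, h2, fun y hy => by rw [h1 y hy]; linarith, fun y hy => ?_, fun y hy => ?_,
    fun y hy => by rw [h3 y hy]; linarith, fun x y hxy => ?_, fun x y hxy => ?_⟩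
  · rcases k y with ⟨a, b⟩ | ⟨a, b, c⟩ | ⟨a, b⟩ <;> linarith
  · rcases k y with ⟨a, b⟩ | ⟨a, b, c⟩ | ⟨a, b⟩ <;> linarith
  · rcases k x with ⟨a, b⟩ | ⟨a, b, c⟩ | ⟨a, b⟩ <;> rcases k y with ⟨a', b'⟩ | ⟨a', b', c'⟩ | ⟨a', b'⟩
    all_goals first | exact Or.inr ⟨a, a'⟩ | (left; linarith)
  · rcases k x with ⟨a, b⟩ | ⟨a, b, c⟩ | ⟨a, b⟩ <;> rcases k y with ⟨a', b'⟩ | ⟨a', b', c'⟩ | ⟨a', b'⟩
    all_goals first | exact Or.inr ⟨a, a'⟩ | (left; linarith)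

/-- the part of a layer approached from below -/
def Em (g : X → ℝ) (t : ℝ) : Set X := {x | g x = t ∧ x ∈ closure {y | g y < t}}

/-- the part of a layer approached from above -/
def Ep (g : X → ℝ) (t : ℝ) : Set X := {x | g x = t ∧ x ∈ closure {y | t < g y}}

lemma Data.isClosed_Em (D : Data g) (t : ℝ) : IsClosed (Em g t) :=
  (isClosed_eq D.cont continuous_const).inter isClosed_closure

lemma Data.near_Em (D : Data g) {t s : ℝ} (hs : s < t) {y : X} (hy : y ∈ Em g t) {U : Set X}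
    (hU : IsOpen U) (hyU : y ∈ U) : ∃ x ∈ U, s < g x ∧ g x < t := by
  obtain ⟨x, ⟨h1, h2⟩, h3⟩ := mem_closure_iff.1 hy.2 (U ∩ {x | s < g x})
    (hU.inter (isOpen_lt continuous_const D.cont)) ⟨hyU, by simp only [mem_ofPred_eq, hy.1, hs]⟩
  exact ⟨x, h1, h2, h3⟩

lemma Data.near_Ep (D : Data g) {t s : ℝ} (hs : t < s) {y : X} (hy : y ∈ Ep g t) {U : Set X}
    (hU : IsOpen U) (hyU : y ∈ U) : ∃ x ∈ U, t < g x ∧ g x < s := by
  obtain ⟨x, ⟨h1, h2⟩, h3⟩ := mem_closure_iff.1 hy.2 (U ∩ {x | g x < s})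
    (hU.inter (isOpen_lt D.cont continuous_const)) ⟨hyU, by simp only [mem_ofPred_eq, hy.1, hs]⟩
  exact ⟨x, h1, h3, h2⟩

lemma Data.le_of_closure (D : Data g) {t : ℝ} {y : X} (hy : y ∈ closure {y | g y < t}) :
    g y ≤ t :=
  closure_minimal (s := {y | g y < t}) (t := {y | g y ≤ t}) (fun z (h : g z < t) => h.le)
    (isClosed_le D.cont continuous_const) hy

lemma sign_radius (π : C(X, ℝ)) {p q : X} (h : π p ≠ π q) {ξ : ℝ} (hξ : 0 < ξ) :
    ∃ ξ', 0 < ξ' ∧ ξ' ≤ ξ ∧ (∀ x, dist x q < ξ' → 0 < (π x - π p) * (π q - π p)) ∧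
      ∀ x, dist x p < ξ' → 0 < (π x - π q) * (π p - π q) := by
  obtain ⟨ε, hε, hε'⟩ := unif π (abs_pos.2 (sub_ne_zero.2 h))
  refine ⟨min ε ξ, lt_min hε hξ, min_le_right _ _, fun x hx => ?_, fun x hx => ?_⟩
  · have := abs_lt.1 (hε' x q (hx.trans_le (min_le_left _ _)))
    rcases lt_or_gt_of_ne h with h' | h'
    · rw [abs_of_neg (by linarith)] at this
      exact mul_pos (by linarith) (by linarith)
    · rw [abs_of_pos (by linarith)] at this
      exact mul_pos_of_neg_of_neg (by linarith) (by linarith)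
  · have := abs_lt.1 (hε' x p (hx.trans_le (min_le_left _ _)))
    rcases lt_or_gt_of_ne h with h' | h'
    · rw [abs_of_neg (by linarith)] at this
      exact mul_pos_of_neg_of_neg (by linarith) (by linarith)
    · rw [abs_of_pos (by linarith)] at this
      exact mul_pos (by linarith) (by linarith)

lemma Refines.ne {ρ π : X → ℝ} {γ : ℝ} (h : Refines γ ρ π) {p q : X} (hγ : γ ≤ |π p - π q|) :
    ρ p ≠ ρ q := fun e => absurd (h p q e) (not_lt.2 hγ)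

end Pool.Agent.Emb36
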