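import Mathlib.Topology.Homotopy.Lifting
import Mathlib.Analysis.Complex.CoveringMap
import Pool.Agent.Work.MP_1bd46d_gt.Engine

/-! A small plane homeomorphism between two runs preserves the signed reversal count. -/

namespace Pool.Agent.Emb36

open Set Metric Topology Filter Complex

set_option linter.unusedSectionVars false

lemma log_const {A : Type*} [TopologicalSpace A] [PreconnectedSpace A] {E : A → ℂ}
    (hE : Continuous E) (hre : ∀ a, 0 < (exp (E a)).re) {a : A} (ha : |(E a).im| < Real.pi) (y : A) :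
    E y = log (exp (E y)) := by
  have := Complex.isCoveringMap_exp.eq_of_comp_eq (g₁ := E) (g₂ := fun y => log (exp (E y))) hE
    (Continuous.clog hE.cexp fun y => Or.inl (hre y)) (by
      ext y; simp only [Function.comp]; exact (exp_log (exp_ne_zero _)).symm) a
    (log_exp (abs_lt.1 ha).1 (abs_lt.1 ha).2.le).symm
  exact congrFun this y

lemma small_quot {h : ℂ → ℂ} {z w : ℂ} {ε r : ℝ} (hr : 0 < r) (hz : ‖h z - z‖ ≤ ε)
    (hw : ‖h w - w‖ ≤ ε) (hzw : r ≤ ‖w - z‖) : ‖(h w - h z) / (w - z) - 1‖ ≤ 2 * ε / r := by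
  have h0 : 0 < ‖w - z‖ := hr.trans_le hzw
  have h1 : w - z ≠ 0 := norm_pos_iff.1 h0
  have e : (h w - h z) / (w - z) - 1 = ((h w - w) - (h z - z)) / (w - z) := by field_simp; ring
  have hε : 0 ≤ ε := (norm_nonneg _).trans hz
  rw [e, norm_div]
  have := norm_sub_le (h w - w) (h z - z)
  gcongr
  linarith

lemma exists_log_quot {A : Type*} [TopologicalSpace A] (z w : C(A, ℂ)) (hzw : ∀ a, z a ≠ w a)
    {R ε r : ℝ} (hz : ∀ a, ‖z a‖ ≤ R) (hw : ∀ a, ‖w a‖ ≤ R) {h : ℂ → ℂ} (hc : Continuous h)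
    (hi : Function.Injective h) (hr : 0 < r) (hε : 4 * ε ≤ r)
    (hs : ∀ u, ‖u‖ ≤ 3 * R + r → ‖h u - u‖ ≤ ε) :
    ∃ L : C(A, ℂ), (∀ a, exp (L a) = (h (w a) - h (z a)) / (w a - z a)) ∧
      ∀ a, r ≤ ‖w a - z a‖ → |(L a).im| ≤ 3 * ε / r := by
  have hn : ∀ a, 0 < ‖w a - z a‖ := fun a => norm_pos_iff.2 (sub_ne_zero.2 (hzw a).symm)
  let lam : unitInterval × A → ℝ := fun ta => ta.1 + (1 - ta.1) * r / ‖w ta.2 - z ta.2‖
  have lamc : Continuous lam := by
    refine Continuous.add (by fun_prop) (Continuous.div (by fun_prop) (by fun_prop) ?_)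
    exact fun ta => (hn ta.2).ne'
  let W : unitInterval × A → ℂ := fun ta => z ta.2 + lam ta * (w ta.2 - z ta.2)
  have Wc : Continuous W := by fun_prop
  have lampos : ∀ ta, 0 < lam ta := by
    rintro ⟨t, a⟩
    have h0 := t.2.1; have h1 := t.2.2; have h2 := hn a
    rcases h0.eq_or_lt with h3 | h3
    · simp only [lam, ← h3]; simpa using div_pos hr h2
    · have : 0 ≤ (1 - (t : ℝ)) * r / ‖w a - z a‖ := div_nonneg (mul_nonneg (by linarith) hr.le) h2.le
      simp only [lam]; linarith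
  have Wn : ∀ ta, ‖W ta - z ta.2‖ = ta.1 * ‖w ta.2 - z ta.2‖ + (1 - ta.1) * r := by
    intro ta
    simp only [W, add_sub_cancel_left, norm_mul, norm_real, Real.norm_eq_abs,
      abs_of_pos (lampos ta)]
    simp only [lam]
    have := (hn ta.2).ne'
    field_simp
  have Wne : ∀ ta, W ta - z ta.2 ≠ 0 := by
    intro ta
    simp only [W, add_sub_cancel_left]
    exact mul_ne_zero (by exact_mod_cast (lampos ta).ne') (sub_ne_zero.2 (hzw _).symm)
  have Wb : ∀ ta, ‖W ta‖ ≤ 3 * R + r := by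
    rintro ⟨t, a⟩
    have h0 := t.2.1; have h1 := t.2.2
    have e1 := norm_add_le (z a) (W (t, a) - z a)
    rw [add_sub_cancel, Wn] at e1
    have e2 := norm_sub_le (w a) (z a)
    have e3 := hz a; have e4 := hw a; have e5 := hn a
    simp only at e1
    nlinarith
  have zb : ∀ a, ‖z a‖ ≤ 3 * R + r := fun a => by
    have := hz a; have := norm_nonneg (z a); linarith
  let Q : unitInterval × A → ℂ := fun ta => (h (W ta) - h (z ta.2)) / (W ta - z ta.2)
  have Qc : Continuous Q := Continuous.div (by fun_prop) (by fun_prop) Wne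
  have Qne : ∀ ta, Q ta ≠ 0 := fun ta =>
    div_ne_zero (sub_ne_zero.2 fun e => Wne ta (sub_eq_zero.2 (hi e))) (Wne ta)
  have h2 : 2 * ε / r ≤ 1 / 2 := by rw [div_le_iff₀ hr]; linarith
  have Qs : ∀ ta, r ≤ ‖W ta - z ta.2‖ → ‖Q ta - 1‖ ≤ 2 * ε / r := fun ta hta =>
    small_quot hr (hs _ (zb _)) (hs _ (Wb _)) hta
  have Qre : ∀ ta, r ≤ ‖W ta - z ta.2‖ → 0 < (Q ta).re := by
    intro ta hta
    have e1 := (abs_re_le_norm _).trans ((Qs ta hta).trans h2)
    rw [sub_re, one_re] at e1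
    linarith [(abs_le.1 e1).1]
  have W0 : ∀ a, r ≤ ‖W (0, a) - z a‖ := fun a => by
    have := Wn (0, a); simp only [Icc.coe_zero] at this; linarith
  let H : C(unitInterval × A, {u : ℂ // u ≠ 0}) := ⟨fun ta => ⟨Q ta, Qne ta⟩, Qc.subtype_mk _⟩
  let f0 : C(A, ℂ) := ⟨fun a => log (Q (0, a)),
    Continuous.clog (by fun_prop) fun a => Or.inl (Qre (0, a) (W0 a))⟩
  have H0 : ∀ a, H (0, a) = (fun u : ℂ => (⟨_, u.exp_ne_zero⟩ : {u : ℂ // u ≠ 0})) (f0 a) :=
    fun a => Subtype.ext (exp_log (Qne _)).symm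
  let Lf := Complex.isCoveringMap_exp.liftHomotopy H f0 H0
  have Lexp : ∀ ta, exp (Lf ta) = Q ta := fun ta =>
    congrArg Subtype.val (congrFun (Complex.isCoveringMap_exp.liftHomotopy_lifts H f0 H0) ta)
  have L0 : ∀ a, Lf (0, a) = f0 a := Complex.isCoveringMap_exp.liftHomotopy_zero H f0 H0
  have W1 : ∀ a, W (1, a) = w a := fun a => by simp [W, lam]
  refine ⟨⟨fun a => Lf (1, a), by fun_prop⟩, fun a => ?_, fun a ha => ?_⟩
  · simp only [ContinuousMap.coe_mk, Lexp, Q, W1]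
  · have hfar : ∀ t : unitInterval, r ≤ ‖W (t, a) - z a‖ := fun t => by
      have := Wn (t, a); have h0 := t.2.1; have h1 := t.2.2
      simp only at this; rw [this]; nlinarith
    have e := log_const (A := unitInterval) (E := fun t => Lf (t, a)) (by fun_prop)
      (fun t => by rw [Lexp]; exact Qre _ (hfar t)) (a := 0) (by
        rw [L0]
        simp only [f0, ContinuousMap.coe_mk, log_im]
        have := abs_arg_lt_pi_div_two_iff.2 (Or.inl (Qre (0, a) (W0 a)))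
        linarith [Real.pi_pos]) 1
    simp only [ContinuousMap.coe_mk]
    rw [e, Lexp]
    have e1 := Qs (1, a) (hfar 1)
    have e2 := norm_log_one_add_half_le_self (e1.trans h2)
    rw [add_sub_cancel] at e2
    refine (abs_im_le_norm _).trans (e2.trans ?_)
    have : 3 * ε / r = 3 / 2 * (2 * ε / r) := by ring
    rw [this]; gcongr

lemma re_pos_aux {A A' An An' : ℂ} {d d' : ℝ} (hd : d < 0) (hd' : d' < 0) (hA : A ≠ 0)
    (hA' : A' ≠ 0) (h1 : ‖An - A‖ ≤ ‖A‖ / 4) (h2 : ‖An' - A'‖ ≤ ‖A'‖ / 4) :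
    0 < (An' / d' / (An / d) / (A' / A)).re := by
  have k : ∀ {B Bn : ℂ}, B ≠ 0 → ‖Bn - B‖ ≤ ‖B‖ / 4 →
      3 / 4 ≤ (Bn / B).re ∧ |(Bn / B).im| ≤ 1 / 4 := by
    intro B Bn hB h
    have e : ‖Bn / B - 1‖ ≤ 1 / 4 := by
      have : Bn / B - 1 = (Bn - B) / B := by field_simp
      rw [this, norm_div, div_le_iff₀ (norm_pos_iff.2 hB)]; linarith
    have e1 := (abs_re_le_norm _).trans e
    have e2 := (abs_im_le_norm _).trans e
    rw [sub_re, one_re] at e1
    rw [sub_im, one_im, sub_zero] at e2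
    exact ⟨by linarith [(abs_le.1 e1).1], e2⟩
  obtain ⟨a1, a2⟩ := k hA h1
  obtain ⟨b1, b2⟩ := k hA' h2
  have hAn : An ≠ 0 := by rintro rfl; simp at a1; linarith
  have hdc : (d : ℂ) ≠ 0 := by exact_mod_cast hd.ne
  have hdc' : (d' : ℂ) ≠ 0 := by exact_mod_cast hd'.ne
  have e : An' / d' / (An / d) / (A' / A) = ((d / d' : ℝ) : ℂ) * ((An' / A') / (An / A)) := by
    push_cast; field_simp
  rw [e, re_ofReal_mul]
  refine mul_pos (div_pos_of_neg_of_neg hd hd') ?_
  generalize An' / A' = u at b1 b2 ⊢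
  have hv : An / A ≠ 0 := div_ne_zero hAn hA
  generalize An / A = v at a1 a2 hv ⊢
  rw [div_re, ← add_div]
  refine div_pos ?_ (normSq_pos.2 hv)
  have c1 := abs_le.1 a2; have c2 := abs_le.1 b2
  nlinarith

variable {X : Type*} [MetricSpace X] [CompactSpace X] [Nonempty X] {g : X → ℝ}

lemma exists_eta {ψ ψ' : C(X, ℂ)} (hi : Function.Injective ψ) (hi' : Function.Injective ψ')
    (h : ℂ ≃ₜ ℂ) (hh : h '' range ψ = range ψ') : ∃ η : X ≃ₜ X, ∀ x, ψ' (η x) = h (ψ x) := by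
  have : ∀ x, ∃ y, ψ' y = h (ψ x) := fun x => by
    have : h (ψ x) ∈ range ψ' := hh ▸ mem_image_of_mem _ (mem_range_self x)
    exact this
  choose η hη using this
  have hb : Function.Bijective η := by
    constructor
    · intro x y hxy
      have := hη x
      rw [hxy, hη y] at this
      exact (hi (h.injective this)).symm
    · intro y
      have : ψ' y ∈ h '' range ψ := hh ▸ mem_range_self y
      obtain ⟨_, ⟨x, rfl⟩, hx⟩ := this
      exact ⟨x, hi' (by rw [hη, hx])⟩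
  have hc : Continuous η := by
    rw [(ψ'.continuous.isClosedEmbedding hi').isInducing.continuous_iff]
    have : ψ' ∘ η = fun x => h (ψ x) := funext hη
    rw [this]; exact h.continuous.comp ψ.continuous
  exact ⟨Continuous.homeoOfEquivCompactToT2 (f := Equiv.ofBijective η hb) hc, hη⟩

lemma Data.dich (D : Data g) (η : X ≃ₜ X) :
    (∀ a b, g a < g b → g (η a) < g (η b)) ∨ (∀ a b, g a < g b → g (η b) < g (η a)) := by
  obtain ⟨x0, hx0⟩ := D.surj le_rfl zero_le_one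
  obtain ⟨y0, hy0⟩ := D.surj zero_le_one le_rfl
  have hc := D.cont
  have key : ∀ a b, g a < g b →
      (0 < g (η b) - g (η a) ∧ 0 < g (η y0) - g (η x0)) ∨
        (g (η b) - g (η a) < 0 ∧ g (η y0) - g (η x0) < 0) := by
    intro a b hab
    have m1 : (a, b) ∈ Dg g (g b - g a) := by simp [Dg]
    have m2 : (x0, y0) ∈ Dg g (g b - g a) := by
      have := (D.mem a).1; have := (D.mem b).2
      simp only [Dg, mem_ofPred_eq, hx0, hy0]; linarith
    rcases sign_const (D.preconn_Dg (g b - g a)) (u := fun q => g (η q.2) - g (η q.1))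
      (((hc.comp η.continuous).comp continuous_snd).sub
        ((hc.comp η.continuous).comp continuous_fst)).continuousOn (by
        rintro ⟨u, v⟩ huv h0
        have := D.homeo η.symm (η v) (η u) (by simpa [sub_eq_zero] using h0)
        simp only [Dg, mem_ofPred_eq, Homeomorph.symm_apply_apply] at huv this
        linarith) with h | h
    · exact Or.inl ⟨h _ m1, h _ m2⟩
    · exact Or.inr ⟨h _ m1, h _ m2⟩
  rcases lt_or_ge 0 (g (η y0) - g (η x0)) with h | h
  · left; intro a b hab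
    rcases key a b hab with h' | h' <;> linarith [h'.1, h'.2]
  · right; intro a b hab
    rcases key a b hab with h' | h' <;> linarith [h'.1, h'.2]

lemma Data.order (D : Data g) {φ : C(X, ℝ)} {δ : ℝ} (hδ : 0 < δ)
    (hφ : ∀ x y, g x = 0 → g y = 1 → 12 * δ ≤ φ y - φ x) (η : X ≃ₜ X)
    (hη : ∀ x, |φ (η x) - φ x| ≤ δ) (a b : X) : g a < g b ↔ g (η a) < g (η b) := by
  have h1 : ∀ a b, g a < g b → g (η a) < g (η b) := by
    rcases D.dich η with h | h
    · exact h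
    · exfalso
      obtain ⟨x0, hx0⟩ := D.surj le_rfl zero_le_one
      obtain ⟨y0, hy0⟩ := D.surj zero_le_one le_rfl
      have e : g (η x0) = 1 := by
        rcases (D.mem (η.symm y0)).1.eq_or_lt with h1 | h1
        · have := D.homeo η x0 (η.symm y0) (hx0.trans h1)
          rwa [η.apply_symm_apply, hy0] at this
        · have := h x0 (η.symm y0) (hx0 ▸ h1)
          rw [η.apply_symm_apply, hy0] at this
          linarith [(D.mem (η x0)).2]
      have := hφ x0 (η x0) hx0 e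
      linarith [(abs_le.1 (hη x0)).2]
  refine ⟨h1 a b, fun h => ?_⟩
  rcases lt_trichotomy (g a) (g b) with h' | h' | h'
  · exact h'
  · linarith [D.homeo η a b h']
  · linarith [h1 b a h']

lemma NN_zero {P : ℕ → C(X, ℝ)} (τ : ℕ → Bool) (h1 : ∀ n, Ori g 1 (P n)) {p x : X}
    (hpx : g x + 1 ≤ g p) (n : ℕ) : NN P τ n p x = 0 := by
  refine Finset.sum_eq_zero fun j _ => ?_
  have a := h1 j x p hpx
  have b := h1 (j + 1) x p hpx
  rw [rev, if_neg (not_lt.2 (mul_nonneg_of_nonpos_of_nonpos (by linarith) (by linarith))), mul_zero]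

theorem transfer (D : Data g) {φ : C(X, ℝ)} {δ : ℝ} (hδ : 0 < δ)
    (hφ : ∀ x y, g x = 0 → g y = 1 → 12 * δ ≤ φ y - φ x)
    {P P' : ℕ → C(X, ℝ)} {τ τ' : ℕ → Bool} {ψ ψ' : C(X, ℂ)}
    (R : Run φ δ P τ ψ) (R' : Run φ δ P' τ' ψ')
    (hi : Function.Injective ψ) (hi' : Function.Injective ψ')
    (ho : ∀ σ > 0, ∃ n0, ∀ n ≥ n0, Ori g σ (P n)) (ho' : ∀ σ > 0, ∃ n0, ∀ n ≥ n0, Ori g σ (P' n))
    (h1 : ∀ n, Ori g 1 (P n)) (h1' : ∀ n, Ori g 1 (P' n))
    (h : ℂ ≃ₜ ℂ) (hh : h '' range ψ = range ψ')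
    (hs : ∀ z, ‖z‖ ≤ 3 * (‖φ‖ + δ) + 8 * δ → ‖h z - z‖ ≤ δ / 3) :
    ∃ η : X ≃ₜ X, (∀ x, |φ (η x) - φ x| ≤ δ) ∧ (∀ x y, g x < g y ↔ g (η x) < g (η y)) ∧
      ∀ p x, g x < g p → 12 * δ ≤ |φ p - φ x| →
        ∃ n0, ∀ n ≥ n0, NN P' τ' n (η p) (η x) = NN P τ n p x := by
  obtain ⟨η, hη⟩ := exists_eta hi hi' h hh
  have hb : ∀ x, ‖ψ x‖ ≤ ‖φ‖ + δ := fun x => by
    have e1 := R.close x
    rw [dist_eq_norm] at e1
    have e2 := norm_add_le (ψ x - φ x) (φ x)
    rw [sub_add_cancel, norm_real] at e2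
    linarith [φ.norm_coe_le_norm x]
  have hφn := norm_nonneg φ
  have hsm : ∀ x, |φ (η x) - φ x| ≤ δ := fun x => by
    have e1 := R.close x
    have e2 := R'.close (η x)
    have e3 := hs (ψ x) (by linarith [hb x])
    rw [← dist_eq_norm, ← hη] at e3
    have e4 := dist_triangle4 (φ (η x) : ℂ) (ψ' (η x)) (ψ x) (φ x)
    rw [dist_comm] at e2
    have e5 : dist (φ (η x) : ℂ) (φ x) = |φ (η x) - φ x| := by
      rw [dist_eq_norm, ← ofReal_sub, norm_real, Real.norm_eq_abs]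
    linarith
  have hord := D.order hδ hφ η hsm
  refine ⟨η, hsm, hord, fun p x hpx hfar => ?_⟩
  obtain ⟨G, hG, hA⟩ := R.geo
  obtain ⟨G', hG', hA'⟩ := R'.geo
  set σ := g p - g x with hσ
  have hσ0 : 0 < σ := by linarith
  have hc := D.cont
  have hlt : ∀ q ∈ Dg g σ, g q.1 < g q.2 := fun q hq => by
    simp only [Dg, mem_ofPred_eq] at hq; linarith
  have hne : ∀ q ∈ Dg g σ, q.1 ≠ q.2 := fun q hq e => by
    have := hlt q hq; rw [e] at this; exact lt_irrefl _ this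
  have hCc := (D.isClosed_Dg σ).isCompact
  obtain ⟨σ', hσ', hσ''⟩ := margin hCc (u := fun q => g (η q.2) - g (η q.1))
    (((hc.comp η.continuous).comp continuous_snd).sub
      ((hc.comp η.continuous).comp continuous_fst)).continuousOn
    (fun q hq => sub_pos.2 ((hord _ _).1 (hlt q hq)))
  obtain ⟨κ, hκ, hκ'⟩ := margin hCc (u := fun q => ‖ψ q.1 - ψ q.2‖)
    ((ψ.continuous.comp continuous_fst).sub (ψ.continuous.comp continuous_snd)).norm.continuousOn
    (fun q hq => norm_pos_iff.2 (sub_ne_zero.2 fun e => hne q hq (hi e)))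
  obtain ⟨μ, hμ, hμ'⟩ := margin hCc (u := fun q => ‖ψ' (η q.1) - ψ' (η q.2)‖)
    (((ψ'.continuous.comp η.continuous).comp continuous_fst).sub
      ((ψ'.continuous.comp η.continuous).comp continuous_snd)).norm.continuousOn
    (fun q hq => norm_pos_iff.2 (sub_ne_zero.2 fun e => hne q hq (η.injective (hi' e))))
  obtain ⟨n1, hn1⟩ := hG (κ / 8) (by positivity)
  obtain ⟨n2, hn2⟩ := hG' (μ / 8) (by positivity)
  obtain ⟨n3, hn3⟩ := ho σ hσ0
  obtain ⟨n4, hn4⟩ := ho' σ' hσ'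
  refine ⟨n1 + n2 + n3 + n4, fun n hn => ?_⟩
  replace hn1 := hn1 n (by omega)
  replace hn2 := hn2 n (by omega)
  replace hn3 := hn3 n (by omega)
  replace hn4 := hn4 n (by omega)
  have close : ∀ {F : X → ℂ} {Ψ : X → ℂ} {k : ℝ} (u v : X), (∀ y, dist (F y) (Ψ y) ≤ k / 8) →
      k ≤ ‖Ψ u - Ψ v‖ → ‖F u - F v - (Ψ u - Ψ v)‖ ≤ ‖Ψ u - Ψ v‖ / 4 := by
    intro F Ψ k u v hF hk
    have e : F u - F v - (Ψ u - Ψ v) = (F u - Ψ u) - (F v - Ψ v) := by ring
    have e1 := hF u; have e2 := hF v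
    rw [dist_eq_norm] at e1 e2
    have e3 := norm_sub_le (F u - Ψ u) (F v - Ψ v)
    rw [e]; linarith
  have strict : ∀ {a b : ℂ}, a ≠ 0 → ‖b - a‖ ≤ ‖a‖ / 4 → b ≠ 0 := by
    rintro a b ha hab rfl
    rw [zero_sub, norm_neg] at hab
    linarith [norm_pos_iff.2 ha]
  have hψne : ∀ q ∈ Dg g σ, ψ q.1 - ψ q.2 ≠ 0 := fun q hq =>
    sub_ne_zero.2 fun e => hne q hq (hi e)
  have hψne' : ∀ q ∈ Dg g σ, ψ' (η q.1) - ψ' (η q.2) ≠ 0 := fun q hq =>
    sub_ne_zero.2 fun e => hne q hq (η.injective (hi' e))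
  have c1 := fun q (hq : q ∈ Dg g σ) => close (F := fun y => (G n).Φ (P n y)) q.1 q.2 hn1 (hκ' q hq)
  have c2 := fun q (hq : q ∈ Dg g σ) =>
    close (F := fun y => (G' n).Φ (P' n y)) (η q.1) (η q.2) hn2 (hμ' q hq)
  have d1 : ∀ q ∈ Dg g σ, P n q.1 < P n q.2 := fun q hq =>
    lt_of_le_of_ne (hn3 _ _ hq) fun e => strict (hψne q hq) (c1 q hq) (by simp only [e, sub_self])
  have d2 : ∀ q ∈ Dg g σ, P' n (η q.1) < P' n (η q.2) := fun q hq =>
    lt_of_le_of_ne (hn4 _ _ (by linarith [hσ'' q hq])) fun e =>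
      strict (hψne' q hq) (c2 q hq) (by simp only [e, sub_self])
  have : PreconnectedSpace (Dg g σ) := Subtype.preconnectedSpace (D.preconn_Dg σ)
  obtain ⟨L, hL, hL'⟩ := exists_log_quot (A := Dg g σ) ⟨fun a => ψ a.1.2, by fun_prop⟩
    ⟨fun a => ψ a.1.1, by fun_prop⟩ (fun a e => hne a.1 a.2 (hi e).symm) (R := ‖φ‖ + δ)
    (ε := δ / 3) (r := 8 * δ) (fun a => hb _) (fun a => hb _) h.continuous h.injective
    (by positivity) (by linarith) hs
  simp only [ContinuousMap.coe_mk] at hL hL'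
  let E : Dg g σ → ℂ := fun a => (G' n).a (P' n (η a.1.2), P' n (η a.1.1))
    - (G n).a (P n a.1.2, P n a.1.1) - L a
  have Ec : Continuous E := by
    refine Continuous.sub (Continuous.sub ?_ ?_) L.continuous
    · refine (G' n).acont.comp_continuous (by have := η.continuous; fun_prop) fun a => ?_
      simp only [mem_ofPred_eq]; exact_mod_cast (d2 a.1 a.2).ne'
    · refine (G n).acont.comp_continuous (by fun_prop) fun a => ?_
      simp only [mem_ofPred_eq]; exact_mod_cast (d1 a.1 a.2).ne'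
  have Ere : ∀ a, 0 < (exp (E a)).re := by
    intro a
    simp only [E]
    rw [exp_sub, exp_sub, hL, (G' n).aexp _ _ (by exact_mod_cast (d2 a.1 a.2).ne'),
      (G n).aexp _ _ (by exact_mod_cast (d1 a.1 a.2).ne'), ← hη, ← hη, ← ofReal_sub, ← ofReal_sub]
    exact re_pos_aux (sub_neg.2 (d1 a.1 a.2)) (sub_neg.2 (d2 a.1 a.2)) (hψne a.1 a.2)
      (hψne' a.1 a.2) (c1 a.1 a.2) (c2 a.1 a.2)
  have Efar : ∀ a : Dg g σ, 12 * δ ≤ |φ a.1.2 - φ a.1.1| →
      |(E a).im - Real.pi * (NN P' τ' n (η a.1.2) (η a.1.1) - NN P τ n a.1.2 a.1.1)| ≤ 3 / 5 := by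
    intro a ha
    have e1 := hA n a.1.2 a.1.1 (by linarith)
    have e2 := hA' n (η a.1.2) (η a.1.1) (by
      have u1 := abs_le.1 (hsm a.1.1); have u2 := abs_le.1 (hsm a.1.2)
      rcases le_abs'.1 ha with u | u
      · exact le_abs'.2 (Or.inl (by linarith))
      · exact le_abs'.2 (Or.inr (by linarith)))
    have e3 := hL' a (by
      have u1 := R.close a.1.1; have u2 := R.close a.1.2
      have u3 := dist_triangle4 (φ a.1.2 : ℂ) (ψ a.1.2) (ψ a.1.1) (φ a.1.1)
      have u4 : dist (φ a.1.2 : ℂ) (φ a.1.1) = |φ a.1.2 - φ a.1.1| := by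
        rw [dist_eq_norm, ← ofReal_sub, norm_real, Real.norm_eq_abs]
      rw [dist_comm] at u2
      rw [← dist_eq_norm, dist_comm]; linarith)
    have e4 : 3 * (δ / 3) / (8 * δ) = 1 / 8 := by field_simp
    rw [e4] at e3
    simp only [E, sub_im]
    have v1 := abs_le.1 e1; have v2 := abs_le.1 e2; have v3 := abs_le.1 e3
    rw [abs_le]; constructor <;> linarith
  obtain ⟨x0, hx0⟩ := D.surj le_rfl zero_le_one
  obtain ⟨y0, hy0⟩ := D.surj zero_le_one le_rfl
  have m0 : (x0, y0) ∈ Dg g σ := by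
    have := (D.mem x).1; have := (D.mem p).2
    simp only [Dg, mem_ofPred_eq, hx0, hy0]; linarith
  have hx0' : g (η x0) = 0 := by
    by_contra hn
    have : g x0 < g (η x0) := hx0 ▸ lt_of_le_of_ne (D.mem _).1 (Ne.symm hn)
    have e := (hord (η.symm x0) x0).2 (by rwa [η.apply_symm_apply])
    linarith [(D.mem (η.symm x0)).1]
  have hy0' : g (η y0) = 1 := by
    by_contra hn
    have : g (η y0) < g y0 := hy0 ▸ lt_of_le_of_ne (D.mem _).2 hn
    have e := (hord y0 (η.symm y0)).2 (by rwa [η.apply_symm_apply])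
    linarith [(D.mem (η.symm y0)).2]
  have pi3 := Real.two_le_pi
  have base : |(E ⟨_, m0⟩).im| < Real.pi := by
    have e := Efar ⟨_, m0⟩ ((hφ _ _ hx0 hy0).trans (le_abs_self _))
    simp only at e
    rw [NN_zero τ h1 (by linarith), NN_zero τ' h1' (by linarith)] at e
    simp only [Int.cast_zero, sub_self, mul_zero, sub_zero] at e
    linarith
  have m1 : (x, p) ∈ Dg g σ := by simp [Dg, hσ]
  have e1 := log_const Ec Ere base ⟨_, m1⟩
  have e2 : |(E ⟨_, m1⟩).im| < Real.pi / 2 := by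
    rw [e1, log_im]; exact abs_arg_lt_pi_div_two_iff.2 (Or.inl (Ere _))
  have e3 := Efar ⟨_, m1⟩ hfar
  simp only at e3
  have v1 := abs_lt.1 e2; have v2 := abs_le.1 e3
  have w1 : ((NN P' τ' n (η p) (η x) - NN P τ n p x : ℤ) : ℝ) < 1 := by
    push_cast; by_contra hcon; nlinarith [not_lt.1 hcon]
  have w2 : (-1 : ℝ) < ((NN P' τ' n (η p) (η x) - NN P τ n p x : ℤ) : ℝ) := by
    push_cast; by_contra hcon; nlinarith [not_lt.1 hcon]
  have w3 : NN P' τ' n (η p) (η x) - NN P τ n p x < 1 := by exact_mod_cast w1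
  have w4 : -1 < NN P' τ' n (η p) (η x) - NN P τ n p x := by exact_mod_cast w2
  omega

end Pool.Agent.Emb36
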